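import Mathlib

/-!
# Smooth functions with positive definite Hessian
-/

open scoped InnerProductSpace ContDiff
open Set

namespace Pool.Agent.MP_d967a3_an

section general

variable {E : Type*} [NormedAddCommGroup E] [NormedSpace ℝ E]

lemma hasDerivAt_line {f : E → ℝ} (hf : Differentiable ℝ f) (x v : E) (t : ℝ) :
    HasDerivAt (fun s : ℝ => f (x + s • v)) (fderiv ℝ f (x + t • v) v) t := by
  have h1 : HasDerivAt (fun s : ℝ => x + s • v) v t := by
    have := ((hasDerivAt_id t).smul_const v).const_add x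
    simpa using this
  exact (hf (x + t • v)).hasFDerivAt.comp_hasDerivAt t h1

lemma hasDerivAt_line2 {f : E → ℝ} (hf : ContDiff ℝ ∞ f) (x v : E) (t : ℝ) :
    HasDerivAt (fun s : ℝ => fderiv ℝ f (x + s • v) v)
      (fderiv ℝ (fderiv ℝ f) (x + t • v) v v) t := by
  have h1 : HasDerivAt (fun s : ℝ => x + s • v) v t := by
    have := ((hasDerivAt_id t).smul_const v).const_add x
    simpa using this
  have hd : Differentiable ℝ (fderiv ℝ f) :=
    (hf.fderiv_right (m := ∞) (by norm_num)).differentiable (by norm_num)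
  have h2 : HasDerivAt (fun s : ℝ => fderiv ℝ f (x + s • v))
      (fderiv ℝ (fderiv ℝ f) (x + t • v) v) t :=
    (hd (x + t • v)).hasFDerivAt.comp_hasDerivAt t h1
  have h3 := h2.clm_apply (hasDerivAt_const t v)
  simpa using h3

/-- A smooth function with positive definite Hessian is strictly convex on lines. -/
lemma strictConvexOn_line {f : E → ℝ} (hf : ContDiff ℝ ∞ f)
    (hpos : ∀ x v, v ≠ 0 → 0 < fderiv ℝ (fderiv ℝ f) x v v) (x v : E) (hv : v ≠ 0) :
    StrictConvexOn ℝ univ (fun s : ℝ => f (x + s • v)) := by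
  have hd : Differentiable ℝ f := hf.differentiable (by norm_num)
  apply strictConvexOn_univ_of_deriv2_pos
  · exact hf.continuous.comp (by fun_prop)
  · intro t
    have e1 : deriv (fun s : ℝ => f (x + s • v)) = fun s => fderiv ℝ f (x + s • v) v :=
      funext fun s => (hasDerivAt_line hd x v s).deriv
    rw [Function.iterate_succ, Function.iterate_one, Function.comp_apply, e1,
      (hasDerivAt_line2 hf x v t).deriv]
    exact hpos _ _ hv

/-- The first order convexity inequality. -/
lemma lt_of_ne {f : E → ℝ} (hf : ContDiff ℝ ∞ f)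
    (hpos : ∀ x v, v ≠ 0 → 0 < fderiv ℝ (fderiv ℝ f) x v v) {x y : E} (hxy : x ≠ y) :
    f x + fderiv ℝ f x (y - x) < f y := by
  have hd : Differentiable ℝ f := hf.differentiable (by norm_num)
  have hv : y - x ≠ 0 := sub_ne_zero.mpr hxy.symm
  have h1 := strictConvexOn_line hf hpos x (y - x) hv
  have h2 := hasDerivAt_line hd x (y - x) 0
  have h3 := h1.lt_slope_of_hasDerivAt (mem_univ 0) (mem_univ 1) zero_lt_one h2
  rw [slope_def_field] at h3
  simp only [zero_smul, add_zero, one_smul, add_sub_cancel, sub_zero, div_one] at h3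
  linarith

lemma le_of_pos {f : E → ℝ} (hf : ContDiff ℝ ∞ f)
    (hpos : ∀ x v, v ≠ 0 → 0 < fderiv ℝ (fderiv ℝ f) x v v) (x y : E) :
    f x + fderiv ℝ f x (y - x) ≤ f y := by
  rcases eq_or_ne x y with rfl | h
  · simp
  · exact (lt_of_ne hf hpos h).le

lemma convex_comb_lt {f : E → ℝ} (hf : ContDiff ℝ ∞ f)
    (hpos : ∀ x v, v ≠ 0 → 0 < fderiv ℝ (fderiv ℝ f) x v v) {x y : E} (hxy : x ≠ y)
    {a b : ℝ} (ha : 0 < a) (hb : 0 < b) (hab : a + b = 1) :
    f (a • x + b • y) < a * f x + b * f y := by
  have hv : y - x ≠ 0 := sub_ne_zero.mpr hxy.symm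
  have h1 := (strictConvexOn_line hf hpos x (y - x) hv).2 (mem_univ 0) (mem_univ 1)
    zero_ne_one ha hb hab
  simp only [smul_eq_mul, mul_zero, mul_one, zero_add, zero_smul, add_zero, one_smul,
    add_sub_cancel] at h1
  have e : x + b • (y - x) = a • x + b • y := by
    have : a = 1 - b := by linarith
    rw [this]
    module
  rw [e] at h1
  exact h1

end general

end Pool.Agent.MP_d967a3_an
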