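import Mathlib

/-!
# Smooth strictly convex bodies, ellipsoids, outer normals
-/

open scoped InnerProductSpace ContDiff

namespace Pool.Agent.MP_d967a3_an

/-- `Ω` is a compact convex body whose boundary is smooth and strictly convex: `Ω` is compact,
strictly convex (its boundary contains no segment) and has nonempty interior, and
`Ω = {f ≤ 0}` for a `C^∞` function `f` whose differential does not vanish on `{f = 0}` and
whose Hessian is positive definite on the tangent spaces of `{f = 0}` (so the second fundamental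
form of the boundary is positive definite). -/
structure IsSmoothBody {E : Type*} [NormedAddCommGroup E] [InnerProductSpace ℝ E]
    (Ω : Set E) : Prop where
  isCompact : IsCompact Ω
  strictConvex : StrictConvex ℝ Ω
  nonempty_interior : (interior Ω).Nonempty
  smooth : ∃ f : E → ℝ, ContDiff ℝ ∞ f ∧ Ω = {x | f x ≤ 0} ∧ ∀ x, f x = 0 →
    fderiv ℝ f x ≠ 0 ∧
      ∀ w : E, w ≠ 0 → fderiv ℝ f x w = 0 → 0 < fderiv ℝ (fderiv ℝ f) x w w

/-- An ellipsoid: the image of the closed unit ball under an invertible affine map. -/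
def IsEllipsoid {E : Type*} [NormedAddCommGroup E] [InnerProductSpace ℝ E] (Ω : Set E) : Prop :=
  ∃ φ : E ≃ᵃ[ℝ] E, Ω = φ '' Metric.closedBall 0 1

/-- `ν` is an outer unit normal of the convex body `Ω` at the point `x`. -/
def IsOuterNormal {E : Type*} [NormedAddCommGroup E] [InnerProductSpace ℝ E]
    (Ω : Set E) (x ν : E) : Prop :=
  ‖ν‖ = 1 ∧ ∀ y ∈ Ω, ⟪y - x, ν⟫_ℝ ≤ 0

end Pool.Agent.MP_d967a3_an
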