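import Mathlib
import Pool.Agent.Lib.MP_d967a3_an.Stmt
import Pool.Agent.Lib.MP_d967a3_an.Convexity

/-!
# Sublevel sets of smooth functions with positive definite Hessian
-/

open scoped InnerProductSpace ContDiff
open Set

namespace Pool.Agent.MP_d967a3_an

variable {E : Type*} [NormedAddCommGroup E] [InnerProductSpace ℝ E]

/-- The assumptions on the defining function. -/
structure Defining (f : E → ℝ) : Prop where
  smooth : ContDiff ℝ ∞ f
  pos : ∀ x v, v ≠ 0 → 0 < fderiv ℝ (fderiv ℝ f) x v v
  compact : IsCompact {x | f x ≤ 0}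
  neg : ∃ x, f x < 0

namespace Defining

variable {f : E → ℝ} (hf : Defining f)
include hf

lemma differentiable : Differentiable ℝ f := hf.smooth.differentiable (by norm_num)

lemma interior_of_neg {x : E} (hx : f x < 0) : x ∈ interior {x | f x ≤ 0} := by
  have h1 : {x | f x < 0} ⊆ {x | f x ≤ 0} := fun y (hy : f y < 0) => hy.le
  apply interior_mono h1
  rw [(isOpen_lt hf.smooth.continuous continuous_const).interior_eq]
  exact hx

lemma lt_add {x y : E} (hxy : x ≠ y) : f x + fderiv ℝ f x (y - x) < f y :=
  lt_of_ne hf.smooth hf.pos hxy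

lemma le_add (x y : E) : f x + fderiv ℝ f x (y - x) ≤ f y := le_of_pos hf.smooth hf.pos x y

lemma fderiv_ne {x : E} (hx : f x = 0) : fderiv ℝ f x ≠ 0 := by
  intro h
  obtain ⟨y, hy⟩ := hf.neg
  have := hf.le_add x y
  rw [h, hx] at this
  simp at this
  linarith

lemma strictConvex : StrictConvex ℝ {x | f x ≤ 0} := by
  intro x hx y hy hxy a b ha hb hab
  apply hf.interior_of_neg
  have h1 := convex_comb_lt hf.smooth hf.pos hxy ha hb hab
  have hx' : f x ≤ 0 := hx
  have hy' : f y ≤ 0 := hy
  nlinarith

lemma isSmoothBody : IsSmoothBody {x | f x ≤ 0} where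
  isCompact := hf.compact
  strictConvex := hf.strictConvex
  nonempty_interior := by
    obtain ⟨x, hx⟩ := hf.neg
    exact ⟨x, hf.interior_of_neg hx⟩
  smooth := ⟨f, hf.smooth, rfl, fun x hx => ⟨hf.fderiv_ne hx, fun w hw _ => hf.pos x w hw⟩⟩

lemma neg_of_interior {x : E} (hx : x ∈ interior {x | f x ≤ 0}) : f x < 0 := by
  have h0 : x ∈ {x | f x ≤ 0} := interior_subset hx
  have h1 : f x ≤ 0 := h0
  rcases h1.lt_or_eq with h | h
  · exact h
  · exfalso
    -- move away from a point where `f` is negative
    obtain ⟨y, hy⟩ := hf.neg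
    have hxy : x ≠ y := by
      rintro rfl
      linarith
    have h2 : ∀ᶠ t : ℝ in nhds 0, x + t • (x - y) ∈ interior {x | f x ≤ 0} := by
      have hc : Continuous fun t : ℝ => x + t • (x - y) := by fun_prop
      have := hc.tendsto 0
      simp only [zero_smul, add_zero] at this
      exact this.eventually (isOpen_interior.mem_nhds hx)
    have h3 : ∀ᶠ t : ℝ in nhdsWithin 0 (Ioi 0), x + t • (x - y) ∈ interior {x | f x ≤ 0} :=
      h2.filter_mono nhdsWithin_le_nhds
    obtain ⟨t, ht, ht0⟩ := (h3.and self_mem_nhdsWithin).exists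
    have ht0' : (0 : ℝ) < t := ht0
    have h4' : x + t • (x - y) ∈ {x | f x ≤ 0} := interior_subset ht
    have h4 : f (x + t • (x - y)) ≤ 0 := h4'
    -- `x` is between `y` and `x + t (x - y)`
    have h5 := convex_comb_lt hf.smooth hf.pos (x := y) (y := x + t • (x - y)) (by
      intro h6
      have h7 : (1 + t) • (x - y) = 0 := by
        rw [add_smul, one_smul]
        have : x - y + t • (x - y) = (x + t • (x - y)) - y := by abel
        rw [this, ← h6, sub_self]
      rcases smul_eq_zero.mp h7 with h8 | h8
      · linarith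
      · exact hxy (sub_eq_zero.mp h8)) (a := t / (1 + t)) (b := 1 / (1 + t)) (by positivity)
      (by positivity) (by field_simp; ring)
    have e : (t / (1 + t)) • y + (1 / (1 + t)) • (x + t • (x - y)) = x := by
      have h9 : (1 + t) ≠ 0 := by positivity
      have h10 : (t / (1 + t)) = 1 - 1 / (1 + t) := by field_simp; ring
      have h11 : t = (1 + t) - 1 := by ring
      have h12 : (1 / (1 + t)) • (x + t • (x - y)) = (1 / (1 + t)) • ((1 + t) • x - t • y) := by
        congr 1
        module
      rw [h12, smul_sub, smul_smul, smul_smul]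
      have h13 : 1 / (1 + t) * (1 + t) = 1 := by field_simp
      have h14 : 1 / (1 + t) * t = t / (1 + t) := by ring
      rw [h13, h14]
      module
    rw [e, h] at h5
    have h15 : t / (1 + t) * f y + 1 / (1 + t) * f (x + t • (x - y)) ≤ 0 := by
      have h16 : 0 < t / (1 + t) := by positivity
      have h17 : 0 < 1 / (1 + t) := by positivity
      nlinarith
    linarith

lemma mem_interior_iff {x : E} : x ∈ interior {x | f x ≤ 0} ↔ f x < 0 :=
  ⟨hf.neg_of_interior, hf.interior_of_neg⟩

end Defining

end Pool.Agent.MP_d967a3_an
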