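import Mathlib
import Pool.Agent.Lib.MP_d967a3_an.Stmt

/-!
# Definitions for the inner billiard

An oriented line of the Euclidean space `E` is a pair `ℓ = (v, p)` with `‖v‖ = 1` and `p ⟂ v`: the
line is `{p + t v}`, oriented by `v`. The set of these pairs is the tangent bundle of the unit
sphere.
-/

open scoped InnerProductSpace ContDiff

namespace Pool.Agent.MP_d967a3_an

/-- The phase space `L(Ω)`: the oriented lines which meet the interior of `Ω`. -/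
def phaseSpace {E : Type*} [NormedAddCommGroup E] [InnerProductSpace ℝ E] (Ω : Set E) :
    Set (E × E) :=
  {ℓ | ‖ℓ.1‖ = 1 ∧ ⟪ℓ.1, ℓ.2⟫_ℝ = 0 ∧ ∃ t : ℝ, ℓ.2 + t • ℓ.1 ∈ interior Ω}

/-- The oriented line `ℓ'` is the reflection of the oriented line `ℓ` in the boundary of `Ω`: if
`x` is the point at which `ℓ` leaves `Ω` and `ν` is the outer unit normal at `x`, then `ℓ'` is the
line through `x` with direction `v' = v - 2 ⟨v, ν⟩ ν`. -/
def IsReflection {E : Type*} [NormedAddCommGroup E] [InnerProductSpace ℝ E] (Ω : Set E)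
    (ℓ ℓ' : E × E) : Prop :=
  ∃ (t : ℝ) (x ν : E), x = ℓ.2 + t • ℓ.1 ∧ x ∈ Ω ∧ (∀ s > t, ℓ.2 + s • ℓ.1 ∉ Ω) ∧
    IsOuterNormal Ω x ν ∧ ℓ'.1 = ℓ.1 - (2 * ⟪ℓ.1, ν⟫_ℝ) • ν ∧ ℓ'.2 = x - ⟪x, ℓ'.1⟫_ℝ • ℓ'.1

/-- `T` is (on the phase space) the billiard map of `Ω`. -/
def IsBilliardMap {E : Type*} [NormedAddCommGroup E] [InnerProductSpace ℝ E] (Ω : Set E)
    (T : E × E → E × E) : Prop :=
  ∀ ℓ ∈ phaseSpace Ω, T ℓ ∈ phaseSpace Ω ∧ IsReflection Ω ℓ (T ℓ)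

/-- `S` is a nonempty smooth hypersurface, properly embedded in the phase space `L(Ω)`: it is
relatively closed, and near each of its points `ℓ = (v, p)` it is the zero set in `L(Ω)` of a
smooth function `F` whose differential does not vanish on the tangent space
`{(a, b) : ⟨v, a⟩ = 0, ⟨a, p⟩ + ⟨v, b⟩ = 0}` of `L(Ω)`. -/
structure IsLineHypersurface {E : Type*} [NormedAddCommGroup E] [InnerProductSpace ℝ E]
    (Ω : Set E) (S : Set (E × E)) : Prop where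
  nonempty : S.Nonempty
  closed : ∃ C : Set (E × E), IsClosed C ∧ S = phaseSpace Ω ∩ C
  regular : ∀ ℓ ∈ S, ∃ (U : Set (E × E)) (F : E × E → ℝ), IsOpen U ∧ ℓ ∈ U ∧ ContDiff ℝ ∞ F ∧
    (∀ m ∈ phaseSpace Ω ∩ U, (m ∈ S ↔ F m = 0)) ∧
    ∃ a b : E, ⟪ℓ.1, a⟫_ℝ = 0 ∧ ⟪a, ℓ.2⟫_ℝ + ⟪ℓ.1, b⟫_ℝ = 0 ∧ fderiv ℝ F ℓ (a, b) ≠ 0

end Pool.Agent.MP_d967a3_an
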