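import Mathlib
import Pool.Agent.Lib.MP_d967a3_an.InnerStmt
import Pool.Agent.Lib.MP_d967a3_an.Body

/-!
# The billiard map of a smooth strictly convex body
-/

open scoped InnerProductSpace ContDiff
open Set Filter

namespace Pool.Agent.MP_d967a3_an

variable {E : Type*} [NormedAddCommGroup E] [InnerProductSpace ℝ E]

lemma norm_reflect {v ν : E} (hν : ‖ν‖ = 1) : ‖v - (2 * ⟪v, ν⟫_ℝ) • ν‖ = ‖v‖ := by
  have h1 : ‖v - (2 * ⟪v, ν⟫_ℝ) • ν‖ ^ 2 = ‖v‖ ^ 2 := by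
    rw [norm_sub_sq_real, inner_smul_right, norm_smul, hν, Real.norm_eq_abs, mul_one, sq_abs]
    ring
  exact (pow_left_inj₀ (norm_nonneg _) (norm_nonneg _) two_ne_zero).mp h1

lemma inner_reflect {v ν : E} (hν : ‖ν‖ = 1) :
    ⟪v - (2 * ⟪v, ν⟫_ℝ) • ν, ν⟫_ℝ = -⟪v, ν⟫_ℝ := by
  rw [inner_sub_left, inner_smul_left, real_inner_self_eq_norm_sq, hν]
  simp
  ring

namespace Defining

variable {f : E → ℝ} (hf : Defining f)
include hf

/-- Points slightly inside. -/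
lemma exists_neg {x w : E} (hx : f x = 0) (hw : fderiv ℝ f x w < 0) :
    ∃ δ : ℝ, 0 < δ ∧ f (x + δ • w) < 0 := by
  have h1 := hasDerivAt_line hf.differentiable x w 0
  simp only [zero_smul, add_zero] at h1
  have h2 := h1.tendsto_slope_zero_right
  have h3 : ∀ᶠ t in nhdsWithin (0 : ℝ) (Ioi 0),
      t⁻¹ • (f (x + (0 + t) • w) - f (x + (0 : ℝ) • w)) < 0 := h2.eventually (gt_mem_nhds hw)
  obtain ⟨t, ht, ht0⟩ := (h3.and self_mem_nhdsWithin).exists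
  have ht0' : (0 : ℝ) < t := ht0
  refine ⟨t, ht0', ?_⟩
  simp only [zero_add, zero_smul, add_zero, hx, sub_zero, smul_eq_mul] at ht
  by_contra hcon
  push Not at hcon
  have : 0 ≤ t⁻¹ * f (x + t • w) := by positivity
  linarith

variable [CompleteSpace E]

omit hf in
lemma exists_grad (f : E → ℝ) (x : E) : ∃ N : E, ∀ w, fderiv ℝ f x w = ⟪N, w⟫_ℝ := by
  refine ⟨(InnerProductSpace.toDual ℝ E).symm (fderiv ℝ f x), fun w => ?_⟩
  rw [InnerProductSpace.toDual_symm_apply]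

lemma exists_normal {x : E} (hx : f x = 0) : ∃ ν : E, IsOuterNormal {x | f x ≤ 0} x ν ∧
    ∃ c : ℝ, 0 < c ∧ ∀ w, fderiv ℝ f x w = c * ⟪ν, w⟫_ℝ := by
  obtain ⟨N, hN⟩ := exists_grad f x
  have hN0 : N ≠ 0 := by
    rintro rfl
    apply hf.fderiv_ne hx
    ext w
    rw [hN w]
    simp
  have hn : 0 < ‖N‖ := norm_pos_iff.mpr hN0
  refine ⟨‖N‖⁻¹ • N, ⟨?_, ?_⟩, ‖N‖, hn, ?_⟩
  · rw [norm_smul, norm_inv, norm_norm, inv_mul_cancel₀ hn.ne']
  · intro y hy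
    have h1 := hf.le_add x y
    rw [hx, hN, zero_add] at h1
    have hy' : f y ≤ 0 := hy
    rw [inner_smul_right, real_inner_comm]
    have : 0 < ‖N‖⁻¹ := inv_pos.mpr hn
    nlinarith
  · intro w
    rw [inner_smul_left, hN]
    simp only [map_inv₀, conj_trivial]
    field_simp

lemma normal_unique {x ν μ : E} (hx : f x = 0) (hν : IsOuterNormal {x | f x ≤ 0} x ν)
    (hμ : IsOuterNormal {x | f x ≤ 0} x μ) : ν = μ := by
  have key : ∀ μ : E, IsOuterNormal {x | f x ≤ 0} x μ →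
      ∀ ν : E, ∀ c : ℝ, 0 < c → ‖ν‖ = 1 → (∀ w, fderiv ℝ f x w = c * ⟪ν, w⟫_ℝ) → μ = ν := by
    intro μ hμ ν c hc hν1 hν
    -- the supporting inequality
    have h1 : ∀ w, ⟪ν, w⟫_ℝ < 0 → ⟪w, μ⟫_ℝ ≤ 0 := by
      intro w hw
      obtain ⟨δ, hδ, hneg⟩ := hf.exists_neg hx (w := w) (by rw [hν]; nlinarith)
      have h2 := hμ.2 (x + δ • w) hneg.le
      rw [add_sub_cancel_left, inner_smul_left] at h2
      simp only [conj_trivial] at h2
      by_contra hcon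
      push Not at hcon
      nlinarith [mul_pos hδ hcon]
    have h2 : ∀ w, ⟪ν, w⟫_ℝ ≤ 0 → ⟪w, μ⟫_ℝ ≤ 0 := by
      intro w hw
      by_contra hcon
      push Not at hcon
      -- perturb
      set δ : ℝ := ⟪w, μ⟫_ℝ / 2 with hδ
      have hδ0 : 0 < δ := by positivity
      have h3 := h1 (w - δ • ν) (by
        rw [inner_sub_right, inner_smul_right, real_inner_self_eq_norm_sq, hν1]
        linarith)
      rw [inner_sub_left, inner_smul_left] at h3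
      simp only [conj_trivial] at h3
      have h4 : ⟪ν, μ⟫_ℝ ≤ 1 := by
        have := real_inner_le_norm ν μ
        rw [hν1, hμ.1] at this
        linarith
      nlinarith
    have h3 := h2 (μ - ⟪ν, μ⟫_ℝ • ν) (by
      rw [inner_sub_right, inner_smul_right, real_inner_self_eq_norm_sq, hν1]
      linarith)
    have h4 : ⟪μ - ⟪ν, μ⟫_ℝ • ν, μ⟫_ℝ = 1 - ⟪ν, μ⟫_ℝ ^ 2 := by
      rw [inner_sub_left, inner_smul_left, real_inner_self_eq_norm_sq, hμ.1]
      simp only [conj_trivial]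
      ring
    rw [h4] at h3
    have h5 := h2 (-ν) (by
      rw [inner_neg_right, real_inner_self_eq_norm_sq, hν1]
      norm_num)
    rw [inner_neg_left] at h5
    have h6 : ⟪ν, μ⟫_ℝ ≤ 1 := by
      have := real_inner_le_norm ν μ
      rw [hν1, hμ.1] at this
      linarith
    have h7 : ⟪ν, μ⟫_ℝ = 1 := by nlinarith
    have h8 : ‖μ - ν‖ ^ 2 = 0 := by
      rw [norm_sub_sq_real, hν1, hμ.1, real_inner_comm, h7]
      norm_num
    have h9 : ‖μ - ν‖ = 0 := by simpa using h8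
    exact sub_eq_zero.mp (norm_eq_zero.mp h9)
  obtain ⟨ν₀, hν₀, c, hc, hcν⟩ := hf.exists_normal hx
  rw [key ν hν ν₀ c hc hν₀.1 hcν, key μ hμ ν₀ c hc hν₀.1 hcν]

omit [CompleteSpace E] in
/-- The exit point. -/
lemma exists_exit {v p : E} (hv : ‖v‖ = 1) {t₀ : ℝ} (ht₀ : f (p + t₀ • v) < 0) :
    ∃ t : ℝ, f (p + t • v) = 0 ∧ (∀ s > t, 0 < f (p + s • v)) ∧
      0 < fderiv ℝ f (p + t • v) v := by
  have hcont : Continuous fun t : ℝ => f (p + t • v) := hf.smooth.continuous.comp (by fun_prop)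
  have hcomp : IsCompact {t : ℝ | f (p + t • v) ≤ 0} := by
    obtain ⟨R, hR⟩ := hf.compact.isBounded.subset_closedBall 0
    apply (isCompact_closedBall (0 : ℝ) (R + ‖p‖)).of_isClosed_subset
      (isClosed_le hcont continuous_const)
    intro t ht
    have h1 := hR (show p + t • v ∈ {x | f x ≤ 0} from ht)
    rw [mem_closedBall_zero_iff] at h1 ⊢
    have h2 : ‖t • v‖ ≤ ‖p + t • v‖ + ‖p‖ := by
      calc ‖t • v‖ = ‖(p + t • v) - p‖ := by rw [add_sub_cancel_left]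
        _ ≤ _ := norm_sub_le _ _
    rw [norm_smul, hv, mul_one] at h2
    linarith
  have hne : {t : ℝ | f (p + t • v) ≤ 0}.Nonempty := ⟨t₀, ht₀.le⟩
  set t := sSup {t : ℝ | f (p + t • v) ≤ 0} with ht
  have hmem : t ∈ {t : ℝ | f (p + t • v) ≤ 0} := hcomp.sSup_mem hne
  have hmax : ∀ s, f (p + s • v) ≤ 0 → s ≤ t := fun s hs => le_csSup hcomp.bddAbove hs
  have hmem' : f (p + t • v) ≤ 0 := hmem
  have hzero : f (p + t • v) = 0 := by
    rcases hmem'.lt_or_eq with h | h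
    · exfalso
      have h1 : ∀ᶠ s in nhds t, f (p + s • v) < 0 := (hcont.tendsto t).eventually (gt_mem_nhds h)
      have h2 : ∀ᶠ s in nhdsWithin t (Ioi t), f (p + s • v) < 0 := h1.filter_mono nhdsWithin_le_nhds
      obtain ⟨s, hs, hst⟩ := (h2.and self_mem_nhdsWithin).exists
      have := hmax s hs.le
      exact absurd hst (not_lt.mpr this)
    · exact h
  refine ⟨t, hzero, fun s hs => ?_, ?_⟩
  · by_contra hcon
    push Not at hcon
    linarith [hmax s hcon]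
  · have h1 : t₀ ≤ t := hmax t₀ ht₀.le
    have h2 : t₀ ≠ t := by
      rintro h
      rw [h] at ht₀
      linarith
    have h3 : t₀ < t := lt_of_le_of_ne h1 h2
    have h4 := hf.le_add (p + t • v) (p + t₀ • v)
    have h5 : p + t₀ • v - (p + t • v) = (t₀ - t) • v := by module
    rw [h5, map_smul, hzero, zero_add, smul_eq_mul] at h4
    nlinarith

/-- Every line of the phase space has a reflection. -/
lemma exists_reflection {ℓ : E × E} (hℓ : ℓ ∈ phaseSpace {x | f x ≤ 0}) :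
    ∃ ℓ' ∈ phaseSpace {x | f x ≤ 0}, IsReflection {x | f x ≤ 0} ℓ ℓ' := by
  obtain ⟨hv, hvp, t₀, ht₀⟩ := hℓ
  rw [hf.mem_interior_iff] at ht₀
  obtain ⟨t, ht, hs, hd⟩ := hf.exists_exit hv ht₀
  obtain ⟨ν, hν, c, hc, hcν⟩ := hf.exists_normal ht
  set x := ℓ.2 + t • ℓ.1 with hx
  set v' := ℓ.1 - (2 * ⟪ℓ.1, ν⟫_ℝ) • ν with hv'
  have hv'1 : ‖v'‖ = 1 := by rw [hv', norm_reflect hν.1, hv]
  refine ⟨(v', x - ⟪x, v'⟫_ℝ • v'), ⟨hv'1, ?_, ?_⟩, t, x, ν, rfl, ht.le, ?_, hν, rfl, rfl⟩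
  · simp only
    rw [inner_sub_right, inner_smul_right, real_inner_self_eq_norm_sq, hv'1, real_inner_comm]
    ring
  · have h1 : fderiv ℝ f x v' < 0 := by
      rw [hcν, real_inner_comm, hv', inner_reflect hν.1]
      rw [hcν, real_inner_comm] at hd
      linarith
    obtain ⟨δ, hδ, hneg⟩ := hf.exists_neg ht h1
    refine ⟨⟪x, v'⟫_ℝ + δ, ?_⟩
    rw [hf.mem_interior_iff]
    simp only
    have : x - ⟪x, v'⟫_ℝ • v' + (⟪x, v'⟫_ℝ + δ) • v' = x + δ • v' := by module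
    rw [this]
    exact hneg
  · intro s hst hcon
    have := hs s hst
    have hcon' : f (ℓ.2 + s • ℓ.1) ≤ 0 := hcon
    linarith

omit [CompleteSpace E] in
/-- At the exit point the defining function vanishes. -/
lemma exit_zero {ℓ : E × E} {t : ℝ} (h1 : ℓ.2 + t • ℓ.1 ∈ {x | f x ≤ 0})
    (h2 : ∀ s > t, ℓ.2 + s • ℓ.1 ∉ {x | f x ≤ 0}) : f (ℓ.2 + t • ℓ.1) = 0 := by
  have hcont : Continuous fun t : ℝ => f (ℓ.2 + t • ℓ.1) :=
    hf.smooth.continuous.comp (by fun_prop)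
  have h1' : f (ℓ.2 + t • ℓ.1) ≤ 0 := h1
  refine le_antisymm h1' ?_
  have h3 : Tendsto (fun s : ℝ => f (ℓ.2 + s • ℓ.1)) (nhdsWithin t (Ioi t))
      (nhds (f (ℓ.2 + t • ℓ.1))) := (hcont.tendsto t).mono_left nhdsWithin_le_nhds
  refine ge_of_tendsto h3 ?_
  filter_upwards [self_mem_nhdsWithin] with s hs
  have := h2 s hs
  rw [mem_ofPred_eq, not_le] at this
  exact this.le

lemma reflection_unique {ℓ ℓ₁ ℓ₂ : E × E} (h1 : IsReflection {x | f x ≤ 0} ℓ ℓ₁)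
    (h2 : IsReflection {x | f x ≤ 0} ℓ ℓ₂) : ℓ₁ = ℓ₂ := by
  obtain ⟨t₁, x₁, ν₁, rfl, hx₁, hs₁, hν₁, ha₁, hb₁⟩ := h1
  obtain ⟨t₂, x₂, ν₂, rfl, hx₂, hs₂, hν₂, ha₂, hb₂⟩ := h2
  have ht : t₁ = t₂ := by
    rcases lt_trichotomy t₁ t₂ with h | h | h
    · exact absurd hx₂ (hs₁ t₂ h)
    · exact h
    · exact absurd hx₁ (hs₂ t₁ h)
  subst ht
  have hν := hf.normal_unique (hf.exit_zero hx₁ hs₁) hν₁ hν₂
  subst hν
  have h3 : ℓ₁.1 = ℓ₂.1 := by rw [ha₁, ha₂]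
  have h4 : ℓ₁.2 = ℓ₂.2 := by rw [hb₁, hb₂, h3]
  exact Prod.ext h3 h4

omit hf [CompleteSpace E] in
/-- Reversing the orientation. -/
lemma reverse_mem {ℓ : E × E} (hℓ : ℓ ∈ phaseSpace {x | f x ≤ 0}) :
    (-ℓ.1, ℓ.2) ∈ phaseSpace {x | f x ≤ 0} := by
  obtain ⟨hv, hvp, t, ht⟩ := hℓ
  refine ⟨by simpa using hv, by simpa using hvp, -t, ?_⟩
  simpa using ht

lemma reverse_reflection {ℓ m : E × E} (hℓ : ℓ ∈ phaseSpace {x | f x ≤ 0})
    (h : IsReflection {x | f x ≤ 0} (-ℓ.1, ℓ.2) m) :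
    IsReflection {x | f x ≤ 0} (-m.1, m.2) ℓ := by
  obtain ⟨hv, hvp, t₀, ht₀⟩ := hℓ
  rw [hf.mem_interior_iff] at ht₀
  obtain ⟨t, x, ν, hx, hx₁, hs, hν, ha, hb⟩ := h
  simp only at hx hs ha
  -- the direction of `ℓ` at the exit point of the reversed line
  have hxz : f x = 0 := by
    rw [hx]
    exact hf.exit_zero (ℓ := (-ℓ.1, ℓ.2)) (by rw [← hx]; exact hx₁) hs
  have h1 : ⟪ℓ.1, ν⟫_ℝ < 0 := by
    obtain ⟨ν₀, hν₀, c, hc, hcν⟩ := hf.exists_normal hxz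
    have hνν : ν = ν₀ := hf.normal_unique hxz hν hν₀
    have h2 := hf.le_add x (ℓ.2 + t₀ • ℓ.1)
    have h3 : ℓ.2 + t₀ • ℓ.1 - x = (t₀ + t) • ℓ.1 := by
      rw [hx]
      module
    rw [h3, hxz, zero_add, hcν, inner_smul_right, ← hνν] at h2
    have h4 : 0 < t₀ + t := by
      by_contra hcon
      push Not at hcon
      rcases hcon.lt_or_eq with h5 | h5
      · have h6 := hs (-t₀) (by linarith)
        apply h6
        have h7 : ℓ.2 + (-t₀) • (-ℓ.1) = ℓ.2 + t₀ • ℓ.1 := by module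
        rw [mem_ofPred_eq, h7]
        exact ht₀.le
      · have h6 : ℓ.2 + t₀ • ℓ.1 = x := by
          rw [hx]
          have : t₀ = -t := by linarith
          rw [this]
          module
        rw [h6, hxz] at ht₀
        exact lt_irrefl _ ht₀
    rw [real_inner_comm] at h2
    by_contra hcon
    push Not at hcon
    have : 0 ≤ c * ((t₀ + t) * ⟪ℓ.1, ν⟫_ℝ) := by positivity
    linarith
  have hmν : ⟪m.1, ν⟫_ℝ = ⟪ℓ.1, ν⟫_ℝ := by
    rw [ha, inner_reflect hν.1, inner_neg_left, neg_neg]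
  have hm1 : ‖m.1‖ = 1 := by rw [ha, norm_reflect hν.1, norm_neg, hv]
  have hx' : x = m.2 + (-⟪x, m.1⟫_ℝ) • (-m.1) := by
    rw [hb]
    module
  refine ⟨-⟪x, m.1⟫_ℝ, x, ν, hx', hx₁, ?_, hν, ?_, ?_⟩
  · intro s hs' hcon
    have h2 := hν.2 _ hcon
    simp only at h2
    have h3 : m.2 + s • -m.1 - x = (-(s + ⟪x, m.1⟫_ℝ)) • m.1 := by
      rw [hb]
      module
    rw [h3, inner_smul_left, hmν] at h2
    simp only [conj_trivial] at h2
    nlinarith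
  · simp only
    rw [inner_neg_left, hmν, ha, inner_neg_left]
    module
  · have h2 : ⟪x, ℓ.1⟫_ℝ = -t := by
      rw [hx, inner_add_left, real_inner_comm, hvp, inner_smul_left, inner_neg_left,
        real_inner_self_eq_norm_sq, hv]
      simp
    rw [h2, hx]
    module

/-- An even function of lines whose zero set is preserved by reflections. -/
theorem exists_billiardMap (Φ : E × E → ℝ) (hrev : ∀ ℓ : E × E, Φ (-ℓ.1, ℓ.2) = Φ ℓ)
    (hinv : ∀ ℓ ∈ phaseSpace {x | f x ≤ 0}, ∀ ℓ' ∈ phaseSpace {x | f x ≤ 0},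
      IsReflection {x | f x ≤ 0} ℓ ℓ' → Φ ℓ = 0 → Φ ℓ' = 0) :
    ∃ T : E × E → E × E, IsBilliardMap {x | f x ≤ 0} T ∧
      T '' (phaseSpace {x | f x ≤ 0} ∩ {ℓ | Φ ℓ = 0}) =
        phaseSpace {x | f x ≤ 0} ∩ {ℓ | Φ ℓ = 0} := by
  classical
  let T : E × E → E × E := fun ℓ =>
    if h : ℓ ∈ phaseSpace {x | f x ≤ 0} then Classical.choose (hf.exists_reflection h) else ℓ
  have hT : IsBilliardMap {x | f x ≤ 0} T := by
    intro ℓ hℓ
    have h1 := Classical.choose_spec (hf.exists_reflection hℓ)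
    have h2 : T ℓ = Classical.choose (hf.exists_reflection hℓ) := dif_pos hℓ
    rw [h2]
    exact h1
  refine ⟨T, hT, ?_⟩
  apply Subset.antisymm
  · rintro _ ⟨ℓ, ⟨hℓ, hΦ⟩, rfl⟩
    obtain ⟨h1, h2⟩ := hT ℓ hℓ
    exact ⟨h1, hinv ℓ hℓ (T ℓ) h1 h2 hΦ⟩
  · rintro ℓ ⟨hℓ, hΦ⟩
    have hr := reverse_mem hℓ
    obtain ⟨m, hm, href⟩ := hf.exists_reflection hr
    have h1 := hf.reverse_reflection hℓ href
    have h2 := reverse_mem hm
    have h3 : Φ m = 0 := hinv _ hr m hm href (by rw [hrev]; exact hΦ)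
    refine ⟨(-m.1, m.2), ⟨h2, ?_⟩, ?_⟩
    · change Φ (-m.1, m.2) = 0
      rw [hrev]
      exact h3
    · exact hf.reflection_unique (hT _ h2).2 h1

end Defining

end Pool.Agent.MP_d967a3_an
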