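import Mathlib
import Pool.Agent.Lib.MP_d967a3_an.Body

/-!
# Diagonal quadratic forms
-/

open scoped InnerProductSpace ContDiff
open Set Filter

namespace Pool.Agent.MP_d967a3_an

variable {κ : Type*} [Fintype κ]

/-- The diagonal operator with diagonal entries `w`. -/
noncomputable def diag (w : κ → ℝ) : EuclideanSpace ℝ κ →L[ℝ] EuclideanSpace ℝ κ :=
  LinearMap.toContinuousLinearMap
    { toFun := fun x => WithLp.toLp 2 fun i => w i * x i
      map_add' := fun x y => by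
        ext i
        simp [mul_add]
      map_smul' := fun c x => by
        ext i
        simp
        ring }

@[simp] lemma diag_apply (w : κ → ℝ) (x : EuclideanSpace ℝ κ) (i : κ) :
    diag w x i = w i * x i := rfl

lemma inner_diag (w : κ → ℝ) (x y : EuclideanSpace ℝ κ) :
    ⟪diag w x, y⟫_ℝ = ∑ i, w i * x i * y i := by
  rw [PiLp.inner_apply]
  refine Finset.sum_congr rfl fun i _ => ?_
  simp
  ring

lemma diag_symm (w : κ → ℝ) (x y : EuclideanSpace ℝ κ) :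
    ⟪diag w x, y⟫_ℝ = ⟪diag w y, x⟫_ℝ := by
  rw [inner_diag, inner_diag]
  exact Finset.sum_congr rfl fun i _ => by ring

lemma inner_diag_self (w : κ → ℝ) (x : EuclideanSpace ℝ κ) :
    ⟪diag w x, x⟫_ℝ = ∑ i, w i * x i ^ 2 := by
  rw [inner_diag]
  exact Finset.sum_congr rfl fun i _ => by ring

/-- The quadratic form. -/
noncomputable def Q (w : κ → ℝ) (x : EuclideanSpace ℝ κ) : ℝ := ⟪diag w x, x⟫_ℝ

lemma Q_eq (w : κ → ℝ) (x : EuclideanSpace ℝ κ) : Q w x = ∑ i, w i * x i ^ 2 :=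
  inner_diag_self w x

lemma Q_smul (w : κ → ℝ) (c : ℝ) (x : EuclideanSpace ℝ κ) : Q w (c • x) = c ^ 2 * Q w x := by
  rw [Q_eq, Q_eq, Finset.mul_sum]
  refine Finset.sum_congr rfl fun i _ => ?_
  simp
  ring

lemma Q_add (w : κ → ℝ) (x y : EuclideanSpace ℝ κ) :
    Q w (x + y) = Q w x + 2 * ⟪diag w x, y⟫_ℝ + Q w y := by
  rw [Q, Q, Q, map_add, inner_add_left, inner_add_right, inner_add_right, diag_symm w y x]
  ring

lemma contDiff_Q (w : κ → ℝ) : ContDiff ℝ ∞ (Q w) := by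
  unfold Q
  exact (diag w).contDiff.inner ℝ contDiff_id

/-- The derivative of the quadratic form, as a linear map. -/
noncomputable def dQ (w : κ → ℝ) : EuclideanSpace ℝ κ →L[ℝ] (EuclideanSpace ℝ κ →L[ℝ] ℝ) :=
  (2 : ℝ) • (innerSL ℝ).comp (diag w)

lemma dQ_apply (w : κ → ℝ) (x v : EuclideanSpace ℝ κ) : dQ w x v = 2 * ⟪diag w x, v⟫_ℝ := rfl

lemma hasFDerivAt_Q (w : κ → ℝ) (x : EuclideanSpace ℝ κ) : HasFDerivAt (Q w) (dQ w x) x := by
  have h1 := ((diag w).hasFDerivAt (x := x)).inner ℝ (hasFDerivAt_id x)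
  refine h1.congr_fderiv ?_
  apply ContinuousLinearMap.ext
  intro v
  have h2 : ((fderivInnerCLM ℝ (diag w x, id x)).comp ((diag w).prod
      (ContinuousLinearMap.id ℝ (EuclideanSpace ℝ κ)))) v =
      ⟪diag w x, v⟫_ℝ + ⟪diag w v, x⟫_ℝ := rfl
  rw [h2, dQ_apply, diag_symm w v x]
  ring

lemma fderiv_Q (w : κ → ℝ) : fderiv ℝ (Q w) = dQ w := funext fun x => (hasFDerivAt_Q w x).fderiv

lemma fderiv_fderiv_Q (w : κ → ℝ) (x : EuclideanSpace ℝ κ) :
    fderiv ℝ (fderiv ℝ (Q w)) x = dQ w := by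
  rw [fderiv_Q]
  exact (dQ w).fderiv

lemma Q_nonneg {w : κ → ℝ} (hw : ∀ i, 0 ≤ w i) (x : EuclideanSpace ℝ κ) : 0 ≤ Q w x := by
  rw [Q_eq]
  exact Finset.sum_nonneg fun i _ => mul_nonneg (hw i) (sq_nonneg _)

lemma norm_sq_eq (x : EuclideanSpace ℝ κ) : ‖x‖ ^ 2 = ∑ i, x i ^ 2 := by
  rw [EuclideanSpace.norm_sq_eq]
  exact Finset.sum_congr rfl fun i _ => by rw [Real.norm_eq_abs, sq_abs]

lemma le_Q {w : κ → ℝ} {m : ℝ} (hw : ∀ i, m ≤ w i) (x : EuclideanSpace ℝ κ) :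
    m * ‖x‖ ^ 2 ≤ Q w x := by
  rw [Q_eq, norm_sq_eq, Finset.mul_sum]
  exact Finset.sum_le_sum fun i _ => mul_le_mul_of_nonneg_right (hw i) (sq_nonneg _)

lemma abs_apply_le (x : EuclideanSpace ℝ κ) (i : κ) : |x i| ≤ ‖x‖ := by
  have := EuclideanSpace.norm_sq_eq x
  have h1 : |x i| ^ 2 ≤ ‖x‖ ^ 2 := by
    rw [norm_sq_eq, sq_abs]
    exact Finset.single_le_sum (f := fun i => x i ^ 2) (fun i _ => sq_nonneg _)
      (Finset.mem_univ i)
  exact (pow_le_pow_iff_left₀ (abs_nonneg _) (norm_nonneg _) two_ne_zero).mp h1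

end Pool.Agent.MP_d967a3_an
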