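import Mathlib
import Pool.Agent.Lib.MP_d967a3_an.Quad

/-!
# Dented ellipsoids
-/

open scoped InnerProductSpace ContDiff Topology
open Set Filter

namespace Pool.Agent.MP_d967a3_an

variable {κ : Type*} [Fintype κ]

/-- The data of a dented ellipsoid: `f` defines the ellipsoid `{Q w ≤ 1}` outside the ball of
centre `q` and radius `ρ`, and a smaller set inside that ball. -/
structure IsDent (w : κ → ℝ) (q : EuclideanSpace ℝ κ) (ρ : ℝ) (f : EuclideanSpace ℝ κ → ℝ) :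
    Prop where
  defining : Defining f
  eq_outside : ∀ x, x ∉ Metric.ball q ρ → f x = Q w x - 1
  lt_inside : ∀ x ∈ Metric.ball q ρ, Q w x - 1 < f x

lemma IsDent.le {w : κ → ℝ} {q : EuclideanSpace ℝ κ} {ρ : ℝ} {f : EuclideanSpace ℝ κ → ℝ}
    (h : IsDent w q ρ f) (x : EuclideanSpace ℝ κ) : Q w x - 1 ≤ f x := by
  by_cases hx : x ∈ Metric.ball q ρ
  · exact (h.lt_inside x hx).le
  · exact (h.eq_outside x hx).ge

lemma IsDent.fderiv_eq {w : κ → ℝ} {q : EuclideanSpace ℝ κ} {ρ : ℝ} {f : EuclideanSpace ℝ κ → ℝ}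
    (h : IsDent w q ρ f) {x : EuclideanSpace ℝ κ} (hx : x ∉ Metric.closedBall q ρ) :
    fderiv ℝ f x = dQ w x := by
  have h1 : f =ᶠ[𝓝 x] fun y => Q w y - 1 := by
    filter_upwards [Metric.isClosed_closedBall.isOpen_compl.mem_nhds hx] with y hy
    exact h.eq_outside y fun hy' => hy (Metric.ball_subset_closedBall hy')
  rw [h1.fderiv_eq, fderiv_sub_const, fderiv_Q]

section abstract

variable {E : Type*} [NormedAddCommGroup E] [NormedSpace ℝ E]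

lemma hessian_continuous {χ : E → ℝ} (hχ : ContDiff ℝ ∞ χ) : Continuous (fderiv ℝ (fderiv ℝ χ)) :=
    ((hχ.fderiv_right (m := ∞) (by norm_num)).fderiv_right (m := ∞) (by norm_num)).continuous

lemma hessian_zero {χ : E → ℝ} {x : E} (hx : x ∉ tsupport χ) : fderiv ℝ (fderiv ℝ χ) x = 0 := by
  have h0 : χ =ᶠ[𝓝 x] fun _ => 0 := by
    filter_upwards [(isClosed_tsupport χ).isOpen_compl.mem_nhds hx] with y hy
    exact image_eq_zero_of_notMem_tsupport hy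
  have h1 : fderiv ℝ χ =ᶠ[𝓝 x] fderiv ℝ (fun _ : E => (0 : ℝ)) := h0.fderiv
  have h2 : fderiv ℝ (fun _ : E => (0 : ℝ)) = fun _ => 0 := by
    funext y
    exact fderiv_const_apply 0
  rw [h2] at h1
  rw [h1.fderiv_eq]
  exact fderiv_const_apply _

lemma hessian_bounded {χ : E → ℝ} (hχ : ContDiff ℝ ∞ χ) (hc : HasCompactSupport χ) :
    ∃ M, 0 ≤ M ∧ ∀ x, ‖fderiv ℝ (fderiv ℝ χ) x‖ ≤ M := by
  have h1 : Continuous fun x => ‖fderiv ℝ (fderiv ℝ χ) x‖ :=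
    (continuous_norm (E := E →L[ℝ] E →L[ℝ] ℝ)).comp (hessian_continuous hχ)
  obtain ⟨M, hM⟩ := (IsCompact.bddAbove_image hc h1.continuousOn)
  refine ⟨max M 0, le_max_right _ _, fun x => ?_⟩
  by_cases hx : x ∈ tsupport χ
  · exact (hM ⟨x, hx, rfl⟩).trans (le_max_left _ _)
  · rw [hessian_zero hx]
    exact (ContinuousLinearMap.opNorm_zero.le).trans (le_max_right _ _)

lemma abs_apply_apply_le (L : E →L[ℝ] E →L[ℝ] ℝ) {M : ℝ} (h : ‖L‖ ≤ M) (v : E) : |L v v| ≤ M * ‖v‖ ^ 2 := by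
  have h1 := L.le_opNorm₂ v v
  rw [Real.norm_eq_abs] at h1
  calc |L v v| ≤ ‖L‖ * ‖v‖ * ‖v‖ := h1
    _ = ‖L‖ * ‖v‖ ^ 2 := by ring
    _ ≤ M * ‖v‖ ^ 2 := by gcongr

lemma exists_hessian_bound {χ : E → ℝ} (hχ : ContDiff ℝ ∞ χ) (hc : HasCompactSupport χ) :
    ∃ M, 0 ≤ M ∧ ∀ x v, |fderiv ℝ (fderiv ℝ χ) x v v| ≤ M * ‖v‖ ^ 2 := by
  obtain ⟨M, hM0, hM⟩ := hessian_bounded hχ hc
  exact ⟨M, hM0, fun x v => abs_apply_apply_le _ (hM x) v⟩

lemma hessian_add {P χ : E → ℝ} (hP : ContDiff ℝ ∞ P) (hχ : ContDiff ℝ ∞ χ) (ε c : ℝ) (x v : E) :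
    fderiv ℝ (fderiv ℝ (fun x => P x + ε * χ x - c)) x v v =
      fderiv ℝ (fderiv ℝ P) x v v + ε * fderiv ℝ (fderiv ℝ χ) x v v := by
  have hfd : fderiv ℝ (fun x => P x + ε * χ x - c) =
      fun x => fderiv ℝ P x + ε • fderiv ℝ χ x := by
    funext x
    exact (((hP.differentiable (by norm_num) x).hasFDerivAt.add
        ((hχ.differentiable (by norm_num) x).hasFDerivAt.const_mul ε)).sub_const c).fderiv
  have hd : ∀ {χ : E → ℝ}, ContDiff ℝ ∞ χ → DifferentiableAt ℝ (fderiv ℝ χ) x := fun hχ =>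
    (hχ.fderiv_right (m := ∞) (by norm_num)).differentiable (by norm_num) x
  have h1 : HasFDerivAt (fun x => fderiv ℝ P x + ε • fderiv ℝ χ x)
      (fderiv ℝ (fderiv ℝ P) x + ε • fderiv ℝ (fderiv ℝ χ) x) x :=
    (hd hP).hasFDerivAt.add ((hd hχ).hasFDerivAt.const_smul ε)
  rw [hfd, h1.fderiv]
  rfl

end abstract

lemma hessian_Q (w : κ → ℝ) (x v : EuclideanSpace ℝ κ) :
    fderiv ℝ (fderiv ℝ (Q w)) x v v = 2 * Q w v := by
  rw [fderiv_fderiv_Q, dQ_apply]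
  rfl

lemma hessian_dent {w : κ → ℝ} {m : ℝ} (hw : ∀ i, m ≤ w i) {χ : EuclideanSpace ℝ κ → ℝ}
    (hχ : ContDiff ℝ ∞ χ) {M ε : ℝ} (hM : ∀ x v, |fderiv ℝ (fderiv ℝ χ) x v v| ≤ M * ‖v‖ ^ 2)
    (hε0 : 0 ≤ ε) (hεM : ε * M < m) (hm : 0 < m) (x v : EuclideanSpace ℝ κ) (hv : v ≠ 0) :
    0 < fderiv ℝ (fderiv ℝ (fun x => Q w x + ε * χ x - 1)) x v v := by
  rw [hessian_add (contDiff_Q w) hχ, hessian_Q]
  have h2 : m * ‖v‖ ^ 2 ≤ Q w v := le_Q hw v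
  have h4 := abs_le.mp (hM x v)
  have h5 : 0 < ‖v‖ ^ 2 := by
    have := norm_pos_iff.mpr hv
    positivity
  have h6 : ε * (-(M * ‖v‖ ^ 2)) ≤ ε * fderiv ℝ (fderiv ℝ χ) x v v :=
    mul_le_mul_of_nonneg_left h4.1 hε0
  nlinarith

/-- Small dents exist. -/
theorem exists_dent {w : κ → ℝ} {m : ℝ} (hm : 0 < m) (hw : ∀ i, m ≤ w i)
    (q : EuclideanSpace ℝ κ) {ρ : ℝ} (hρ : 0 < ρ) (h0 : (0 : EuclideanSpace ℝ κ) ∉ Metric.ball q ρ) :
    ∃ f, IsDent w q ρ f := by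
  obtain ⟨χ, hχ, hχc, hout, hin, hnn⟩ : ∃ χ : EuclideanSpace ℝ κ → ℝ, ContDiff ℝ ∞ χ ∧
      HasCompactSupport χ ∧ (∀ x, x ∉ Metric.ball q ρ → χ x = 0) ∧
      (∀ x ∈ Metric.ball q ρ, 0 < χ x) ∧ ∀ x, 0 ≤ χ x := by
    let χ : ContDiffBump q := ⟨ρ / 2, ρ, by positivity, by linarith⟩
    refine ⟨χ, χ.contDiff, χ.hasCompactSupport, ?_, fun x hx => χ.pos_of_mem_ball hx,
      fun x => χ.nonneg⟩
    intro x hx
    have : Function.support χ = Metric.ball q ρ := χ.support_eq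
    by_contra hcon
    exact hx (this ▸ hcon)
  obtain ⟨M, hM0, hM⟩ := exists_hessian_bound hχ hχc
  set ε : ℝ := m / (M + 1) with hε
  have hε0 : 0 < ε := by positivity
  have hεM : ε * M < m := by
    rw [hε, div_mul_eq_mul_div, div_lt_iff₀ (by positivity)]
    nlinarith
  have hf : ContDiff ℝ ∞ (fun x => Q w x + ε * χ x - 1) :=
    ((contDiff_Q w).add (contDiff_const.mul hχ)).sub contDiff_const
  refine ⟨fun x => Q w x + ε * χ x - 1, ⟨hf, hessian_dent hw hχ hM hε0.le hεM hm, ?_, 0, ?_⟩,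
    ?_, ?_⟩
  · apply (isCompact_closedBall (0 : EuclideanSpace ℝ κ) (m⁻¹ + 1)).of_isClosed_subset
      (isClosed_le hf.continuous continuous_const)
    intro x hx
    rw [mem_closedBall_zero_iff]
    have hx' : Q w x + ε * χ x - 1 ≤ 0 := hx
    have h1 : m * ‖x‖ ^ 2 ≤ 1 := by
      have := le_Q hw x
      have := mul_nonneg hε0.le (hnn x)
      linarith
    have h2 : ‖x‖ ^ 2 ≤ m⁻¹ := by
      rw [← one_div, le_div_iff₀ hm]
      linarith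
    by_contra hcon
    push Not at hcon
    have h3 : 0 < m⁻¹ := inv_pos.mpr hm
    nlinarith [norm_nonneg x]
  · rw [hout 0 h0, Q_eq]
    simp
  · intro x hx
    rw [hout x hx]
    ring
  · intro x hx
    have h2 := mul_pos hε0 (hin x hx)
    linarith

end Pool.Agent.MP_d967a3_an
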