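import Mathlib
import Pool.Agent.Lib.MP_d967a3_an.Dent

/-!
# A dented ellipsoid without symmetries
-/

open scoped InnerProductSpace ContDiff Topology
open Set Filter

namespace Pool.Agent.MP_d967a3_an

variable {κ : Type*} [Fintype κ] [DecidableEq κ]

/-- The vertex of the ellipsoid `{Q w ≤ 1}` on the axis `i₀`. -/
noncomputable def vertex (w : κ → ℝ) (i₀ : κ) : EuclideanSpace ℝ κ :=
  EuclideanSpace.single i₀ (Real.sqrt (w i₀))⁻¹

omit [Fintype κ] in
lemma vertex_apply_self (w : κ → ℝ) (i₀ : κ) : vertex w i₀ i₀ = (Real.sqrt (w i₀))⁻¹ := by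
  simp [vertex]

omit [Fintype κ] in
lemma vertex_apply_ne (w : κ → ℝ) {i₀ i : κ} (h : i ≠ i₀) : vertex w i₀ i = 0 := by
  simp [vertex, h]

lemma Q_single (w : κ → ℝ) (i : κ) (c : ℝ) :
    Q w (EuclideanSpace.single i c) = w i * c ^ 2 := by
  rw [Q_eq, Finset.sum_eq_single i]
  · simp
  · intro j _ hj
    simp [hj]
  · simp

lemma Q_vertex {w : κ → ℝ} {i₀ : κ} (h : 0 < w i₀) : Q w (vertex w i₀) = 1 := by
  rw [vertex, Q_single, inv_pow, Real.sq_sqrt h.le, mul_inv_cancel₀ h.ne']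

lemma norm_vertex_sq {w : κ → ℝ} {i₀ : κ} (h : 0 < w i₀) : ‖vertex w i₀‖ ^ 2 = (w i₀)⁻¹ := by
  rw [vertex, PiLp.norm_single, Real.norm_eq_abs, sq_abs, inv_pow, Real.sq_sqrt h.le]

/-- Existence of a good centre for the dent, near the vertex. -/
theorem exists_center {w : κ → ℝ} (hw : ∀ i, 0 < w i) (i₀ : κ) {G : Set (EuclideanSpace ℝ κ)}
    (hG : IsOpen G) (hv : vertex w i₀ ∈ G) :
    ∃ (q : EuclideanSpace ℝ κ) (ρ : ℝ), 0 < ρ ∧ Q w q = 1 ∧ (∀ i, ρ ≤ q i) ∧
      Metric.closedBall q ρ ⊆ G := by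
  let u : EuclideanSpace ℝ κ := WithLp.toLp 2 fun _ => 1
  let y : ℝ → EuclideanSpace ℝ κ := fun δ => vertex w i₀ + δ • u
  let q : ℝ → EuclideanSpace ℝ κ := fun δ => (Real.sqrt (Q w (y δ)))⁻¹ • y δ
  have hy : Continuous y := by fun_prop
  have hQy : Continuous fun δ => Q w (y δ) := (contDiff_Q w).continuous.comp hy
  have hy0 : y 0 = vertex w i₀ := by simp [y]
  have hQ0 : Q w (y 0) = 1 := by rw [hy0, Q_vertex (hw i₀)]
  have hq0 : q 0 = vertex w i₀ := by
    simp only [q]
    rw [hQ0, hy0]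
    simp
  have hqc : ContinuousAt q 0 := by
    have h1 : ContinuousAt (fun δ => (Real.sqrt (Q w (y δ)))⁻¹) 0 := by
      apply ContinuousAt.inv₀ (hQy.sqrt.continuousAt)
      rw [hQ0]
      simp
    exact h1.smul hy.continuousAt
  have h1 : ∀ᶠ δ in 𝓝 (0 : ℝ), q δ ∈ G := by
    have : Tendsto q (𝓝 0) (𝓝 (vertex w i₀)) := by
      rw [← hq0]
      exact hqc
    exact this.eventually (hG.mem_nhds hv)
  have h2 : ∀ᶠ δ in 𝓝 (0 : ℝ), 0 < Q w (y δ) :=
    (hQy.tendsto 0).eventually (lt_mem_nhds (by rw [hQ0]; exact one_pos))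
  have h3 : ∀ᶠ δ in 𝓝[>] (0 : ℝ), q δ ∈ G ∧ 0 < Q w (y δ) :=
    (h1.and h2).filter_mono nhdsWithin_le_nhds
  obtain ⟨δ, ⟨hδG, hδQ⟩, hδ⟩ := (h3.and self_mem_nhdsWithin).exists
  have hδ0 : (0 : ℝ) < δ := hδ
  obtain ⟨r, hr, hrG⟩ := Metric.isOpen_iff.mp hG (q δ) hδG
  have hs : 0 < (Real.sqrt (Q w (y δ)))⁻¹ := inv_pos.mpr (Real.sqrt_pos.mpr hδQ)
  have hqi : ∀ i, (Real.sqrt (Q w (y δ)))⁻¹ * δ ≤ q δ i := by
    intro i
    have e : q δ i = (Real.sqrt (Q w (y δ)))⁻¹ * (vertex w i₀ i + δ) := by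
      simp [q, y, u]
      ring
    rw [e]
    apply mul_le_mul_of_nonneg_left _ hs.le
    have : 0 ≤ vertex w i₀ i := by
      by_cases hi : i = i₀
      · subst hi
        rw [vertex_apply_self]
        positivity
      · rw [vertex_apply_ne w hi]
    linarith
  refine ⟨q δ, min ((Real.sqrt (Q w (y δ)))⁻¹ * δ) (r / 2), ?_, ?_, ?_, ?_⟩
  · exact lt_min (mul_pos hs hδ0) (by positivity)
  · change Q w ((Real.sqrt (Q w (y δ)))⁻¹ • y δ) = 1
    rw [Q_smul, inv_pow, Real.sq_sqrt hδQ.le, inv_mul_cancel₀ hδQ.ne']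
  · exact fun i => (min_le_left _ _).trans (hqi i)
  · refine Subset.trans ?_ hrG
    apply Metric.closedBall_subset_ball
    exact (min_le_right _ _).trans_lt (by linarith)

omit [DecidableEq κ] in
/-- A point with a vanishing coordinate is not in the dent. -/
lemma notMem_ball_of_zero {q x : EuclideanSpace ℝ κ} {ρ : ℝ} (hq : ∀ i, ρ ≤ q i) {i : κ}
    (hx : x i = 0) : x ∉ Metric.ball q ρ := by
  intro h
  rw [mem_ball_iff_norm] at h
  have h1 := abs_apply_le (x - q) i
  have h2 : (x - q) i = - q i := by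
    rw [PiLp.sub_apply, hx, zero_sub]
  rw [h2, abs_neg] at h1
  have h3 := le_abs_self (q i)
  have h4 := hq i
  linarith

lemma eq_of_scaling {A B : ℝ} (hA : 0 ≤ A) (hB : 0 ≤ B)
    (h : ∀ s : ℝ, s ^ 2 * A ≤ 1 ↔ s ^ 2 * B ≤ 1) : A = B := by
  have key : ∀ A B : ℝ, 0 ≤ A → 0 ≤ B → (∀ s : ℝ, s ^ 2 * A ≤ 1 → s ^ 2 * B ≤ 1) → B ≤ A := by
    intro A B hA hB h
    by_contra hcon
    push Not at hcon
    have h1 := h (Real.sqrt (2 / (A + B)))
    have hAB : 0 < A + B := by linarith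
    rw [Real.sq_sqrt (by positivity), div_mul_eq_mul_div, div_mul_eq_mul_div,
      div_le_one hAB, div_le_one hAB] at h1
    have := h1 (by linarith)
    linarith
  exact le_antisymm (key B A hB hA fun s hs => (h s).mpr hs) (key A B hA hB fun s hs => (h s).mp hs)

/-- A suitably dented ellipsoid has no nontrivial isometry. -/
theorem isometry_trivial [Nontrivial κ] {w : κ → ℝ} (hw : ∀ i, 0 < w i) (i₀ : κ)
    (hmax : ∀ i, i ≠ i₀ → w i₀ < w i) (hinj : Function.Injective w) {q : EuclideanSpace ℝ κ}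
    {ρ : ℝ} {f : EuclideanSpace ℝ κ → ℝ} (hd : IsDent w q ρ f) (hρ : 0 < ρ) (hq : ∀ i, ρ ≤ q i)
    (hQq : Q w q = 1) (g : EuclideanSpace ℝ κ ≃ᵃⁱ[ℝ] EuclideanSpace ℝ κ)
    (hg : g '' {x | f x ≤ 0} = {x | f x ≤ 0}) (x : EuclideanSpace ℝ κ) : g x = x := by
  have hmem : ∀ x, f (g x) ≤ 0 ↔ f x ≤ 0 := by
    intro x
    have h1 : g x ∈ g '' {x | f x ≤ 0} ↔ x ∈ {x | f x ≤ 0} := g.injective.mem_set_image
    rw [hg] at h1
    exact h1
  have hQneg : ∀ x, Q w (-x) = Q w x := fun x => by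
    rw [← neg_one_smul ℝ x, Q_smul]
    norm_num
  obtain ⟨i₁, hi₁⟩ := exists_ne i₀
  set V := vertex w i₀ with hV
  have hfV : f V = 0 := by
    rw [hd.eq_outside V (notMem_ball_of_zero hq (vertex_apply_ne w hi₁)), Q_vertex (hw i₀),
      sub_self]
  have hfV' : f (-V) = 0 := by
    rw [hd.eq_outside (-V) (notMem_ball_of_zero hq (i := i₁) (by
      rw [PiLp.neg_apply, vertex_apply_ne w hi₁, neg_zero])), hQneg, Q_vertex (hw i₀), sub_self]
  have hbound : ∀ x, f x ≤ 0 → w i₀ * ‖x‖ ^ 2 ≤ 1 := by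
    intro x hx
    have h1 := hd.le x
    have h2 : w i₀ * ‖x‖ ^ 2 ≤ Q w x := le_Q (fun i => by
      by_cases hi : i = i₀
      · rw [hi]
      · exact (hmax i hi).le) x
    linarith
  have hVn : w i₀ * ‖V‖ ^ 2 = 1 := by
    rw [norm_vertex_sq (hw i₀), mul_inv_cancel₀ (hw i₀).ne']
  -- the linear part
  set L := g.linearIsometryEquiv with hL
  have hgL : ∀ x, g x = L x + g 0 := by
    intro x
    have := g.map_vadd 0 x
    simpa using this
  have hg0 : g 0 = 0 := by
    have h1 := hbound _ ((hmem V).mpr hfV.le)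
    have h2 := hbound _ ((hmem (-V)).mpr hfV'.le)
    have h3 : ‖g V - g (-V)‖ = 2 * ‖V‖ := by
      rw [← dist_eq_norm, g.dist_map, dist_eq_norm, sub_neg_eq_add, ← two_smul ℝ V, norm_smul]
      norm_num
    have h4 := parallelogram_law_with_norm ℝ (g V) (g (-V))
    rw [h3] at h4
    have h5 : ‖g V + g (-V)‖ ^ 2 ≤ 0 := by
      have h6 : w i₀ * ‖g V + g (-V)‖ ^ 2 ≤ 0 := by
        have h7 : w i₀ * ‖g V + g (-V)‖ ^ 2 = 2 * (w i₀ * ‖g V‖ ^ 2 + w i₀ * ‖g (-V)‖ ^ 2) -
            4 * (w i₀ * ‖V‖ ^ 2) := by linear_combination (w i₀) * h4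
        rw [h7, hVn]
        linarith
      have := hw i₀
      by_contra hcon
      push Not at hcon
      nlinarith [mul_pos this hcon]
    have h6 : g V + g (-V) = 0 := by
      have : ‖g V + g (-V)‖ = 0 := by
        have := sq_nonneg ‖g V + g (-V)‖
        have h7 : ‖g V + g (-V)‖ ^ 2 = 0 := le_antisymm h5 this
        simpa using h7
      exact norm_eq_zero.mp this
    rw [hgL V, hgL (-V), map_neg] at h6
    have h7 : (2 : ℝ) • g 0 = 0 := by
      calc (2 : ℝ) • g 0 = L V + g 0 + (-L V + g 0) := by module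
        _ = 0 := h6
    rcases smul_eq_zero.mp h7 with h8 | h8
    · norm_num at h8
    · exact h8
  have hgL' : ∀ x, g x = L x := fun x => by rw [hgL, hg0, add_zero]
  simp only [hgL'] at hmem ⊢
  -- the image of the vertex
  have hLVn : ‖L V‖ = ‖V‖ := L.norm_map V
  have hLV : ∀ i, i ≠ i₀ → (L V) i = 0 := by
    have h1 : Q w (L V) ≤ 1 := by
      have := hd.le (L V)
      have := (hmem V).mpr hfV.le
      linarith
    have h2 : ∑ i, (w i - w i₀) * (L V) i ^ 2 ≤ 0 := by
      have : ∑ i, (w i - w i₀) * (L V) i ^ 2 = Q w (L V) - w i₀ * ‖L V‖ ^ 2 := by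
        rw [Q_eq, norm_sq_eq, Finset.mul_sum, ← Finset.sum_sub_distrib]
        exact Finset.sum_congr rfl fun i _ => by ring
      rw [this, hLVn, hVn]
      linarith
    have h3 : ∀ i ∈ Finset.univ, 0 ≤ (w i - w i₀) * (L V) i ^ 2 := by
      intro i _
      by_cases hi : i = i₀
      · rw [hi, sub_self, zero_mul]
      · exact mul_nonneg (sub_nonneg.mpr (hmax i hi).le) (sq_nonneg _)
    intro i hi
    have h4 := (Finset.sum_eq_zero_iff_of_nonneg h3).mp
      (le_antisymm h2 (Finset.sum_nonneg h3)) i (Finset.mem_univ i)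
    rcases mul_eq_zero.mp h4 with h5 | h5
    · exact absurd h5 (sub_pos.mpr (hmax i hi)).ne'
    · simpa using h5
  have hVi : ∀ i, i ≠ i₀ → V i = 0 := fun i hi => vertex_apply_ne w hi
  have hVne : V i₀ ≠ 0 := by
    rw [hV, vertex_apply_self]
    have := Real.sqrt_pos.mpr (hw i₀)
    positivity
  have hinner : ∀ y z : EuclideanSpace ℝ κ, (∀ i, i ≠ i₀ → z i = 0) →
      ⟪y, z⟫_ℝ = y i₀ * z i₀ := by
    intro y z hz
    rw [PiLp.inner_apply, Finset.sum_eq_single i₀]
    · simp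
      ring
    · intro i _ hi
      rw [hz i hi]
      simp
    · simp
  have hLi : ∀ y, (L y) i₀ * (L V) i₀ = y i₀ * V i₀ := by
    intro y
    rw [← hinner _ _ hLV, ← hinner _ _ hVi, L.inner_map_map]
  have hzero : ∀ y : EuclideanSpace ℝ κ, y i₀ = 0 → (L y) i₀ = 0 := by
    intro y hy
    have h1 := hLi y
    rw [hy, zero_mul] at h1
    rcases mul_eq_zero.mp h1 with h2 | h2
    · exact h2
    · exfalso
      have h3 := hLi V
      rw [h2, mul_zero] at h3
      exact hVne (by simpa using h3.symm)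
  have hDV : ∀ z : EuclideanSpace ℝ κ, (∀ i, i ≠ i₀ → z i = 0) → diag w z = w i₀ • z := by
    intro z hz
    ext i
    rw [diag_apply]
    by_cases hi : i = i₀
    · rw [hi]
      simp
    · rw [hz i hi]
      simp [hz i hi]
  -- invariance of the quadratic form on the hyperplane
  have hQ0 : ∀ y : EuclideanSpace ℝ κ, y i₀ = 0 → Q w (L y) = Q w y := by
    intro y hy
    apply eq_of_scaling (Q_nonneg (fun i => (hw i).le) _) (Q_nonneg (fun i => (hw i).le) _)
    intro s
    have h1 := hmem (s • y)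
    have h2 : (s • y) i₀ = 0 := by simp [hy]
    rw [hd.eq_outside _ (notMem_ball_of_zero hq h2),
      hd.eq_outside _ (notMem_ball_of_zero hq (hzero _ h2)), map_smul, Q_smul, Q_smul] at h1
    constructor
    · intro h3
      have := h1.mp (by linarith)
      linarith
    · intro h3
      have := h1.mpr (by linarith)
      linarith
  have hQL : ∀ y, Q w (L y) = Q w y := by
    intro y
    set τ := y i₀ / V i₀ with hτ
    set y' := y - τ • V with hy'
    have h1 : y' i₀ = 0 := by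
      rw [hy', PiLp.sub_apply, PiLp.smul_apply, hτ, smul_eq_mul, div_mul_cancel₀ _ hVne, sub_self]
    have h2 : y = τ • V + y' := by
      rw [hy']
      abel
    have h3 : ⟪diag w (τ • V), y'⟫_ℝ = 0 := by
      rw [map_smul, hDV V hVi, inner_smul_left, inner_smul_left, real_inner_comm,
        hinner _ _ hVi, h1]
      simp
    have h4 : ⟪diag w (τ • L V), L y'⟫_ℝ = 0 := by
      rw [map_smul, hDV (L V) hLV, inner_smul_left, inner_smul_left, real_inner_comm,
        hinner _ _ hLV, hzero _ h1]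
      simp
    have h5 : Q w (L V) = 1 := by
      have : Q w (L V) = w i₀ * ‖L V‖ ^ 2 := by
        rw [Q, hDV (L V) hLV, inner_smul_left, real_inner_self_eq_norm_sq]
        simp
      rw [this, hLVn, hVn]
    rw [h2, map_add, map_smul, Q_add, Q_add, h3, h4, Q_smul, Q_smul, h5, Q_vertex (hw i₀),
      hQ0 y' h1]
  have hDL : ∀ y, diag w (L y) = L (diag w y) := by
    intro y
    apply ext_inner_right ℝ
    intro z
    obtain ⟨z', rfl⟩ := L.surjective z
    rw [L.inner_map_map]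
    have h1 := hQL (y + z')
    rw [map_add, Q_add, Q_add, hQL, hQL] at h1
    linarith
  -- the coordinate axes
  have hLe : ∀ i j, j ≠ i → (L (EuclideanSpace.single i (1 : ℝ))) j = 0 := by
    intro i j hij
    have h1 := congrArg (fun z : EuclideanSpace ℝ κ => z j) (hDL (EuclideanSpace.single i (1 : ℝ)))
    have h2 : diag w (EuclideanSpace.single i (1 : ℝ)) = w i • EuclideanSpace.single i (1 : ℝ) := by
      ext k
      by_cases hk : k = i
      · subst hk
        simp
      · simp [hk]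
    simp only [h2, map_smul, diag_apply, PiLp.smul_apply, smul_eq_mul] at h1
    have h3 : (w j - w i) * (L (EuclideanSpace.single i (1 : ℝ))) j = 0 := by
      rw [sub_mul, h1, sub_self]
    rcases mul_eq_zero.mp h3 with h4 | h4
    · exact absurd (hinj (sub_eq_zero.mp h4)) hij
    · exact h4
  have hs : ∀ i (y : EuclideanSpace ℝ κ),
      (L y) i * (L (EuclideanSpace.single i (1 : ℝ))) i = y i := by
    intro i y
    have h1 : ⟪L y, L (EuclideanSpace.single i (1 : ℝ))⟫_ℝ =
        (L y) i * (L (EuclideanSpace.single i (1 : ℝ))) i := by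
      rw [PiLp.inner_apply, Finset.sum_eq_single i]
      · simp
        ring
      · intro j _ hj
        rw [hLe i j hj]
        simp
      · simp
    rw [← h1, L.inner_map_map, EuclideanSpace.inner_single_right]
    simp
  have hs2 : ∀ i, (L (EuclideanSpace.single i (1 : ℝ))) i ^ 2 = 1 := by
    intro i
    have := hs i (EuclideanSpace.single i (1 : ℝ))
    rw [sq, this]
    simp
  -- the dent
  have hfq : 0 < f q := by
    have h1 := hd.lt_inside q (Metric.mem_ball_self hρ)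
    rw [hQq] at h1
    linarith
  have hLq : L q ∈ Metric.ball q ρ := by
    by_contra hcon
    have h1 := hd.eq_outside _ hcon
    rw [hQL, hQq, sub_self] at h1
    have := (hmem q).mp h1.le
    linarith
  have hsign : ∀ i, (L (EuclideanSpace.single i (1 : ℝ))) i = 1 := by
    intro i
    have h0 := hs2 i
    rw [sq] at h0
    rcases mul_self_eq_one_iff.mp h0 with h | h
    · exact h
    · exfalso
      have h1 := hs i q
      rw [h] at h1
      have h2 : (L q) i = - q i := by linarith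
      rw [mem_ball_iff_norm] at hLq
      have h3 := abs_apply_le (L q - q) i
      rw [PiLp.sub_apply, h2] at h3
      have h4 := hq i
      have h5 := neg_abs_le (- q i - q i)
      linarith
  ext i
  have := hs i x
  rw [hsign, mul_one] at this
  exact this

/-- A body without nontrivial isometry is not an ellipsoid. -/
theorem not_isEllipsoid {E : Type*} [NormedAddCommGroup E] [InnerProductSpace ℝ E] [Nontrivial E]
    {Ω : Set E} (h : ∀ g : E ≃ᵃⁱ[ℝ] E, g '' Ω = Ω → ∀ x, g x = x) : ¬ IsEllipsoid Ω := by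
  rintro ⟨φ, rfl⟩
  have h1 := h (AffineIsometryEquiv.pointReflection ℝ (φ 0)) (by
    have key : ∀ y, AffineIsometryEquiv.pointReflection ℝ (φ 0) (φ y) = φ (-y) := by
      intro y
      rw [AffineIsometryEquiv.pointReflection_apply]
      have h2 := φ.map_vadd 0 (-y)
      have h3 := φ.map_vadd 0 y
      simp only [vadd_eq_add, add_zero, map_neg] at h2 h3 ⊢
      rw [h2, h3, vsub_eq_sub]
      abel
    ext z
    constructor
    · rintro ⟨_, ⟨y, hy, rfl⟩, rfl⟩
      exact ⟨-y, by simpa using hy, (key y).symm⟩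
    · rintro ⟨y, hy, rfl⟩
      refine ⟨φ (-y), ⟨-y, by simpa using hy, rfl⟩, ?_⟩
      rw [key, neg_neg])
  obtain ⟨v, hv⟩ := exists_ne (0 : E)
  have h2 := h1 (φ 0 + v)
  rw [AffineIsometryEquiv.pointReflection_apply] at h2
  simp only [vadd_eq_add, vsub_eq_sub] at h2
  have h3 : (2 : ℝ) • v = 0 := by
    have h4 : φ 0 - (φ 0 + v) + φ 0 = φ 0 + v := h2
    have h5 : v + v = 0 := by
      calc v + v = (φ 0 + v) - (φ 0 - (φ 0 + v) + φ 0) := by abel
        _ = 0 := by rw [h4, sub_self]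
    rw [two_smul]
    exact h5
  rcases smul_eq_zero.mp h3 with h4 | h4
  · norm_num at h4
  · exact hv h4

/-- Dented ellipsoids with the dent in a given open set containing a vertex, and without
symmetries. -/
theorem exists_dented [Nontrivial κ] {w : κ → ℝ} (hw : ∀ i, 0 < w i) (i₀ : κ)
    (hmax : ∀ i, i ≠ i₀ → w i₀ < w i) (hinj : Function.Injective w)
    {G : Set (EuclideanSpace ℝ κ)} (hG : IsOpen G) (hv : vertex w i₀ ∈ G) :
    ∃ f : EuclideanSpace ℝ κ → ℝ, Defining f ∧ (∀ x, Q w x - 1 ≤ f x) ∧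
      (∀ x, x ∉ G → f x = Q w x - 1 ∧ fderiv ℝ f x = dQ w x) ∧
      (∀ g : EuclideanSpace ℝ κ ≃ᵃⁱ[ℝ] EuclideanSpace ℝ κ,
        g '' {x | f x ≤ 0} = {x | f x ≤ 0} → ∀ x, g x = x) ∧
      ¬ IsEllipsoid {x | f x ≤ 0} := by
  obtain ⟨q, ρ, hρ, hQq, hq, hball⟩ := exists_center hw i₀ hG hv
  obtain ⟨f, hf⟩ := exists_dent (m := w i₀) (hw i₀) (fun i => by
    by_cases hi : i = i₀
    · rw [hi]
    · exact (hmax i hi).le) q hρ (notMem_ball_of_zero hq (i := i₀) (by simp))
  have hsym := isometry_trivial hw i₀ hmax hinj hf hρ hq hQq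
  have : Nontrivial (EuclideanSpace ℝ κ) :=
    ⟨⟨EuclideanSpace.single i₀ 1, 0, by
      intro h
      have := congrArg (fun z : EuclideanSpace ℝ κ => z i₀) h
      simp at this⟩⟩
  refine ⟨f, hf.defining, hf.le, fun x hx => ⟨?_, ?_⟩, hsym, not_isEllipsoid hsym⟩
  · exact hf.eq_outside x fun h => hx (hball (Metric.ball_subset_closedBall h))
  · exact hf.fderiv_eq fun h => hx (hball h)

end Pool.Agent.MP_d967a3_an
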