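import Mathlib
import Pool.Agent.Lib.MP_d967a3_an.Sym
import Pool.Agent.Lib.MP_d967a3_an.Inner

/-!
# Lines tangent to a confocal hyperboloid
-/

open scoped InnerProductSpace ContDiff Topology
open Set Filter

namespace Pool.Agent.MP_d967a3_an

variable {κ : Type*} [Fintype κ]

/-- The discriminant: `Φ α (v, p) = 0` when the line `p + t v` is tangent to the quadric
`{Q α = 1}` (possibly at infinity). -/
noncomputable def Φ (α : κ → ℝ) (ℓ : EuclideanSpace ℝ κ × EuclideanSpace ℝ κ) : ℝ :=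
  Q α ℓ.1 * (1 - Q α ℓ.2) + ⟪diag α ℓ.2, ℓ.1⟫_ℝ ^ 2

lemma Φ_eq (α : κ → ℝ) (v p : EuclideanSpace ℝ κ) :
    Φ α (v, p) = Q α v * (1 - Q α p) + ⟪diag α p, v⟫_ℝ ^ 2 := rfl

lemma Φ_translate (α : κ → ℝ) (v p : EuclideanSpace ℝ κ) (t : ℝ) :
    Φ α (v, p + t • v) = Φ α (v, p) := by
  rw [Φ_eq, Φ_eq, Q_add, Q_smul, map_add, map_smul, inner_add_left, inner_smul_left,
    inner_smul_right]
  simp only [conj_trivial]
  change Q α v * (1 - (Q α p + 2 * (t * ⟪diag α p, v⟫_ℝ) + t ^ 2 * Q α v)) +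
    (⟪diag α p, v⟫_ℝ + t * Q α v) ^ 2 = _
  ring

lemma Φ_neg (α : κ → ℝ) (ℓ : EuclideanSpace ℝ κ × EuclideanSpace ℝ κ) :
    Φ α (-ℓ.1, ℓ.2) = Φ α ℓ := by
  have h : Q α (-ℓ.1) = Q α ℓ.1 := by
    rw [← neg_one_smul ℝ ℓ.1, Q_smul]
    norm_num
  rw [Φ_eq, h, inner_neg_right, neg_sq]
  rfl

/-- Invariance of the discriminant under reflection in the confocal ellipsoid. -/
lemma Φ_reflect {w α : κ → ℝ} {μ : ℝ} (hα : ∀ i, α i * (1 - μ * w i) = w i)
    {x ν v : EuclideanSpace ℝ κ} {c : ℝ} (hν : ‖ν‖ = 1) (hN : diag w x = c • ν)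
    (hx : Q w x = 1) : Φ α (v - (2 * ⟪v, ν⟫_ℝ) • ν, x) = Φ α (v, x) := by
  have hA : diag α x = c • ν + (μ * c) • diag α ν := by
    have h1 : diag α x = diag w x + μ • diag α (diag w x) := by
      ext i
      simp only [diag_apply, PiLp.add_apply, PiLp.smul_apply, smul_eq_mul]
      have := hα i
      linear_combination (x i) * this
    rw [h1, hN, map_smul, smul_smul]
  have hxx : 1 - Q α x = -(μ * c ^ 2 * (1 + μ * Q α ν)) := by
    have h1 : Q α x = ⟪diag α x, x⟫_ℝ := rfl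
    have h2 : ⟪diag w x, x⟫_ℝ = 1 := hx
    have h3 : c * ⟪ν, x⟫_ℝ = 1 := by
      rw [hN, inner_smul_left] at h2
      simpa using h2
    have h4 : ⟪diag α ν, x⟫_ℝ = c * (1 + μ * Q α ν) := by
      rw [diag_symm, hA, inner_add_left, inner_smul_left, inner_smul_left,
        real_inner_self_eq_norm_sq, hν]
      simp only [conj_trivial]
      change c * 1 ^ 2 + μ * c * Q α ν = _
      ring
    rw [h1, hA, inner_add_left, inner_smul_left, inner_smul_left, h4]
    simp only [conj_trivial]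
    linear_combination -h3
  have hxv : ∀ v, ⟪diag α x, v⟫_ℝ = c * (⟪v, ν⟫_ℝ + μ * ⟪diag α ν, v⟫_ℝ) := by
    intro v
    rw [hA, inner_add_left, inner_smul_left, inner_smul_left, real_inner_comm v ν]
    simp only [conj_trivial]
    ring
  have hQ : Q α (v - (2 * ⟪v, ν⟫_ℝ) • ν) =
      Q α v - 4 * ⟪v, ν⟫_ℝ * ⟪diag α ν, v⟫_ℝ + 4 * ⟪v, ν⟫_ℝ ^ 2 * Q α ν := by
    rw [sub_eq_add_neg, ← neg_smul, Q_add, Q_smul, inner_smul_right, diag_symm]
    ring
  rw [Φ_eq, Φ_eq, hxx, hxv, hxv, hQ, inner_reflect hν, inner_sub_right, inner_smul_right]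
  change _ * _ + (c * (-⟪v, ν⟫_ℝ + μ * (⟪diag α ν, v⟫_ℝ - 2 * ⟪v, ν⟫_ℝ * Q α ν))) ^ 2 = _
  ring

variable [DecidableEq κ]

/-- Sign assumptions of Lorentzian type. -/
lemma Q_neg_of_zero {α : κ → ℝ} {i₀ : κ} (hneg : ∀ i, i ≠ i₀ → α i < 0)
    {z : EuclideanSpace ℝ κ} (hz0 : z i₀ = 0) (hz : z ≠ 0) : Q α z < 0 := by
  obtain ⟨i, hi⟩ : ∃ i, z i ≠ 0 := by
    by_contra hcon
    push Not at hcon
    exact hz (by ext i; simpa using hcon i)
  have hii : i ≠ i₀ := by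
    rintro rfl
    exact hi hz0
  rw [Q_eq]
  apply Finset.sum_neg' 
  · intro j _
    by_cases hj : j = i₀
    · rw [hj, hz0]
      simp
    · exact mul_nonpos_of_nonpos_of_nonneg (hneg j hj).le (sq_nonneg _)
  · refine ⟨i, Finset.mem_univ i, ?_⟩
    have := hneg i hii
    have h2 : 0 < z i ^ 2 := by positivity
    nlinarith

/-- The reversed Cauchy-Schwarz inequality. -/
lemma lorentz {α : κ → ℝ} {i₀ : κ} (hneg : ∀ i, i ≠ i₀ → α i < 0)
    {x y : EuclideanSpace ℝ κ} (hx : 0 < Q α x) (hxy : ⟪diag α x, y⟫_ℝ = 0) (hy : y ≠ 0) :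
    Q α y < 0 := by
  have hx0 : x i₀ ≠ 0 := by
    intro h
    rcases eq_or_ne x 0 with rfl | hne
    · rw [Q_eq] at hx
      simp at hx
    · linarith [Q_neg_of_zero hneg h hne]
  have h1 : Q α (y i₀ • x + (-(x i₀)) • y) = y i₀ ^ 2 * Q α x + x i₀ ^ 2 * Q α y := by
    rw [Q_add, Q_smul, Q_smul, map_smul, inner_smul_left, inner_smul_right, hxy]
    simp
  rcases eq_or_ne (y i₀ • x + (-(x i₀)) • y) 0 with h | h
  · exfalso
    have h2 : y = (y i₀ / x i₀) • x := by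
      have h3 : x i₀ • y = y i₀ • x := by
        rw [neg_smul, ← sub_eq_add_neg] at h
        exact (sub_eq_zero.mp h).symm
      rw [div_eq_inv_mul, mul_smul, ← h3, smul_smul, inv_mul_cancel₀ hx0, one_smul]
    rw [h2, inner_smul_right] at hxy
    change y i₀ / x i₀ * Q α x = 0 at hxy
    rcases mul_eq_zero.mp hxy with h4 | h4
    · rw [h4, zero_smul] at h2
      exact hy h2
    · linarith
  · have h2 := Q_neg_of_zero hneg (z := y i₀ • x + (-(x i₀)) • y) (by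
      simp
      ring) h
    rw [h1] at h2
    have h3 : 0 < x i₀ ^ 2 := by positivity
    have h4 : 0 ≤ y i₀ ^ 2 * Q α x := by positivity
    by_contra hcon
    push Not at hcon
    have : 0 ≤ x i₀ ^ 2 * Q α y := by positivity
    linarith

/-- A line tangent to the two-sheeted hyperboloid lies between its sheets. -/
lemma Q_le_one_of_Φ {α : κ → ℝ} {i₀ : κ} (hneg : ∀ i, i ≠ i₀ → α i < 0)
    {v x : EuclideanSpace ℝ κ} (hv : v ≠ 0) (h : Φ α (v, x) = 0) : Q α x ≤ 1 := by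
  by_contra hcon
  push Not at hcon
  have hx : 0 < Q α x := by linarith
  rw [Φ_eq] at h
  have h1 : Q α v * (Q α x - 1) = ⟪diag α x, v⟫_ℝ ^ 2 := by linarith
  have h2 : 0 ≤ Q α v := by
    by_contra hneg'
    push Not at hneg'
    have : 0 < -Q α v * (Q α x - 1) := mul_pos (by linarith) (by linarith)
    nlinarith [sq_nonneg ⟪diag α x, v⟫_ℝ]
  -- the component of `v` orthogonal to `x`
  set y := v + (-(⟪diag α x, v⟫_ℝ / Q α x)) • x with hy
  have h3 : ⟪diag α x, y⟫_ℝ = 0 := by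
    rw [hy, inner_add_right, inner_smul_right]
    change _ + -(⟪diag α x, v⟫_ℝ / Q α x) * Q α x = 0
    field_simp
    ring
  have h4 : Q α y = Q α v - ⟪diag α x, v⟫_ℝ ^ 2 / Q α x := by
    rw [hy, Q_add, Q_smul, inner_smul_right, diag_symm]
    field_simp
    ring
  have h5 : Q α y ≤ 0 := by
    rcases eq_or_ne y 0 with h0 | h0
    · rw [h0, Q_eq]
      simp
    · exact (lorentz hneg hx h3 h0).le
  rw [h4, ← h1] at h5
  have h6 : Q α v - Q α v * (Q α x - 1) / Q α x = Q α v / Q α x := by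
    field_simp
    ring
  rw [h6] at h5
  have h7 : Q α v ≤ 0 := by
    by_contra hc
    push Not at hc
    have := div_pos hc hx
    linarith
  have h8 : Q α v = 0 := le_antisymm h7 h2
  rw [h8, zero_mul] at h1
  have h9 : ⟪diag α x, v⟫_ℝ = 0 := by simpa using h1.symm
  linarith [lorentz hneg hx h9 hv]

end Pool.Agent.MP_d967a3_an
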