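import Mathlib
import Pool.Agent.Lib.MP_d967a3_an.Confocal

/-!
# A table without symmetries with an invariant hypersurface
-/

open scoped InnerProductSpace ContDiff Topology
open Set Filter

namespace Pool.Agent.MP_d967a3_an

variable {κ : Type*} [Fintype κ]

lemma contDiff_Φ (α : κ → ℝ) : ContDiff ℝ ∞ (Φ α) := by
  unfold Φ
  have h1 : ContDiff ℝ ∞ fun ℓ : EuclideanSpace ℝ κ × EuclideanSpace ℝ κ => Q α ℓ.1 :=
    (contDiff_Q α).comp contDiff_fst
  have h2 : ContDiff ℝ ∞ fun ℓ : EuclideanSpace ℝ κ × EuclideanSpace ℝ κ => Q α ℓ.2 :=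
    (contDiff_Q α).comp contDiff_snd
  have h3 : ContDiff ℝ ∞ fun ℓ : EuclideanSpace ℝ κ × EuclideanSpace ℝ κ =>
      ⟪diag α ℓ.2, ℓ.1⟫_ℝ := ((diag α).contDiff.comp contDiff_snd).inner ℝ contDiff_fst
  exact (h1.mul (contDiff_const.sub h2)).add (h3.pow 2)

lemma hasDerivAt_quadratic {g : ℝ → ℝ} {c₀ c₁ c₂ : ℝ} (h : ∀ s, g s = c₀ + c₁ * s + c₂ * s ^ 2) :
    HasDerivAt g c₁ 0 := by
  have h1 : HasDerivAt (fun s : ℝ => c₀ + c₁ * s) (c₁ * 1) 0 :=
    ((hasDerivAt_id' (0 : ℝ)).const_mul c₁).const_add c₀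
  have h2 : HasDerivAt (fun s : ℝ => c₂ * s ^ 2) (c₂ * ((2 : ℕ) * 0 ^ (2 - 1))) 0 :=
    (hasDerivAt_pow 2 (0 : ℝ)).const_mul c₂
  have h3 : HasDerivAt (fun s : ℝ => c₀ + c₁ * s + c₂ * s ^ 2)
      (c₁ * 1 + c₂ * ((2 : ℕ) * 0 ^ (2 - 1))) 0 := h1.add h2
  have h4 : g = fun s : ℝ => c₀ + c₁ * s + c₂ * s ^ 2 := funext h
  rw [h4]
  refine h3.congr_deriv ?_
  simp

lemma fderiv_Φ_eq {α : κ → ℝ} {v p a b : EuclideanSpace ℝ κ} {c₀ c₁ c₂ : ℝ}
    (h : ∀ s : ℝ, Φ α (v + s • a, p + s • b) = c₀ + c₁ * s + c₂ * s ^ 2) :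
    fderiv ℝ (Φ α) (v, p) (a, b) = c₁ := by
  have h1 := hasDerivAt_line ((contDiff_Φ α).differentiable (by norm_num)) (v, p) (a, b) 0
  rw [zero_smul, add_zero] at h1
  exact h1.unique (hasDerivAt_quadratic h)

variable [DecidableEq κ]

/-- The hypersurface `{Φ = 0}` is regular. -/
theorem Φ_regular {α : κ → ℝ} {i₀ : κ} (hpos : 0 < α i₀) (hneg : ∀ i, i ≠ i₀ → α i < 0)
    {v p : EuclideanSpace ℝ κ} (hv : ‖v‖ = 1) (h : Φ α (v, p) = 0) :
    ∃ a b : EuclideanSpace ℝ κ, ⟪v, a⟫_ℝ = 0 ∧ ⟪a, p⟫_ℝ + ⟪v, b⟫_ℝ = 0 ∧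
      fderiv ℝ (Φ α) (v, p) (a, b) ≠ 0 := by
  have hv0 : v ≠ 0 := by
    rintro rfl
    simp at hv
  by_cases hQv : Q α v = 0
  · have hpv : ⟪diag α p, v⟫_ℝ = 0 := by
      rw [Φ_eq, hQv, zero_mul, zero_add] at h
      simpa using h
    refine ⟨diag α v, 0, ?_, ?_, ?_⟩
    · rw [real_inner_comm]
      exact hQv
    · rw [inner_zero_right, add_zero, diag_symm]
      exact hpv
    · have h1 : fderiv ℝ (Φ α) (v, p) (diag α v, 0) = 2 * ‖diag α v‖ ^ 2 * (1 - Q α p) := by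
        apply fderiv_Φ_eq (c₀ := 0)
          (c₂ := Q α (diag α v) * (1 - Q α p) + ⟪diag α p, diag α v⟫_ℝ ^ 2)
        intro s
        rw [smul_zero, add_zero, Φ_eq, Q_add, Q_smul, hQv, inner_smul_right, inner_add_right,
          inner_smul_right, hpv, real_inner_self_eq_norm_sq]
        ring
      rw [h1]
      have h2 : Q α p ≤ 0 := by
        by_contra hcon
        push Not at hcon
        linarith [lorentz hneg hcon hpv hv0]
      have h3 : diag α v ≠ 0 := by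
        intro h0
        apply hv0
        ext i
        have h4 := congrArg (fun z : EuclideanSpace ℝ κ => z i) h0
        simp only [diag_apply, PiLp.zero_apply] at h4
        rcases mul_eq_zero.mp h4 with h5 | h5
        · exfalso
          by_cases hi : i = i₀
          · rw [hi] at h5
            linarith
          · linarith [hneg i hi]
        · simpa using h5
      have h4 : 0 < ‖diag α v‖ := norm_pos_iff.mpr h3
      have h5 : 0 < 1 - Q α p := by linarith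
      positivity
  · set t : ℝ := -(⟪diag α p, v⟫_ℝ / Q α v) with ht
    obtain ⟨z, hz⟩ : ∃ z, z = p + t • v := ⟨_, rfl⟩
    have hzv : ⟪diag α z, v⟫_ℝ = 0 := by
      rw [hz, map_add, map_smul, inner_add_left, inner_smul_left]
      change ⟪diag α p, v⟫_ℝ + t * Q α v = 0
      rw [ht]
      field_simp
      ring
    have hz1 : Q α z = 1 := by
      have h1 : Φ α (v, z) = 0 := by rw [hz, Φ_translate, h]
      rw [Φ_eq, hzv] at h1
      have h2 : Q α v * (1 - Q α z) = 0 := by linarith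
      rcases mul_eq_zero.mp h2 with h3 | h3
      · exact absurd h3 hQv
      · linarith
    refine ⟨0, diag α z, inner_zero_right _, ?_, ?_⟩
    · rw [inner_zero_left, zero_add, real_inner_comm]
      exact hzv
    · have h1 : fderiv ℝ (Φ α) (v, p) (0, diag α z) =
          -2 * Q α v * ⟪diag α p, diag α z⟫_ℝ + 2 * ⟪diag α p, v⟫_ℝ *
            ⟪diag α (diag α z), v⟫_ℝ := by
        apply fderiv_Φ_eq (c₀ := Φ α (v, p))
          (c₂ := - Q α v * Q α (diag α z) + ⟪diag α (diag α z), v⟫_ℝ ^ 2)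
        intro s
        rw [smul_zero, add_zero, Φ_eq, Φ_eq, Q_add, Q_smul, map_add, map_smul, inner_smul_right,
          inner_add_left, inner_smul_left]
        simp only [conj_trivial]
        ring
      have h2 : ⟪diag α z, diag α z⟫_ℝ = ⟪diag α p, diag α z⟫_ℝ +
          t * ⟪diag α (diag α z), v⟫_ℝ := by
        have h3 : ∀ u, ⟪diag α z, u⟫_ℝ = ⟪diag α p, u⟫_ℝ + t * ⟪diag α v, u⟫_ℝ := by
          intro u
          rw [hz, map_add, map_smul, inner_add_left, inner_smul_left]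
          simp
        rw [h3 (diag α z), diag_symm α v (diag α z)]
      have h3 : fderiv ℝ (Φ α) (v, p) (0, diag α z) = -2 * Q α v * ‖diag α z‖ ^ 2 := by
        rw [h1, ← real_inner_self_eq_norm_sq, h2, ht]
        field_simp
        ring
      rw [h3]
      have h4 : diag α z ≠ 0 := by
        intro h0
        have : Q α z = ⟪diag α z, z⟫_ℝ := rfl
        rw [h0, inner_zero_left] at this
        linarith
      have h5 : ‖diag α z‖ ≠ 0 := norm_ne_zero_iff.mpr h4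
      simp only [ne_eq, mul_eq_zero, not_or]
      refine ⟨⟨by norm_num, hQv⟩, pow_ne_zero 2 h5⟩

/-- The dented ellipsoid keeps the invariant hypersurface of lines tangent to a confocal
hyperboloid. -/
theorem inner_example [Nontrivial κ] {w α : κ → ℝ} {μ : ℝ} {i₀ : κ} (hw : ∀ i, 0 < w i)
    (hmax : ∀ i, i ≠ i₀ → w i₀ < w i) (hinj : Function.Injective w) (hμ : 0 < μ)
    (h0 : μ * w i₀ < 1) (h1 : ∀ i, i ≠ i₀ → 1 < μ * w i)
    (hα : ∀ i, α i * (1 - μ * w i) = w i) :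
    ∃ Ω : Set (EuclideanSpace ℝ κ), IsSmoothBody Ω ∧ ¬ IsEllipsoid Ω ∧
      (∀ g : EuclideanSpace ℝ κ ≃ᵃⁱ[ℝ] EuclideanSpace ℝ κ, g '' Ω = Ω → ∀ x, g x = x) ∧
      ∃ T : EuclideanSpace ℝ κ × EuclideanSpace ℝ κ → EuclideanSpace ℝ κ × EuclideanSpace ℝ κ,
        IsBilliardMap Ω T ∧ ∃ S, IsLineHypersurface Ω S ∧ T '' S = S := by
  have hpos : 0 < α i₀ := by
    have h2 := hα i₀
    have h3 := hw i₀
    have h4 : 0 < 1 - μ * w i₀ := by linarith
    by_contra hcon
    push Not at hcon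
    nlinarith
  have hneg : ∀ i, i ≠ i₀ → α i < 0 := by
    intro i hi
    have h2 := hα i
    have h3 := hw i
    have h4 := h1 i hi
    by_contra hcon
    push Not at hcon
    nlinarith
  have hGo : IsOpen {x : EuclideanSpace ℝ κ | 1 < Q α x} :=
    isOpen_lt continuous_const (contDiff_Q α).continuous
  have hGv : vertex w i₀ ∈ {x : EuclideanSpace ℝ κ | 1 < Q α x} := by
    change 1 < Q α (vertex w i₀)
    rw [vertex, Q_single, inv_pow, Real.sq_sqrt (hw i₀).le]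
    have h2 := hα i₀
    have h3 := hw i₀
    rw [← div_eq_mul_inv, lt_div_iff₀ h3]
    nlinarith [mul_pos hpos (mul_pos hμ h3)]
  obtain ⟨f, hf, hQf, hout, hsym, hell⟩ := exists_dented hw i₀ hmax hinj hGo hGv
  refine ⟨{x | f x ≤ 0}, hf.isSmoothBody, hell, hsym, ?_⟩
  obtain ⟨T, hT, hTS⟩ := hf.exists_billiardMap (Φ α) (Φ_neg α) (by
    rintro ⟨v, p⟩ hℓ ⟨v', p'⟩ hℓ' href hΦ
    obtain ⟨hv, -, -⟩ := hℓ
    obtain ⟨t, x, ν, hx, hxΩ, hs, hν, ha, hb⟩ := href
    simp only at hv hx hs ha hb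
    have hv0 : v ≠ 0 := by
      rintro rfl
      simp at hv
    have hfx : f x = 0 := by
      rw [hx]
      exact hf.exit_zero (ℓ := (v, p)) (by rw [← hx]; exact hxΩ) hs
    have hΦx : Φ α (v, x) = 0 := by rw [hx, Φ_translate, hΦ]
    have hxG : x ∉ {x : EuclideanSpace ℝ κ | 1 < Q α x} :=
      not_lt.mpr (Q_le_one_of_Φ hneg hv0 hΦx)
    obtain ⟨hfQ, hdf⟩ := hout x hxG
    have hQx : Q w x = 1 := by linarith
    obtain ⟨ν₀, hν₀, c, hc, hcν⟩ := hf.exists_normal hfx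
    have hνν : ν = ν₀ := hf.normal_unique hfx hν hν₀
    have hN : diag w x = (c / 2) • ν := by
      apply ext_inner_right ℝ
      intro u
      have h2 := hcν u
      rw [hdf, dQ_apply, ← hνν] at h2
      rw [inner_smul_left]
      simp only [conj_trivial]
      linarith
    have h3 : Φ α (v', x) = 0 := by
      rw [ha, Φ_reflect hα hν.1 hN hQx, hΦx]
    rw [hb, sub_eq_add_neg, ← neg_smul, Φ_translate, h3])
  refine ⟨T, hT, phaseSpace {x | f x ≤ 0} ∩ {ℓ | Φ α ℓ = 0}, ⟨?_, ?_, ?_⟩, hTS⟩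
  · -- a tangent line
    obtain ⟨i₁, hi₁⟩ := exists_ne i₀
    have hQz : Q α (vertex α i₀) = 1 := Q_vertex hpos
    have hz1 : vertex α i₀ i₁ = 0 := vertex_apply_ne α hi₁
    have hinn : ⟪EuclideanSpace.single i₁ (1 : ℝ), vertex α i₀⟫_ℝ = 0 := by
      rw [EuclideanSpace.inner_single_left, hz1]
      simp
    refine ⟨(EuclideanSpace.single i₁ 1, vertex α i₀), ⟨by simp, hinn, 0, ?_⟩, ?_⟩
    · rw [zero_smul, add_zero, hf.mem_interior_iff]
      simp only
      have hnG : vertex α i₀ ∉ {x : EuclideanSpace ℝ κ | 1 < Q α x} :=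
        not_lt.mpr hQz.le
      rw [(hout _ hnG).1, vertex, Q_single, inv_pow, Real.sq_sqrt hpos.le]
      have h2 := hα i₀
      have h3 : w i₀ * (α i₀)⁻¹ = 1 - μ * w i₀ := by
        rw [← div_eq_mul_inv, div_eq_iff hpos.ne']
        linarith
      rw [h3]
      nlinarith [hw i₀]
    · change Φ α (EuclideanSpace.single i₁ 1, vertex α i₀) = 0
      rw [Φ_eq, hQz, sub_self, mul_zero, zero_add, inner_diag, Finset.sum_eq_zero]
      · norm_num
      · intro i _
        by_cases hi : i = i₀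
        · rw [hi]
          simp [Ne.symm hi₁]
        · rw [vertex_apply_ne α hi]
          simp
  · exact ⟨{ℓ | Φ α ℓ = 0}, isClosed_eq (contDiff_Φ α).continuous continuous_const, rfl⟩
  · rintro ⟨v, p⟩ ⟨⟨hv, -, -⟩, hΦ⟩
    obtain ⟨a, b, h2, h3, h4⟩ := Φ_regular hpos hneg hv hΦ
    refine ⟨univ, Φ α, isOpen_univ, mem_univ _, contDiff_Φ α, ?_, a, b, h2, h3, h4⟩
    intro m hm
    exact ⟨fun h => h.2, fun h => ⟨hm.1, h⟩⟩

end Pool.Agent.MP_d967a3_an
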