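import Mathlib
import Pool.Agent.Lib.MP_d967a3_an.Stmt

/-!
# Definitions for the outer billiard
-/

open scoped InnerProductSpace ContDiff

namespace Pool.Agent.MP_d967a3_an

/-- The standard complex structure `J(x, y) = (-y, x)` of `ℝ²ᵐ = ℝᵐ × ℝᵐ`. -/
noncomputable def J {m : ℕ} (u : EuclideanSpace ℝ (Fin m ⊕ Fin m)) :
    EuclideanSpace ℝ (Fin m ⊕ Fin m) :=
  WithLp.toLp 2 (Sum.elim (fun i => -u (Sum.inr i)) (fun i => u (Sum.inl i)))

/-- `T` is (outside `K`) the outer billiard map of `K`: if `x = y - t J ν`, where `y` is a boundary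
point of `K`, `ν` is the outer unit normal at `y` and `t > 0`, then `T x = 2 y - x`. -/
def IsOuterBilliardMap {m : ℕ} (K : Set (EuclideanSpace ℝ (Fin m ⊕ Fin m)))
    (T : EuclideanSpace ℝ (Fin m ⊕ Fin m) → EuclideanSpace ℝ (Fin m ⊕ Fin m)) : Prop :=
  ∀ x, x ∉ K → T x ∉ K ∧ ∃ (y ν : EuclideanSpace ℝ (Fin m ⊕ Fin m)) (t : ℝ),
    y ∈ frontier K ∧ IsOuterNormal K y ν ∧ 0 < t ∧ x = y - t • J ν ∧ T x = (2 : ℝ) • y - x

/-- `S` is a nonempty smooth hypersurface, properly embedded in the complement of `K`: it is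
relatively closed in the complement, and near each of its points it is the zero set, in the
complement of `K`, of a smooth function with nonvanishing differential. -/
structure IsOuterHypersurface {m : ℕ} (K S : Set (EuclideanSpace ℝ (Fin m ⊕ Fin m))) : Prop where
  nonempty : S.Nonempty
  closed : ∃ C : Set (EuclideanSpace ℝ (Fin m ⊕ Fin m)), IsClosed C ∧ S = Kᶜ ∩ C
  regular : ∀ x ∈ S, ∃ (U : Set (EuclideanSpace ℝ (Fin m ⊕ Fin m)))
    (F : EuclideanSpace ℝ (Fin m ⊕ Fin m) → ℝ), IsOpen U ∧ x ∈ U ∧ ContDiff ℝ ∞ F ∧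
    (∀ y ∈ Kᶜ ∩ U, (y ∈ S ↔ F y = 0)) ∧ fderiv ℝ F x ≠ 0

end Pool.Agent.MP_d967a3_an
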