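import Mathlib
import Pool.Agent.Lib.MP_d967a3_an.Inner

/-!
# Existence and uniqueness of the tangent point for outer billiards
-/

open scoped InnerProductSpace ContDiff Topology NNReal
open Set Filter

namespace Pool.Agent.MP_d967a3_an

variable {E : Type*} [NormedAddCommGroup E] [InnerProductSpace ℝ E]

/-- A complex structure. -/
structure IsCplx (j : E →ₗ[ℝ] E) : Prop where
  sq : ∀ u, j (j u) = -u
  norm : ∀ u, ‖j u‖ = ‖u‖

namespace IsCplx

variable {j : E →ₗ[ℝ] E} (hj : IsCplx j)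
include hj

lemma inner_map (u v : E) : ⟪j u, j v⟫_ℝ = ⟪u, v⟫_ℝ := by
  have h1 := hj.norm (u + v)
  have h2 : ‖j u + j v‖ ^ 2 = ‖u + v‖ ^ 2 := by rw [← map_add, h1]
  rw [norm_add_sq_real, norm_add_sq_real, hj.norm, hj.norm] at h2
  linarith

lemma skew (u v : E) : ⟪j u, v⟫_ℝ = -⟪u, j v⟫_ℝ := by
  rw [← hj.inner_map (j u) v, hj.sq, inner_neg_left]

lemma inner_self (u : E) : ⟪j u, u⟫_ℝ = 0 := by
  have := hj.skew u u
  rw [real_inner_comm (j u) u] at this
  linarith

lemma neg : IsCplx (-j) where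
  sq u := by simp [hj.sq]
  norm u := by simp [hj.norm]

lemma continuous : Continuous j := by
  have : LipschitzWith 1 j := LipschitzWith.of_dist_le_mul fun u v => by
    rw [dist_eq_norm, dist_eq_norm, ← map_sub, hj.norm]
    simp
  exact this.continuous

end IsCplx

section projection

/-- The metric projection exists. -/
lemma exists_proj {K : Set E} (hK : IsCompact K) (hne : K.Nonempty) (hc : Convex ℝ K) :
    ∃ P : E → E, ∀ u, P u ∈ K ∧ ∀ w ∈ K, ⟪u - P u, w - P u⟫_ℝ ≤ 0 := by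
  have h : ∀ u, ∃ v ∈ K, ∀ w ∈ K, ⟪u - v, w - v⟫_ℝ ≤ 0 := by
    intro u
    obtain ⟨v, hv, hmin⟩ := exists_norm_eq_iInf_of_complete_convex hne hK.isComplete hc u
    exact ⟨v, hv, (norm_eq_iInf_iff_real_inner_le_zero hc hv).mp hmin⟩
  choose P hP using h
  exact ⟨P, hP⟩

lemma reflect_nonexpansive {K : Set E} {P : E → E}
    (hP : ∀ u, P u ∈ K ∧ ∀ w ∈ K, ⟪u - P u, w - P u⟫_ℝ ≤ 0) (u v : E) :
    ‖((2 : ℝ) • P u - u) - ((2 : ℝ) • P v - v)‖ ≤ ‖u - v‖ := by
  have h1 := (hP u).2 (P v) (hP v).1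
  have h2 := (hP v).2 (P u) (hP u).1
  have h3 : ‖P u - P v‖ ^ 2 ≤ ⟪P u - P v, u - v⟫_ℝ := by
    rw [← real_inner_self_eq_norm_sq]
    have e1 : ⟪u - P u, P v - P u⟫_ℝ = -⟪P u - P v, u - P u⟫_ℝ := by
      rw [← inner_neg_left, neg_sub, real_inner_comm]
    have e2 : ⟪v - P v, P u - P v⟫_ℝ = ⟪P u - P v, v - P v⟫_ℝ := real_inner_comm _ _
    rw [e1] at h1
    rw [e2] at h2
    have e3 : ⟪P u - P v, u - v⟫_ℝ = ⟪P u - P v, u - P u⟫_ℝ - ⟪P u - P v, v - P v⟫_ℝ +
        ⟪P u - P v, P u - P v⟫_ℝ := by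
      rw [← inner_sub_right, ← inner_add_right]
      congr 1
      abel
    rw [e3]
    linarith
  have h4 : ‖((2 : ℝ) • P u - u) - ((2 : ℝ) • P v - v)‖ ^ 2 ≤ ‖u - v‖ ^ 2 := by
    have e : ((2 : ℝ) • P u - u) - ((2 : ℝ) • P v - v) = (2 : ℝ) • (P u - P v) - (u - v) := by
      module
    rw [e, norm_sub_sq_real, norm_smul, inner_smul_left]
    simp only [Real.norm_ofNat, conj_trivial]
    nlinarith
  exact (pow_le_pow_iff_left₀ (norm_nonneg _) (norm_nonneg _) two_ne_zero).mp h4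

end projection

variable [FiniteDimensional ℝ E]

/-- Existence of the tangent point. -/
theorem exists_tangent {K : Set E} (hK : IsCompact K) (hne : K.Nonempty) (hc : Convex ℝ K)
    {j : E →ₗ[ℝ] E} (hj : IsCplx j) {x : E} (hx : x ∉ K) :
    ∃ (y ν : E) (t : ℝ), y ∈ K ∧ IsOuterNormal K y ν ∧ 0 < t ∧ x = y - t • j ν := by
  obtain ⟨P, hP⟩ := exists_proj hK hne hc
  have hcomplete : CompleteSpace E := FiniteDimensional.complete ℝ E
  let R : E → E := fun u => (2 : ℝ) • P u - u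
  let N : E → E := fun u => j (x - R (x + u))
  have hN : ∀ u v, ‖N u - N v‖ ≤ ‖u - v‖ := by
    intro u v
    have e : N u - N v = j ((R (x + v)) - R (x + u)) := by
      simp only [N]
      rw [← map_sub]
      congr 1
      abel
    rw [e, hj.norm]
    have := reflect_nonexpansive hP (x + v) (x + u)
    rw [add_sub_add_left_eq_sub, norm_sub_rev v u] at this
    exact this
  have hNc : Continuous N := by
    have : LipschitzWith 1 N := LipschitzWith.of_dist_le_mul fun u v => by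
      rw [dist_eq_norm, dist_eq_norm]
      simpa using hN u v
    exact this.continuous
  obtain ⟨B, hB⟩ := hK.isBounded.exists_norm_le
  have hB0 : 0 ≤ B := by
    obtain ⟨z, hz⟩ := hne
    exact (norm_nonneg z).trans (hB z hz)
  -- approximate fixed points
  have happrox : ∀ l : ℝ, 0 < l → l ≤ 1 / 2 → ∃ u, ‖u‖ ≤ 2 * (‖x‖ + B) ∧
      ‖u - N u‖ ≤ l * (4 * (‖x‖ + B)) := by
    intro l hl hl2
    have hk : ((Real.toNNReal (1 - l) : ℝ≥0) : ℝ) = 1 - l := Real.coe_toNNReal _ (by linarith)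
    have hcontr : ContractingWith (Real.toNNReal (1 - l)) (fun u => (1 - l) • N u) := by
      refine ⟨?_, LipschitzWith.of_dist_le_mul fun u v => ?_⟩
      · rw [← NNReal.coe_lt_coe, hk, NNReal.coe_one]
        linarith
      · rw [dist_eq_norm, dist_eq_norm, ← smul_sub, norm_smul, Real.norm_eq_abs,
          abs_of_nonneg (by linarith : 0 ≤ 1 - l), hk]
        exact mul_le_mul_of_nonneg_left (hN u v) (by linarith)
    obtain ⟨u, hu⟩ : ∃ u, (1 - l) • N u = u := ⟨_, hcontr.fixedPoint_isFixedPt⟩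
    have hbound : ‖u‖ ≤ 2 * (‖x‖ + B) := by
      have e : u - (1 - l) • j u = (1 - l) • j ((2 : ℝ) • x - (2 : ℝ) • P (x + u)) := by
        have e1 : N u = j ((2 : ℝ) • x - (2 : ℝ) • P (x + u)) + j u := by
          simp only [N, R]
          rw [← map_add]
          congr 1
          module
        calc u - (1 - l) • j u = (1 - l) • N u - (1 - l) • j u := by rw [hu]
          _ = _ := by rw [e1, smul_add]; abel
      have h1 : ‖u - (1 - l) • j u‖ ^ 2 = ‖u‖ ^ 2 + (1 - l) ^ 2 * ‖u‖ ^ 2 := by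
        rw [norm_sub_sq_real, inner_smul_right, real_inner_comm, hj.inner_self, norm_smul,
          hj.norm, Real.norm_eq_abs, mul_pow, sq_abs]
        ring
      have h2 : ‖u‖ ≤ ‖u - (1 - l) • j u‖ := by
        rw [← pow_le_pow_iff_left₀ (norm_nonneg _) (norm_nonneg _) two_ne_zero, h1]
        have := mul_nonneg (sq_nonneg (1 - l)) (sq_nonneg ‖u‖)
        linarith
      rw [e, norm_smul, hj.norm, Real.norm_eq_abs, abs_of_nonneg (by linarith : 0 ≤ 1 - l)] at h2
      have h3 : ‖(2 : ℝ) • x - (2 : ℝ) • P (x + u)‖ ≤ 2 * (‖x‖ + B) := by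
        rw [← smul_sub, norm_smul, Real.norm_ofNat]
        have := hB _ (hP (x + u)).1
        have := norm_sub_le x (P (x + u))
        linarith
      calc ‖u‖ ≤ (1 - l) * ‖(2 : ℝ) • x - (2 : ℝ) • P (x + u)‖ := h2
        _ ≤ 1 * ‖(2 : ℝ) • x - (2 : ℝ) • P (x + u)‖ := by
          apply mul_le_mul_of_nonneg_right (by linarith) (norm_nonneg _)
        _ ≤ _ := by rw [one_mul]; exact h3
    refine ⟨u, hbound, ?_⟩
    have h1 : u - N u = -(l • N u) := by
      calc u - N u = (1 - l) • N u - N u := by rw [hu]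
        _ = _ := by module
    rw [h1, norm_neg, norm_smul, Real.norm_eq_abs, abs_of_pos hl]
    have h2 : ‖N u‖ ≤ 2 * ‖u‖ := by
      have h3 : ‖u‖ = (1 - l) * ‖N u‖ := by
        calc ‖u‖ = ‖(1 - l) • N u‖ := by rw [hu]
          _ = _ := by
            rw [norm_smul, Real.norm_eq_abs, abs_of_nonneg (by linarith : 0 ≤ 1 - l)]
      have := norm_nonneg (N u)
      nlinarith
    have h4 : l * ‖N u‖ ≤ l * (2 * (2 * (‖x‖ + B))) :=
      mul_le_mul_of_nonneg_left (by linarith) hl.le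
    linarith
  -- a fixed point
  obtain ⟨u, hu⟩ : ∃ u, N u = u := by
    have hcpt : IsCompact (Metric.closedBall (0 : E) (2 * (‖x‖ + B))) := isCompact_closedBall _ _
    have hne' : (Metric.closedBall (0 : E) (2 * (‖x‖ + B))).Nonempty :=
      ⟨0, by simp; positivity⟩
    obtain ⟨u, -, hmin⟩ := hcpt.exists_isMinOn hne'
      (f := fun u => ‖u - N u‖) (by fun_prop)
    refine ⟨u, ?_⟩
    by_contra hcon
    have hpos : 0 < ‖u - N u‖ := norm_pos_iff.mpr (sub_ne_zero.mpr (Ne.symm hcon))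
    set δ := ‖u - N u‖ with hδ
    set C := 4 * (‖x‖ + B) + 1 with hC
    have hC0 : 0 < C := by positivity
    obtain ⟨u', hu', hsmall⟩ := happrox (min (1 / 2) (δ / (2 * C)))
      (lt_min (by norm_num) (by positivity)) (min_le_left _ _)
    have h1 := hmin (mem_closedBall_zero_iff.mpr hu')
    simp only [mem_ofPred_eq] at h1
    have h2 : min (1 / 2) (δ / (2 * C)) * (4 * (‖x‖ + B)) ≤ δ / (2 * C) * C := by
      apply mul_le_mul (min_le_right _ _) (by linarith) (by positivity) (by positivity)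
    have h3 : δ / (2 * C) * C = δ / 2 := by field_simp
    have h4 : δ ≤ ‖u' - N u'‖ := h1
    linarith
  -- conclusion
  have hju : (2 : ℝ) • P (x + u) = (2 : ℝ) • x + u + j u := by
    have h1 : j (N u) = -(x - R (x + u)) := hj.sq _
    rw [hu] at h1
    have h2 : R (x + u) = x + j u := by
      rw [h1]
      abel
    have h3 : (2 : ℝ) • P (x + u) - (x + u) = x + j u := h2
    calc (2 : ℝ) • P (x + u) = ((2 : ℝ) • P (x + u) - (x + u)) + (x + u) := by abel
      _ = (2 : ℝ) • x + u + j u := by rw [h3]; module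
  obtain ⟨w, hw⟩ : ∃ w, w = (1 / 2 : ℝ) • (u - j u) := ⟨_, rfl⟩
  have hjw : j w = (1 / 2 : ℝ) • (u + j u) := by
    rw [hw, map_smul, map_sub, hj.sq]
    module
  have hPx : P (x + u) = x + j w := by
    have h1 : P (x + u) = (1 / 2 : ℝ) • ((2 : ℝ) • P (x + u)) := by module
    rw [h1, hju, hjw]
    module
  have hw0 : w ≠ 0 := by
    intro h
    apply hx
    rw [h, map_zero, add_zero] at hPx
    rw [← hPx]
    exact (hP _).1
  have hwn : 0 < ‖w‖ := norm_pos_iff.mpr hw0
  refine ⟨x + j w, ‖w‖⁻¹ • w, ‖w‖, ?_, ⟨?_, ?_⟩, hwn, ?_⟩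
  · rw [← hPx]
    exact (hP _).1
  · rw [norm_smul, norm_inv, norm_norm, inv_mul_cancel₀ hwn.ne']
  · intro z hz
    have h1 := (hP (x + u)).2 z hz
    have h2 : x + u - P (x + u) = w := by
      rw [hPx, hjw, hw]
      module
    rw [h2, hPx] at h1
    rw [inner_smul_right, real_inner_comm]
    have : 0 < ‖w‖⁻¹ := inv_pos.mpr hwn
    nlinarith
  · rw [map_smul, smul_smul, mul_inv_cancel₀ hwn.ne', one_smul]
    abel

omit [FiniteDimensional ℝ E] in
/-- Strict supporting inequality. -/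
lemma IsOuterNormal.lt {K : Set E} (hK : StrictConvex ℝ K) {y ν z : E} (hy : y ∈ K)
    (hν : IsOuterNormal K y ν) (hz : z ∈ K) (hne : z ≠ y) : ⟪z - y, ν⟫_ℝ < 0 := by
  have hmid : (1 / 2 : ℝ) • z + (1 / 2 : ℝ) • y ∈ interior K :=
    hK hz hy hne (by norm_num) (by norm_num) (by norm_num)
  have h1 : ∀ᶠ s : ℝ in 𝓝 0, (1 / 2 : ℝ) • z + (1 / 2 : ℝ) • y + s • ν ∈ interior K := by
    have hc : Continuous fun s : ℝ => (1 / 2 : ℝ) • z + (1 / 2 : ℝ) • y + s • ν := by fun_prop
    have := hc.tendsto 0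
    simp only [zero_smul, add_zero] at this
    exact this.eventually (isOpen_interior.mem_nhds hmid)
  have h2 : ∀ᶠ s : ℝ in 𝓝[>] 0, (1 / 2 : ℝ) • z + (1 / 2 : ℝ) • y + s • ν ∈ interior K :=
    h1.filter_mono nhdsWithin_le_nhds
  obtain ⟨s, hs, hs0⟩ := (h2.and self_mem_nhdsWithin).exists
  have hs0' : (0 : ℝ) < s := hs0
  have h3 := hν.2 _ (interior_subset hs)
  have h4 : (1 / 2 : ℝ) • z + (1 / 2 : ℝ) • y + s • ν - y = (1 / 2 : ℝ) • (z - y) + s • ν := by
    module
  rw [h4, inner_add_left, inner_smul_left, inner_smul_left, real_inner_self_eq_norm_sq,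
    hν.1] at h3
  simp only [conj_trivial] at h3
  linarith

omit [FiniteDimensional ℝ E] in
/-- Uniqueness of the tangent point. -/
theorem tangent_unique {K : Set E} (hK : StrictConvex ℝ K) {j : E →ₗ[ℝ] E} (hj : IsCplx j)
    {y y' ν ν' : E} {t t' : ℝ} (hy : y ∈ K) (hy' : y' ∈ K) (hν : IsOuterNormal K y ν)
    (hν' : IsOuterNormal K y' ν') (ht : 0 < t) (ht' : 0 < t')
    (h : y - t • j ν = y' - t' • j ν') : y = y' := by
  by_contra hne
  have h1 := hν.lt hK hy hy' (Ne.symm hne)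
  have h2 := hν'.lt hK hy' hy hne
  have e : y - y' = t • j ν - t' • j ν' := by
    calc y - y' = (y - t • j ν) - (y' - t' • j ν') + (t • j ν - t' • j ν') := by abel
      _ = _ := by rw [h]; abel
  have e' : y' - y = t' • j ν' - t • j ν := by
    rw [← neg_sub y y', e]
    abel
  rw [e', inner_sub_left, inner_smul_left, inner_smul_left, hj.inner_self] at h1
  rw [e, inner_sub_left, inner_smul_left, inner_smul_left, hj.inner_self, hj.skew,
    real_inner_comm] at h2
  simp only [conj_trivial, mul_zero, sub_zero] at h1 h2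
  have h3 : ⟪j ν', ν⟫_ℝ < 0 := by
    by_contra hcon
    push Not at hcon
    have : 0 ≤ t' * ⟪j ν', ν⟫_ℝ := by positivity
    linarith
  nlinarith

omit [FiniteDimensional ℝ E] in
/-- Points of the tangent space are outside. -/
theorem tangent_notMem {K : Set E} (hK : StrictConvex ℝ K) {j : E →ₗ[ℝ] E} (hj : IsCplx j)
    {y ν : E} {t : ℝ} (hy : y ∈ K) (hν : IsOuterNormal K y ν) (ht : t ≠ 0) :
    y + t • j ν ∉ K := by
  intro h
  have hne : y + t • j ν ≠ y := by
    intro h1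
    have h2 : t • j ν = 0 := by
      calc t • j ν = (y + t • j ν) - y := by abel
        _ = 0 := by rw [h1, sub_self]
    rcases smul_eq_zero.mp h2 with h3 | h3
    · exact ht h3
    · have := hj.norm ν
      rw [h3, norm_zero, hν.1] at this
      exact zero_ne_one this
  have h1 := hν.lt hK hy h hne
  rw [add_sub_cancel_left, inner_smul_left, hj.inner_self] at h1
  simp at h1

end Pool.Agent.MP_d967a3_an
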