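import Mathlib
import Pool.Agent.Lib.MP_d967a3_an.OuterStmt
import Pool.Agent.Lib.MP_d967a3_an.Tangent
import Pool.Agent.Lib.MP_d967a3_an.Sym

/-!
# A convex body without symmetries whose outer billiard map has an invariant hypersurface
-/

open scoped InnerProductSpace ContDiff Topology
open Set Filter

namespace Pool.Agent.MP_d967a3_an

section general

variable {κ : Type*} [Fintype κ] [DecidableEq κ]

omit [DecidableEq κ] in
/-- The defining function of the ellipsoid. -/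
lemma defining_Q {w : κ → ℝ} {m : ℝ} (hm : 0 < m) (hw : ∀ i, m ≤ w i) :
    Defining fun x => Q w x - 1 := by
  have hf : ContDiff ℝ ∞ fun x => Q w x - 1 := (contDiff_Q w).sub contDiff_const
  refine ⟨hf, ?_, ?_, 0, ?_⟩
  · intro x v hv
    have h1 : fderiv ℝ (fun x => Q w x - 1) = fderiv ℝ (Q w) := by
      funext y
      exact fderiv_sub_const 1
    rw [h1, hessian_Q]
    have h2 := le_Q hw v
    have h3 : 0 < ‖v‖ ^ 2 := by
      have := norm_pos_iff.mpr hv
      positivity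
    have h4 := mul_pos hm h3
    linarith
  · apply (isCompact_closedBall (0 : EuclideanSpace ℝ κ) (m⁻¹ + 1)).of_isClosed_subset
      (isClosed_le hf.continuous continuous_const)
    intro x hx
    rw [mem_closedBall_zero_iff]
    have hx' : Q w x - 1 ≤ 0 := hx
    have h1 : m * ‖x‖ ^ 2 ≤ 1 := by
      have := le_Q hw x
      linarith
    have h2 : ‖x‖ ^ 2 ≤ m⁻¹ := by
      rw [← one_div, le_div_iff₀ hm]
      linarith
    by_contra hcon
    push Not at hcon
    have h3 : 0 < m⁻¹ := inv_pos.mpr hm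
    nlinarith [norm_nonneg x]
  · rw [Q_eq]
    simp

/-- A point with an outer normal is on the boundary. -/
lemma Defining.zero_of_normal {E : Type*} [NormedAddCommGroup E] [InnerProductSpace ℝ E]
    {f : E → ℝ} (hf : Defining f) {y ν : E} (hy : f y ≤ 0)
    (hν : IsOuterNormal {x | f x ≤ 0} y ν) : f y = 0 := by
  refine le_antisymm hy ?_
  by_contra hcon
  push Not at hcon
  have hmem : y ∈ interior {x | f x ≤ 0} := hf.mem_interior_iff.mpr hcon
  have h1 : ∀ᶠ s : ℝ in 𝓝 0, y + s • ν ∈ interior {x | f x ≤ 0} := by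
    have hc : Continuous fun s : ℝ => y + s • ν := by fun_prop
    have := hc.tendsto 0
    simp only [zero_smul, add_zero] at this
    exact this.eventually (isOpen_interior.mem_nhds hmem)
  have h2 : ∀ᶠ s : ℝ in 𝓝[>] 0, y + s • ν ∈ interior {x | f x ≤ 0} :=
    h1.filter_mono nhdsWithin_le_nhds
  obtain ⟨s, hs, hs0⟩ := (h2.and self_mem_nhdsWithin).exists
  have hs0' : (0 : ℝ) < s := hs0
  have h3 := hν.2 _ (interior_subset hs)
  rw [add_sub_cancel_left, inner_smul_left, real_inner_self_eq_norm_sq, hν.1] at h3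
  simp only [conj_trivial] at h3
  linarith

/-- The key lemma: the tangent point of a point on the level set of the integral. -/
lemma exists_tangent_level {w w' : κ → ℝ} (hw : ∀ i, 0 < w i) {m : ℝ} (hm : 0 < m)
    (hmw : ∀ i, m ≤ w i) (hw' : ∀ i, 0 ≤ w' i) {c : ℝ} {f : EuclideanSpace ℝ κ → ℝ}
    (hQf : ∀ x, Q w x - 1 ≤ f x)
    (hout : ∀ x, x ∉ {x : EuclideanSpace ℝ κ | c < Q w' x} → f x = Q w x - 1)
    {j : EuclideanSpace ℝ κ →ₗ[ℝ] EuclideanSpace ℝ κ} (hj : IsCplx j)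
    (hcross : ∀ y, ⟪diag w' y, j (diag w y)⟫_ℝ = 0) {x : EuclideanSpace ℝ κ}
    (hx : 0 < f x) (hc : Q w' x = c) :
    ∃ (y ν : EuclideanSpace ℝ κ) (t : ℝ), f y = 0 ∧ IsOuterNormal {x | f x ≤ 0} y ν ∧ 0 < t ∧
      x = y - t • j ν ∧ Q w' (y + t • j ν) = c := by
  have hD := defining_Q hm hmw
  have hxG : x ∉ {x : EuclideanSpace ℝ κ | c < Q w' x} := not_lt.mpr hc.le
  have hxE : x ∉ {x : EuclideanSpace ℝ κ | Q w x - 1 ≤ 0} := by
    rw [hout x hxG] at hx
    exact not_le.mpr hx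
  obtain ⟨y, ν, t, hy, hν, ht, hxy⟩ := exists_tangent hD.compact
    (by obtain ⟨z, hz⟩ := hD.neg; exact ⟨z, hz.le⟩) hD.strictConvex.convex hj hxE
  have hy0 : Q w y - 1 = 0 := hD.zero_of_normal hy hν
  obtain ⟨ν₀, hν₀, d, hd, hdν⟩ := hD.exists_normal hy0
  have hνν : ν = ν₀ := hD.normal_unique hy0 hν hν₀
  have hN : diag w y = (d / 2) • ν := by
    apply ext_inner_right ℝ
    intro u
    have h2 := hdν u
    have h1 : fderiv ℝ (fun x => Q w x - 1) y = dQ w y := by
      rw [fderiv_sub_const, fderiv_Q]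
    rw [h1, dQ_apply, ← hνν] at h2
    rw [inner_smul_left]
    simp only [conj_trivial]
    linarith
  have hcr : ⟪diag w' y, j ν⟫_ℝ = 0 := by
    have h1 := hcross y
    rw [hN, map_smul, inner_smul_right] at h1
    rcases mul_eq_zero.mp h1 with h2 | h2
    · linarith
    · exact h2
  have e1 : Q w' (y - t • j ν) = Q w' y + t ^ 2 * Q w' (j ν) := by
    rw [sub_eq_add_neg, ← neg_smul, Q_add, Q_smul, inner_smul_right, hcr]
    ring
  have e2 : Q w' (y + t • j ν) = Q w' y + t ^ 2 * Q w' (j ν) := by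
    rw [Q_add, Q_smul, inner_smul_right, hcr]
    ring
  have hQj : 0 ≤ t ^ 2 * Q w' (j ν) := mul_nonneg (sq_nonneg _) (Q_nonneg hw' _)
  have hyG : y ∉ {x : EuclideanSpace ℝ κ | c < Q w' x} := by
    have h1 : Q w' y ≤ c := by
      rw [← hc, hxy, e1]
      linarith
    exact not_lt.mpr h1
  refine ⟨y, ν, t, ?_, ⟨hν.1, fun z hz => hν.2 z ?_⟩, ht, hxy, ?_⟩
  · rw [hout y hyG]
    exact hy0
  · have hz' : f z ≤ 0 := hz
    exact (hQf z).trans hz'
  · rw [e2, ← e1, ← hxy, hc]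

end general

section J

variable {m : ℕ}

/-- The complex structure as a linear map. -/
noncomputable def Jl (m : ℕ) :
    EuclideanSpace ℝ (Fin m ⊕ Fin m) →ₗ[ℝ] EuclideanSpace ℝ (Fin m ⊕ Fin m) where
  toFun := J
  map_add' u v := by
    ext k
    rcases k with i | i
    · simp [J]
      ring
    · simp [J]
  map_smul' c u := by
    ext k
    rcases k with i | i <;> simp [J]

lemma Jl_apply (u : EuclideanSpace ℝ (Fin m ⊕ Fin m)) : Jl m u = J u := rfl

lemma J_inl (u : EuclideanSpace ℝ (Fin m ⊕ Fin m)) (i : Fin m) :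
    J u (Sum.inl i) = -u (Sum.inr i) := rfl

lemma J_inr (u : EuclideanSpace ℝ (Fin m ⊕ Fin m)) (i : Fin m) :
    J u (Sum.inr i) = u (Sum.inl i) := rfl

lemma isCplx_Jl : IsCplx (Jl m) where
  sq u := by
    ext k
    rcases k with i | i
    · rw [Jl_apply, Jl_apply, J_inl, J_inr, PiLp.neg_apply]
    · rw [Jl_apply, Jl_apply, J_inr, J_inl, PiLp.neg_apply]
  norm u := by
    have h1 : ‖Jl m u‖ ^ 2 = ‖u‖ ^ 2 := by
      rw [norm_sq_eq, norm_sq_eq, Fintype.sum_sum_type, Fintype.sum_sum_type, add_comm]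
      simp only [Jl_apply, J_inl, J_inr, neg_sq]
    exact (pow_left_inj₀ (norm_nonneg _) (norm_nonneg _) two_ne_zero).mp h1

lemma cross_zero (w : Fin m ⊕ Fin m → ℝ) (a : Fin m → ℝ)
    (y : EuclideanSpace ℝ (Fin m ⊕ Fin m)) :
    ⟪diag (fun k => Sum.elim a a k * w k) y, Jl m (diag w y)⟫_ℝ = 0 := by
  rw [inner_diag, Fintype.sum_sum_type, ← Finset.sum_add_distrib]
  apply Finset.sum_eq_zero
  intro i _
  rw [Jl_apply, J_inl, J_inr, diag_apply, diag_apply]
  simp only [Sum.elim_inl, Sum.elim_inr]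
  ring

/-- The dented ellipsoid keeps an invariant hypersurface of the outer billiard map. -/
theorem outer_example {w : Fin m ⊕ Fin m → ℝ} {i₀ i₁ : Fin m} (h01 : i₁ ≠ i₀)
    (hw : ∀ i, 0 < w i) (hmax : ∀ k, k ≠ Sum.inl i₀ → w (Sum.inl i₀) < w k)
    (hinj : Function.Injective w) :
    ∃ K : Set (EuclideanSpace ℝ (Fin m ⊕ Fin m)), IsSmoothBody K ∧ ¬ IsEllipsoid K ∧
      (∀ g : EuclideanSpace ℝ (Fin m ⊕ Fin m) ≃ᵃⁱ[ℝ] EuclideanSpace ℝ (Fin m ⊕ Fin m),
        g '' K = K → ∀ x, g x = x) ∧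
      ∃ T : EuclideanSpace ℝ (Fin m ⊕ Fin m) → EuclideanSpace ℝ (Fin m ⊕ Fin m),
        IsOuterBilliardMap K T ∧ ∃ S, IsOuterHypersurface K S ∧ T '' S = S := by
  classical
  have : Nontrivial (Fin m ⊕ Fin m) := ⟨⟨Sum.inl i₀, Sum.inr i₀, by simp⟩⟩
  obtain ⟨a, ha⟩ : ∃ a : Fin m → ℝ, a = fun i => if i = i₀ then 1 else 0 := ⟨_, rfl⟩
  obtain ⟨w', hw'⟩ : ∃ w' : Fin m ⊕ Fin m → ℝ, w' = fun k => Sum.elim a a k * w k := ⟨_, rfl⟩
  have hw'0 : ∀ k, 0 ≤ w' k := by
    intro k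
    rw [hw']
    rcases k with i | i
    · simp only [Sum.elim_inl, ha]
      split_ifs
      · simpa using (hw _).le
      · simp
    · simp only [Sum.elim_inr, ha]
      split_ifs
      · simpa using (hw _).le
      · simp
  have hw'l : w' (Sum.inl i₀) = w (Sum.inl i₀) := by
    rw [hw']
    simp [ha]
  have hw'1 : w' (Sum.inl i₁) = 0 := by
    rw [hw']
    simp [ha, h01]
  have hGo : IsOpen {x : EuclideanSpace ℝ (Fin m ⊕ Fin m) | 1 / 2 < Q w' x} :=
    isOpen_lt continuous_const (contDiff_Q w').continuous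
  have hGv : vertex w (Sum.inl i₀) ∈ {x | 1 / 2 < Q w' x} := by
    change 1 / 2 < Q w' (vertex w (Sum.inl i₀))
    rw [vertex, Q_single, hw'l, inv_pow, Real.sq_sqrt (hw _).le, mul_inv_cancel₀ (hw _).ne']
    norm_num
  obtain ⟨f, hf, hQf, hout, hsym, hell⟩ := exists_dented hw (Sum.inl i₀) hmax hinj hGo hGv
  have hmw : ∀ k, w (Sum.inl i₀) ≤ w k := by
    intro k
    by_cases hk : k = Sum.inl i₀
    · rw [hk]
    · exact (hmax k hk).le
  have hne : {x | f x ≤ 0}.Nonempty := by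
    obtain ⟨z, hz⟩ := hf.neg
    exact ⟨z, hz.le⟩
  have hfr : ∀ y, f y = 0 → y ∈ frontier {x | f x ≤ 0} := by
    intro y hy
    refine ⟨subset_closure hy.le, fun h => ?_⟩
    rw [hf.mem_interior_iff] at h
    linarith
  have hcross : ∀ y, ⟪diag w' y, Jl m (diag w y)⟫_ℝ = 0 := by
    intro y
    rw [hw']
    exact cross_zero w a y
  have hcross' : ∀ y, ⟪diag w' y, (-Jl m) (diag w y)⟫_ℝ = 0 := by
    intro y
    rw [LinearMap.neg_apply, inner_neg_right, hcross, neg_zero]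
  refine ⟨{x | f x ≤ 0}, hf.isSmoothBody, hell, hsym, ?_⟩
  -- the map
  have hex : ∀ x, x ∉ {x | f x ≤ 0} → ∃ z, z ∉ {x | f x ≤ 0} ∧
      ∃ (y ν : EuclideanSpace ℝ (Fin m ⊕ Fin m)) (t : ℝ), y ∈ frontier {x | f x ≤ 0} ∧
        IsOuterNormal {x | f x ≤ 0} y ν ∧ 0 < t ∧ x = y - t • J ν ∧ z = (2 : ℝ) • y - x := by
    intro x hx
    obtain ⟨y, ν, t, hy, hν, ht, hxy⟩ := exists_tangent hf.compact hne hf.strictConvex.convex
      isCplx_Jl hx
    refine ⟨(2 : ℝ) • y - x, ?_, y, ν, t, hfr y (hf.zero_of_normal hy hν), hν, ht, hxy, rfl⟩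
    have e : (2 : ℝ) • y - x = y + t • Jl m ν := by
      rw [hxy]
      module
    rw [e]
    exact tangent_notMem hf.strictConvex isCplx_Jl hy hν ht.ne'
  choose! T hT using hex
  have hTeq : ∀ (x y ν : EuclideanSpace ℝ (Fin m ⊕ Fin m)) (t : ℝ), x ∉ {x | f x ≤ 0} →
      f y = 0 → IsOuterNormal {x | f x ≤ 0} y ν → 0 < t → x = y - t • Jl m ν →
      T x = (2 : ℝ) • y - x := by
    intro x y ν t hx hy hν ht hxy
    obtain ⟨-, y', ν', t', hy', hν', ht', hxy', hTx⟩ := hT x hx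
    have hy'K : y' ∈ {x | f x ≤ 0} := hf.compact.isClosed.frontier_subset hy'
    have h1 : y = y' := tangent_unique hf.strictConvex isCplx_Jl (j := Jl m) hy.le hy'K hν hν'
      ht ht' (hxy.symm.trans hxy')
    rw [hTx, h1]
  refine ⟨T, hT, {x | f x ≤ 0}ᶜ ∩ {x | Q w' x = 1 / 2}, ⟨?_, ?_, ?_⟩, ?_⟩
  · -- the hypersurface is nonempty
    obtain ⟨p, hp⟩ : ∃ p : EuclideanSpace ℝ (Fin m ⊕ Fin m),
        p = EuclideanSpace.single (Sum.inl i₀) (Real.sqrt (1 / 2 * (w (Sum.inl i₀))⁻¹)) :=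
      ⟨_, rfl⟩
    obtain ⟨q, hq⟩ : ∃ q : EuclideanSpace ℝ (Fin m ⊕ Fin m), q = vertex w (Sum.inl i₁) := ⟨_, rfl⟩
    have h10 : (Sum.inl i₁ : Fin m ⊕ Fin m) ≠ Sum.inl i₀ := fun h => h01 (Sum.inl.inj h)
    have horth : ∀ v : Fin m ⊕ Fin m → ℝ, ⟪diag v p, q⟫_ℝ = 0 := by
      intro v
      rw [inner_diag]
      apply Finset.sum_eq_zero
      intro k _
      by_cases hk : k = Sum.inl i₀
      · have : q k = 0 := by
          rw [hq, hk]
          exact vertex_apply_ne w (Ne.symm h10)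
        rw [this, mul_zero]
      · have : p k = 0 := by
          rw [hp]
          simp [hk]
        rw [this, mul_zero, zero_mul]
    have hs : (0 : ℝ) ≤ 1 / 2 * (w (Sum.inl i₀))⁻¹ := by
      have := hw (Sum.inl i₀)
      positivity
    have hw0 := (hw (Sum.inl i₀)).ne'
    have hw1 := (hw (Sum.inl i₁))
    have h1 : Q w' (p + q) = 1 / 2 := by
      rw [Q_add, horth, hp, hq, vertex, Q_single, Q_single, hw'l, hw'1, Real.sq_sqrt hs]
      field_simp
      ring
    have h2 : Q w (p + q) = 3 / 2 := by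
      rw [Q_add, horth, hp, hq, Q_single, Q_vertex hw1, Real.sq_sqrt hs]
      field_simp
      ring
    refine ⟨p + q, ?_, h1⟩
    have h3 := (hout (p + q) (not_lt.mpr h1.le)).1
    have h4 : ¬ f (p + q) ≤ 0 := by
      rw [h3, h2]
      norm_num
    exact h4
  · exact ⟨{x | Q w' x = 1 / 2}, isClosed_eq (contDiff_Q w').continuous continuous_const, rfl⟩
  · rintro x ⟨hx, hQx⟩
    have hQx' : Q w' x = 1 / 2 := hQx
    refine ⟨univ, fun x => Q w' x - 1 / 2, isOpen_univ, mem_univ _,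
      (contDiff_Q w').sub contDiff_const, ?_, ?_⟩
    · intro y hy
      constructor
      · intro h
        have h1 : Q w' y = 1 / 2 := h.2
        linarith
      · intro h
        refine ⟨hy.1, ?_⟩
        change Q w' y = 1 / 2
        linarith
    · rw [fderiv_sub_const, fderiv_Q]
      intro h
      have h1 := congrArg (fun L : EuclideanSpace ℝ (Fin m ⊕ Fin m) →L[ℝ] ℝ => L x) h
      simp only [dQ_apply] at h1
      have h2 : 2 * Q w' x = 0 := h1
      linarith
  · apply Subset.antisymm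
    · rintro _ ⟨x, ⟨hx, hQx⟩, rfl⟩
      refine ⟨(hT x hx).1, ?_⟩
      have hx' : 0 < f x := not_le.mp hx
      obtain ⟨y, ν, t, hy, hν, ht, hxy, hc⟩ := exists_tangent_level hw (hw _) hmw hw'0 hQf
        (fun x hx => (hout x hx).1) isCplx_Jl hcross hx' hQx
      change Q w' (T x) = 1 / 2
      rw [hTeq x y ν t hx hy hν ht hxy]
      have e : (2 : ℝ) • y - x = y + t • Jl m ν := by
        rw [hxy]
        module
      rw [e, hc]
    · rintro z ⟨hz, hQz⟩
      have hz' : 0 < f z := not_le.mp hz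
      obtain ⟨y, ν, t, hy, hν, ht, hxy, hc⟩ := exists_tangent_level hw (hw _) hmw hw'0 hQf
        (fun x hx => (hout x hx).1) isCplx_Jl.neg hcross' hz' hQz
      have e : y + t • (-Jl m) ν = y - t • Jl m ν := by
        rw [LinearMap.neg_apply, smul_neg, sub_eq_add_neg]
      have hx : y - t • Jl m ν ∉ {x | f x ≤ 0} := by
        rw [sub_eq_add_neg, ← neg_smul]
        exact tangent_notMem hf.strictConvex isCplx_Jl hy.le hν (neg_ne_zero.mpr ht.ne')
      rw [e] at hc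
      refine ⟨y - t • Jl m ν, ⟨hx, hc⟩, ?_⟩
      rw [hTeq _ y ν t hx hy hν ht rfl, hxy, LinearMap.neg_apply]
      module

end J

end Pool.Agent.MP_d967a3_an
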