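import Mathlib
import Pool.Agent.Lib.MP_d967a3_an.Sym

/-!
# Bodies which are round outside two cylinders

`E = V₁ ⊕ V₂` is the decomposition of the Euclidean space given by a set `A` of coordinates. The
body `{f ≤ 0}`, `f x = ‖x‖² - 1 - b₁ (x₁) - b₂ (x₂)`, is the unit ball with two bumps, the first one
depending only on the component `x₁` in `V₁`, the second one only on the component `x₂` in `V₂`.
-/

open scoped InnerProductSpace ContDiff Topology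
open Set Filter

namespace Pool.Agent.MP_d967a3_an

variable {κ : Type*} [Fintype κ] [DecidableEq κ]

/-- The projection to the coordinates in `A`. -/
noncomputable def pr (A : Finset κ) : EuclideanSpace ℝ κ →L[ℝ] EuclideanSpace ℝ κ :=
  diag fun i => if i ∈ A then 1 else 0

lemma pr_apply (A : Finset κ) (x : EuclideanSpace ℝ κ) (i : κ) :
    pr A x i = if i ∈ A then x i else 0 := by
  rw [pr, diag_apply]
  split_ifs <;> simp

@[simp] lemma pr_pr (A : Finset κ) (x : EuclideanSpace ℝ κ) : pr A (pr A x) = pr A x := by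
  ext i
  rw [pr_apply, pr_apply]
  split_ifs <;> rfl

@[simp] lemma pr_compl_pr (A : Finset κ) (x : EuclideanSpace ℝ κ) : pr Aᶜ (pr A x) = 0 := by
  ext i
  rw [pr_apply, pr_apply]
  by_cases h : i ∈ A <;> simp [h]

@[simp] lemma pr_pr_compl (A : Finset κ) (x : EuclideanSpace ℝ κ) : pr A (pr Aᶜ x) = 0 := by
  ext i
  rw [pr_apply, pr_apply]
  by_cases h : i ∈ A <;> simp [h]

lemma pr_add_pr (A : Finset κ) (x : EuclideanSpace ℝ κ) : pr A x + pr Aᶜ x = x := by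
  ext i
  rw [PiLp.add_apply, pr_apply, pr_apply]
  by_cases h : i ∈ A <;> simp [h]

lemma inner_pr (A : Finset κ) (x y : EuclideanSpace ℝ κ) : ⟪pr A x, y⟫_ℝ = ⟪x, pr A y⟫_ℝ := by
  rw [pr, diag_symm, real_inner_comm]

lemma inner_pr_pr (A : Finset κ) (x y : EuclideanSpace ℝ κ) :
    ⟪pr A x, pr A y⟫_ℝ = ⟪pr A x, y⟫_ℝ := by
  rw [inner_pr A x, pr_pr, ← inner_pr]

lemma inner_pr_compl (A : Finset κ) (x y : EuclideanSpace ℝ κ) : ⟪pr A x, pr Aᶜ y⟫_ℝ = 0 := by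
  rw [inner_pr, pr_pr_compl, inner_zero_right]

lemma inner_eq_pr (A : Finset κ) (x y : EuclideanSpace ℝ κ) :
    ⟪x, y⟫_ℝ = ⟪pr A x, pr A y⟫_ℝ + ⟪pr Aᶜ x, pr Aᶜ y⟫_ℝ := by
  rw [inner_pr_pr, inner_pr_pr, ← inner_add_left, pr_add_pr]

lemma norm_sq_pr (A : Finset κ) (x : EuclideanSpace ℝ κ) :
    ‖x‖ ^ 2 = ‖pr A x‖ ^ 2 + ‖pr Aᶜ x‖ ^ 2 := by
  rw [← real_inner_self_eq_norm_sq, ← real_inner_self_eq_norm_sq, ← real_inner_self_eq_norm_sq,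
    ← inner_eq_pr]

lemma norm_pr_le (A : Finset κ) (x : EuclideanSpace ℝ κ) : ‖pr A x‖ ≤ ‖x‖ := by
  have h := norm_sq_pr A x
  have h2 := sq_nonneg ‖pr Aᶜ x‖
  exact (pow_le_pow_iff_left₀ (norm_nonneg _) (norm_nonneg _) two_ne_zero).mp (by linarith)

lemma Q_pr (A : Finset κ) (w : κ → ℝ) (x : EuclideanSpace ℝ κ) :
    Q w x = Q w (pr A x) + Q w (pr Aᶜ x) := by
  rw [Q_eq, Q_eq, Q_eq, ← Finset.sum_add_distrib]
  refine Finset.sum_congr rfl fun i _ => ?_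
  rw [pr_apply, pr_apply]
  by_cases h : i ∈ A <;> simp [h]

omit [DecidableEq κ] in
lemma Q_one (x : EuclideanSpace ℝ κ) : Q (fun _ => (1 : ℝ)) x = ‖x‖ ^ 2 := by
  rw [Q_eq, norm_sq_eq]
  simp

section calculus

variable {E : Type*} [NormedAddCommGroup E] [NormedSpace ℝ E]

lemma fderiv_comp_clm {χ : E → ℝ} (hχ : ContDiff ℝ ∞ χ) (L : E →L[ℝ] E) (x v : E) :
    fderiv ℝ (fun x => χ (L x)) x v = fderiv ℝ χ (L x) (L v) := by
  have h1 : HasFDerivAt (fun x => χ (L x)) ((fderiv ℝ χ (L x)).comp L) x :=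
    ((hχ.differentiable (by norm_num) (L x)).hasFDerivAt).comp x L.hasFDerivAt
  rw [h1.fderiv]
  rfl

lemma hessian_comp_clm {χ : E → ℝ} (hχ : ContDiff ℝ ∞ χ) (L : E →L[ℝ] E) (x v : E) :
    fderiv ℝ (fderiv ℝ (fun x => χ (L x))) x v v =
      fderiv ℝ (fderiv ℝ χ) (L x) (L v) (L v) := by
  have h1 := hasDerivAt_line2 (hχ.comp L.contDiff) x v 0
  have h2 := hasDerivAt_line2 hχ (L x) (L v) 0
  rw [zero_smul, add_zero] at h1 h2
  have h3 : (fun s : ℝ => fderiv ℝ (χ ∘ L) (x + s • v) v) =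
      fun s : ℝ => fderiv ℝ χ (L x + s • L v) (L v) := by
    funext s
    have h4 := fderiv_comp_clm hχ L (x + s • v) v
    rw [map_add, map_smul] at h4
    exact h4
  rw [h3] at h1
  exact h1.unique h2

lemma gradient_bounded {χ : E → ℝ} (hχ : ContDiff ℝ ∞ χ) (hc : HasCompactSupport χ) :
    ∃ M, 0 ≤ M ∧ ∀ x v, |fderiv ℝ χ x v| ≤ M * ‖v‖ := by
  have h1 : Continuous fun x => ‖fderiv ℝ χ x‖ :=
    (hχ.continuous_fderiv (by norm_num)).norm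
  obtain ⟨M, hM⟩ := (IsCompact.bddAbove_image hc h1.continuousOn)
  refine ⟨max M 0, le_max_right _ _, fun x v => ?_⟩
  have h2 : ‖fderiv ℝ χ x‖ ≤ max M 0 := by
    by_cases hx : x ∈ tsupport χ
    · exact (hM ⟨x, hx, rfl⟩).trans (le_max_left _ _)
    · have h3 : fderiv ℝ χ x = 0 := by
        have h0 : χ =ᶠ[𝓝 x] fun _ => 0 := by
          filter_upwards [(isClosed_tsupport χ).isOpen_compl.mem_nhds hx] with y hy
          exact image_eq_zero_of_notMem_tsupport hy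
        rw [h0.fderiv_eq]
        exact fderiv_const_apply _
      rw [h3, norm_zero]
      exact le_max_right _ _
  have h4 := (fderiv ℝ χ x).le_opNorm v
  rw [Real.norm_eq_abs] at h4
  exact h4.trans (mul_le_mul_of_nonneg_right h2 (norm_nonneg _))

end calculus

/-- The unit ball with two bumps `b₁`, `b₂`. -/
structure Split (A : Finset κ) (r : ℝ) (b₁ b₂ f : EuclideanSpace ℝ κ → ℝ) : Prop where
  smooth₁ : ContDiff ℝ ∞ b₁
  smooth₂ : ContDiff ℝ ∞ b₂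
  nonneg₁ : ∀ x, 0 ≤ b₁ x
  nonneg₂ : ∀ x, 0 ≤ b₂ x
  le₁ : ∀ x, b₁ x ≤ 1 / 4
  le₂ : ∀ x, b₂ x ≤ 1 / 4
  zero₁ : ∀ x, r ≤ ‖x‖ → b₁ x = 0
  zero₂ : ∀ x, r ≤ ‖x‖ → b₂ x = 0
  grad₁ : ∀ x v, |fderiv ℝ b₁ x v| ≤ r * ‖v‖
  grad₂ : ∀ x v, |fderiv ℝ b₂ x v| ≤ r * ‖v‖
  defining : Defining f
  eq : ∀ x, f x = ‖x‖ ^ 2 - 1 - b₁ (pr A x) - b₂ (pr Aᶜ x)

namespace Split

variable {A : Finset κ} {r : ℝ} {b₁ b₂ f : EuclideanSpace ℝ κ → ℝ}

lemma symm (h : Split A r b₁ b₂ f) : Split Aᶜ r b₂ b₁ f where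
  smooth₁ := h.smooth₂
  smooth₂ := h.smooth₁
  nonneg₁ := h.nonneg₂
  nonneg₂ := h.nonneg₁
  le₁ := h.le₂
  le₂ := h.le₁
  zero₁ := h.zero₂
  zero₂ := h.zero₁
  grad₁ := h.grad₂
  grad₂ := h.grad₁
  defining := h.defining
  eq x := by
    rw [h.eq, compl_compl]
    ring

lemma le (h : Split A r b₁ b₂ f) (x : EuclideanSpace ℝ κ) : f x ≤ ‖x‖ ^ 2 - 1 := by
  rw [h.eq]
  linarith [h.nonneg₁ (pr A x), h.nonneg₂ (pr Aᶜ x)]

lemma ge (h : Split A r b₁ b₂ f) (x : EuclideanSpace ℝ κ) : ‖x‖ ^ 2 - 3 / 2 ≤ f x := by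
  rw [h.eq]
  linarith [h.le₁ (pr A x), h.le₂ (pr Aᶜ x)]

lemma fderiv_eq (h : Split A r b₁ b₂ f) (x v : EuclideanSpace ℝ κ) :
    fderiv ℝ f x v = 2 * ⟪x, v⟫_ℝ - fderiv ℝ b₁ (pr A x) (pr A v) -
      fderiv ℝ b₂ (pr Aᶜ x) (pr Aᶜ v) := by
  have e : f = fun x => ‖x‖ ^ 2 - 1 - b₁ (pr A x) - b₂ (pr Aᶜ x) := funext h.eq
  have h0 : HasFDerivAt (fun x : EuclideanSpace ℝ κ => ‖x‖ ^ 2) (2 • innerSL ℝ x) x :=
    (hasStrictFDerivAt_norm_sq x).hasFDerivAt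
  have h1 : HasFDerivAt (fun x => b₁ (pr A x)) ((fderiv ℝ b₁ (pr A x)).comp (pr A)) x :=
    ((h.smooth₁.differentiable (by norm_num) (pr A x)).hasFDerivAt).comp x (pr A).hasFDerivAt
  have h2 : HasFDerivAt (fun x => b₂ (pr Aᶜ x)) ((fderiv ℝ b₂ (pr Aᶜ x)).comp (pr Aᶜ)) x :=
    ((h.smooth₂.differentiable (by norm_num) (pr Aᶜ x)).hasFDerivAt).comp x (pr Aᶜ).hasFDerivAt
  have h3 : HasFDerivAt (fun x => ‖x‖ ^ 2 - 1 - b₁ (pr A x) - b₂ (pr Aᶜ x))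
      (2 • (innerSL ℝ) x - (fderiv ℝ b₁ (pr A x)).comp (pr A) -
        (fderiv ℝ b₂ (pr Aᶜ x)).comp (pr Aᶜ)) x := ((h0.sub_const 1).sub h1).sub h2
  rw [e, h3.fderiv]
  simp

/-- A minimum has vanishing derivative. -/
lemma fderiv_zero₁ (h : Split A r b₁ b₂ f) {x : EuclideanSpace ℝ κ} (hx : r ≤ ‖x‖) :
    fderiv ℝ b₁ x = 0 := by
  apply IsLocalMin.fderiv_eq_zero
  refine Filter.Eventually.of_forall fun y => ?_
  rw [h.zero₁ x hx]
  exact h.nonneg₁ y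

/-- Outside the first cylinder the first component of the gradient is that of the sphere. -/
lemma fderiv_pr (h : Split A r b₁ b₂ f) {x : EuclideanSpace ℝ κ} (hx : r ≤ ‖pr A x‖)
    (v : EuclideanSpace ℝ κ) : fderiv ℝ f x (pr A v) = 2 * ⟪pr A x, v⟫_ℝ := by
  rw [h.fderiv_eq, pr_compl_pr, map_zero, h.fderiv_zero₁ hx, ← inner_pr]
  simp

lemma fderiv_pr_le (h : Split A r b₁ b₂ f) (x v : EuclideanSpace ℝ κ) :
    |fderiv ℝ f x (pr A v)| ≤ (2 * ‖pr A x‖ + r) * ‖pr A v‖ := by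
  rw [h.fderiv_eq, pr_compl_pr, map_zero, sub_zero, pr_pr, ← inner_pr, ← inner_pr_pr]
  have h1 := abs_real_inner_le_norm (pr A x) (pr A v)
  have h2 := h.grad₁ (pr A x) (pr A v)
  calc |2 * ⟪pr A x, pr A v⟫_ℝ - fderiv ℝ b₁ (pr A x) (pr A v)|
      ≤ |2 * ⟪pr A x, pr A v⟫_ℝ| + |fderiv ℝ b₁ (pr A x) (pr A v)| := abs_sub _ _
    _ ≤ 2 * (‖pr A x‖ * ‖pr A v‖) + r * ‖pr A v‖ := by
        rw [abs_mul, abs_of_pos (by norm_num : (0 : ℝ) < 2)]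
        linarith
    _ = _ := by ring

/-- On the boundary, if the first component is short then the second one is long. -/
lemma sq_le (h : Split A r b₁ b₂ f) {x : EuclideanSpace ℝ κ} (hx : 0 ≤ f x)
    (h1 : ‖pr A x‖ ≤ r) : 1 - r ^ 2 ≤ ‖pr Aᶜ x‖ ^ 2 := by
  have h2 := h.le x
  have h3 := norm_sq_pr A x
  have h4 : ‖pr A x‖ ^ 2 ≤ r ^ 2 := pow_le_pow_left₀ (norm_nonneg _) h1 2
  linarith

end Split

end Pool.Agent.MP_d967a3_an
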