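import Mathlib
import Pool.Agent.Lib.MP_d967a3_an.StrBody

/-!
# Affine symmetries of a body touched by the unit ball in many points

If a body contains the unit ball and touches it from outside in the points of the sphere which are
far from both subspaces `V₁` and `V₂`, then every affine symmetry of it is a linear isometry.
-/

open scoped InnerProductSpace ContDiff Topology
open Set Filter

namespace Pool.Agent.MP_d967a3_an

variable {κ : Type*} [Fintype κ] [DecidableEq κ]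

/-- The condition of the contact points. -/
def Touch (A : Finset κ) (r : ℝ) (K : Set (EuclideanSpace ℝ κ)) : Prop :=
  ∀ u, ‖u‖ = 1 → r ≤ ‖pr A u‖ → r ≤ ‖pr Aᶜ u‖ → ∀ x ∈ K, ⟪x, u⟫_ℝ ≤ 1

lemma norm_adjoint_add_le {A : Finset κ} {r : ℝ} {K : Set (EuclideanSpace ℝ κ)}
    (hball : Metric.closedBall 0 1 ⊆ K) (ht : Touch A r K)
    {L : EuclideanSpace ℝ κ →ₗ[ℝ] EuclideanSpace ℝ κ} {b : EuclideanSpace ℝ κ}
    (hL : ∀ x ∈ K, L x + b ∈ K) {u : EuclideanSpace ℝ κ} (h1 : ‖u‖ = 1) (h2 : r ≤ ‖pr A u‖)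
    (h3 : r ≤ ‖pr Aᶜ u‖) : ‖LinearMap.adjoint L u‖ + ⟪b, u⟫_ℝ ≤ 1 := by
  set a := LinearMap.adjoint L u with ha
  have hin : ∀ x, ⟪L x, u⟫_ℝ = ⟪x, a⟫_ℝ := fun x => (LinearMap.adjoint_inner_right L x u).symm
  rcases eq_or_ne a 0 with h0 | h0
  · have h4 := ht u h1 h2 h3 _ (hL 0 (hball (by simp)))
    rw [map_zero, zero_add] at h4
    rw [h0, norm_zero, zero_add]
    exact h4
  · have hn : 0 < ‖a‖ := norm_pos_iff.mpr h0
    have h4 := ht u h1 h2 h3 _ (hL (‖a‖⁻¹ • a) (hball (by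
      rw [mem_closedBall_zero_iff, norm_smul, norm_inv, norm_norm, inv_mul_cancel₀ hn.ne'])))
    rw [inner_add_left, hin, inner_smul_left, real_inner_self_eq_norm_sq] at h4
    have h5 : ‖a‖⁻¹ * ‖a‖ ^ 2 = ‖a‖ := by
      field_simp
    simp only [conj_trivial] at h4
    rw [h5] at h4
    exact h4

lemma norm_adjoint_add_abs_le {A : Finset κ} {r : ℝ} {K : Set (EuclideanSpace ℝ κ)}
    (hball : Metric.closedBall 0 1 ⊆ K) (ht : Touch A r K)
    {L : EuclideanSpace ℝ κ →ₗ[ℝ] EuclideanSpace ℝ κ} {b : EuclideanSpace ℝ κ}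
    (hL : ∀ x ∈ K, L x + b ∈ K) {u : EuclideanSpace ℝ κ} (h1 : ‖u‖ = 1) (h2 : r ≤ ‖pr A u‖)
    (h3 : r ≤ ‖pr Aᶜ u‖) : ‖LinearMap.adjoint L u‖ + |⟪b, u⟫_ℝ| ≤ 1 := by
  have h4 := norm_adjoint_add_le hball ht hL h1 h2 h3
  have h5 := norm_adjoint_add_le hball ht hL (u := -u) (by rwa [norm_neg])
    (by rwa [map_neg, norm_neg]) (by rwa [map_neg, norm_neg])
  rw [map_neg, norm_neg, inner_neg_right] at h5
  rcases abs_cases ⟪b, u⟫_ℝ with ⟨h, -⟩ | ⟨h, -⟩ <;> rw [h] <;> linarith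

/-- The coefficients of the frame. -/
lemma frame_contact {A : Finset κ} {r α β : ℝ} (hα : r ≤ α) (hβ : r ≤ β) (hα0 : 0 ≤ α)
    (hβ0 : 0 ≤ β) (h : α ^ 2 + β ^ 2 = 1) {i j : κ} (hi : i ∈ A) (hj : j ∉ A) {σ : ℝ}
    (hσ : σ ^ 2 = 1) :
    ‖EuclideanSpace.single i α + σ • EuclideanSpace.single j β‖ = 1 ∧
      r ≤ ‖pr A (EuclideanSpace.single i α + σ • EuclideanSpace.single j β)‖ ∧
      r ≤ ‖pr Aᶜ (EuclideanSpace.single i α + σ • EuclideanSpace.single j β)‖ := by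
  have hij : i ≠ j := by
    rintro rfl
    exact hj hi
  have e1 : pr A (EuclideanSpace.single i α + σ • EuclideanSpace.single j β) =
      EuclideanSpace.single i α := by
    ext k
    rw [pr_apply]
    by_cases hk : k = i
    · subst hk
      simp [hi, hij]
    · by_cases hk2 : k = j
      · subst hk2
        simp [hj, hk]
      · simp [hk, hk2]
  have e2 : pr Aᶜ (EuclideanSpace.single i α + σ • EuclideanSpace.single j β) =
      σ • EuclideanSpace.single j β := by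
    ext k
    rw [pr_apply]
    by_cases hk : k = i
    · subst hk
      simp [hi, hij]
    · by_cases hk2 : k = j
      · subst hk2
        simp [hj, hk]
      · simp [hk, hk2]
  have hσ' : |σ| = 1 := by
    rw [← sq_abs] at hσ
    have := abs_nonneg σ
    nlinarith
  refine ⟨?_, ?_, ?_⟩
  · have h1 := norm_sq_pr A (EuclideanSpace.single i α + σ • EuclideanSpace.single j β)
    rw [e1, e2, norm_smul, PiLp.norm_single, PiLp.norm_single, Real.norm_eq_abs, Real.norm_eq_abs,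
      Real.norm_eq_abs, hσ', one_mul, sq_abs, sq_abs, h] at h1
    exact (pow_left_inj₀ (norm_nonneg _) zero_le_one two_ne_zero).mp (by rw [h1, one_pow])
  · rw [e1, PiLp.norm_single, Real.norm_eq_abs, abs_of_nonneg hα0]
    exact hα
  · rw [e2, norm_smul, PiLp.norm_single, Real.norm_eq_abs, Real.norm_eq_abs, hσ', one_mul,
      abs_of_nonneg hβ0]
    exact hβ

lemma sum_norm_adjoint_le {A : Finset κ} {r α β : ℝ} {K : Set (EuclideanSpace ℝ κ)}
    (hball : Metric.closedBall 0 1 ⊆ K) (ht : Touch A r K)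
    {L : EuclideanSpace ℝ κ →ₗ[ℝ] EuclideanSpace ℝ κ} {b : EuclideanSpace ℝ κ}
    (hL : ∀ x ∈ K, L x + b ∈ K) (hα : r ≤ α) (hβ : r ≤ β) (hα0 : 0 < α)
    (hβ0 : 0 < β) (hp : α ^ 2 * Fintype.card κ = A.card) (hq : β ^ 2 * Fintype.card κ = Aᶜ.card)
    (hA : A.Nonempty) (hA' : Aᶜ.Nonempty) :
    ∑ k, ‖LinearMap.adjoint L (EuclideanSpace.single k (1 : ℝ))‖ ^ 2 ≤ Fintype.card κ := by
  have hN : (A.card : ℝ) + Aᶜ.card = Fintype.card κ := by
    rw [← Nat.cast_add, Finset.card_add_card_compl]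
  have hp0 : (0 : ℝ) < A.card := by exact_mod_cast hA.card_pos
  have hq0 : (0 : ℝ) < Aᶜ.card := by exact_mod_cast hA'.card_pos
  have hN0 : (0 : ℝ) < Fintype.card κ := by linarith
  have h1 : α ^ 2 + β ^ 2 = 1 := by
    have : (α ^ 2 + β ^ 2) * Fintype.card κ = 1 * Fintype.card κ := by
      rw [add_mul, hp, hq, hN, one_mul]
    exact mul_right_cancel₀ hN0.ne' this
  set a : κ → ℝ := fun k => ‖LinearMap.adjoint L (EuclideanSpace.single k (1 : ℝ))‖ ^ 2 with ha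
  have key : ∀ i ∈ A, ∀ j ∈ Aᶜ, α ^ 2 * a i + β ^ 2 * a j ≤ 1 := by
    intro i hi j hj
    have hj' : j ∉ A := Finset.mem_compl.mp hj
    have hu : ∀ σ : ℝ, σ ^ 2 = 1 → ‖LinearMap.adjoint L
        (EuclideanSpace.single i α + σ • EuclideanSpace.single j β)‖ ^ 2 ≤ 1 := by
      intro σ hσ
      obtain ⟨h2, h3, h4⟩ := frame_contact hα hβ hα0.le hβ0.le h1 hi hj' hσ
      have h5 := norm_adjoint_add_abs_le hball ht hL h2 h3 h4
      have h6 := abs_nonneg ⟪b, EuclideanSpace.single i α + σ • EuclideanSpace.single j β⟫_ℝ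
      have h7 := norm_nonneg (LinearMap.adjoint L
        (EuclideanSpace.single i α + σ • EuclideanSpace.single j β))
      nlinarith
    have h2 := hu 1 (by norm_num)
    have h3 := hu (-1) (by norm_num)
    have e : ∀ (k : κ) (t : ℝ), EuclideanSpace.single k t =
        t • (EuclideanSpace.single k (1 : ℝ)) := by
      intro k t
      ext l
      by_cases hl : l = k <;> simp [hl]
    have h4 := parallelogram_law_with_norm ℝ
      (α • LinearMap.adjoint L (EuclideanSpace.single i (1 : ℝ)))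
      (β • LinearMap.adjoint L (EuclideanSpace.single j (1 : ℝ)))
    rw [e i α, e j β, map_add, map_smul, map_smul, map_smul] at h2 h3
    rw [one_smul] at h2
    rw [neg_one_smul, ← sub_eq_add_neg] at h3
    rw [norm_smul, norm_smul, Real.norm_eq_abs, Real.norm_eq_abs, abs_of_pos hα0,
      abs_of_pos hβ0] at h4
    simp only [ha]
    nlinarith
  have hsum : ∑ i ∈ A, ∑ j ∈ Aᶜ, (α ^ 2 * a i + β ^ 2 * a j) ≤ ∑ i ∈ A, ∑ j ∈ Aᶜ, (1 : ℝ) :=
    Finset.sum_le_sum fun i hi => Finset.sum_le_sum fun j hj => key i hi j hj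
  have e1 : ∑ i ∈ A, ∑ j ∈ Aᶜ, (α ^ 2 * a i + β ^ 2 * a j) =
      Aᶜ.card * (α ^ 2 * ∑ i ∈ A, a i) + A.card * (β ^ 2 * ∑ j ∈ Aᶜ, a j) := by
    simp only [Finset.sum_add_distrib, Finset.sum_const, nsmul_eq_mul, Finset.mul_sum]
  have e2 : ∑ i ∈ A, ∑ j ∈ Aᶜ, (1 : ℝ) = A.card * Aᶜ.card := by
    simp
  rw [e1, e2] at hsum
  have e3 : ∑ k, a k = ∑ i ∈ A, a i + ∑ j ∈ Aᶜ, a j := (Finset.sum_add_sum_compl A a).symm
  rw [e3]
  rw [← hp, ← hq] at hsum
  have h5 : β ^ 2 * α ^ 2 * Fintype.card κ * (∑ i ∈ A, a i + ∑ j ∈ Aᶜ, a j) ≤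
      β ^ 2 * α ^ 2 * Fintype.card κ * Fintype.card κ := by
    linarith
  exact le_of_mul_le_mul_left h5 (by positivity)

lemma sum_norm_adjoint (L : EuclideanSpace ℝ κ →ₗ[ℝ] EuclideanSpace ℝ κ) :
    ∑ k, ‖LinearMap.adjoint L (EuclideanSpace.single k (1 : ℝ))‖ ^ 2 =
      ∑ k, ‖L (EuclideanSpace.single k (1 : ℝ))‖ ^ 2 := by
  have h1 : ∀ k l, (LinearMap.adjoint L (EuclideanSpace.single k (1 : ℝ))) l =
      (L (EuclideanSpace.single l (1 : ℝ))) k := by
    intro k l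
    have h2 := LinearMap.adjoint_inner_left L (EuclideanSpace.single l (1 : ℝ))
      (EuclideanSpace.single k (1 : ℝ))
    rw [EuclideanSpace.inner_single_right, EuclideanSpace.inner_single_left] at h2
    simpa using h2
  calc ∑ k, ‖LinearMap.adjoint L (EuclideanSpace.single k (1 : ℝ))‖ ^ 2
      = ∑ k, ∑ l, (L (EuclideanSpace.single l (1 : ℝ))) k ^ 2 := by
        refine Finset.sum_congr rfl fun k _ => ?_
        rw [norm_sq_eq]
        exact Finset.sum_congr rfl fun l _ => by rw [h1]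
    _ = ∑ l, ∑ k, (L (EuclideanSpace.single l (1 : ℝ))) k ^ 2 := Finset.sum_comm
    _ = _ := Finset.sum_congr rfl fun l _ => (norm_sq_eq _).symm

/-- Affine symmetries are linear isometries. -/
theorem exists_linearIsometry {A : Finset κ} {r α β : ℝ} {K : Set (EuclideanSpace ℝ κ)}
    (hball : Metric.closedBall 0 1 ⊆ K) (ht : Touch A r K)
    (hα : r ≤ α) (hβ : r ≤ β) (hα0 : 0 < α) (hβ0 : 0 < β)
    (hp : α ^ 2 * Fintype.card κ = A.card) (hq : β ^ 2 * Fintype.card κ = Aᶜ.card)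
    (hA : A.Nonempty) (hA' : Aᶜ.Nonempty)
    (g : EuclideanSpace ℝ κ ≃ᵃ[ℝ] EuclideanSpace ℝ κ) (hg : g '' K = K) :
    ∃ L : EuclideanSpace ℝ κ ≃ₗᵢ[ℝ] EuclideanSpace ℝ κ, ∀ x, g x = L x := by
  set L := g.linear with hL
  have hgL : ∀ x, g x = L x + g 0 := by
    intro x
    have := g.map_vadd 0 x
    simpa using this
  have hmem : ∀ x ∈ K, (L : EuclideanSpace ℝ κ →ₗ[ℝ] EuclideanSpace ℝ κ) x + g 0 ∈ K := by
    intro x hx
    have h1 : g x ∈ g '' K := mem_image_of_mem g hx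
    rw [hg, hgL] at h1
    exact h1
  have hmem' : ∀ x ∈ K, (L.symm : EuclideanSpace ℝ κ →ₗ[ℝ] EuclideanSpace ℝ κ) x +
      (-L.symm (g 0)) ∈ K := by
    intro x hx
    rw [← hg] at hx
    obtain ⟨y, hy, rfl⟩ := hx
    have h1 : (L.symm : EuclideanSpace ℝ κ →ₗ[ℝ] EuclideanSpace ℝ κ) (g y) +
        (-L.symm (g 0)) = y := by
      rw [hgL y]
      simp
    rw [h1]
    exact hy
  have h1 := sum_norm_adjoint_le hball ht hmem hα hβ hα0 hβ0 hp hq hA hA'
  have h2 := sum_norm_adjoint_le hball ht hmem' hα hβ hα0 hβ0 hp hq hA hA'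
  rw [sum_norm_adjoint (L.symm : EuclideanSpace ℝ κ →ₗ[ℝ] EuclideanSpace ℝ κ)] at h2
  -- the adjoint is the inverse
  have h3 : ∀ k, LinearMap.adjoint (L : EuclideanSpace ℝ κ →ₗ[ℝ] EuclideanSpace ℝ κ)
      (EuclideanSpace.single k (1 : ℝ)) = L.symm (EuclideanSpace.single k (1 : ℝ)) := by
    have h4 : ∑ k, ‖LinearMap.adjoint (L : EuclideanSpace ℝ κ →ₗ[ℝ] EuclideanSpace ℝ κ)
        (EuclideanSpace.single k (1 : ℝ)) - L.symm (EuclideanSpace.single k (1 : ℝ))‖ ^ 2 ≤ 0 := by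
      have h5 : ∀ k, ‖LinearMap.adjoint (L : EuclideanSpace ℝ κ →ₗ[ℝ] EuclideanSpace ℝ κ)
          (EuclideanSpace.single k (1 : ℝ)) - L.symm (EuclideanSpace.single k (1 : ℝ))‖ ^ 2 =
          ‖LinearMap.adjoint (L : EuclideanSpace ℝ κ →ₗ[ℝ] EuclideanSpace ℝ κ)
          (EuclideanSpace.single k (1 : ℝ))‖ ^ 2 +
          ‖(L.symm : EuclideanSpace ℝ κ →ₗ[ℝ] EuclideanSpace ℝ κ)
            (EuclideanSpace.single k (1 : ℝ))‖ ^ 2 - 2 := by
        intro k
        rw [norm_sub_sq_real, LinearMap.adjoint_inner_left]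
        have h6 : ⟪EuclideanSpace.single k (1 : ℝ),
            (L : EuclideanSpace ℝ κ →ₗ[ℝ] EuclideanSpace ℝ κ)
              (L.symm (EuclideanSpace.single k (1 : ℝ)))⟫_ℝ = 1 := by
          rw [LinearEquiv.coe_coe, LinearEquiv.apply_symm_apply, real_inner_self_eq_norm_sq,
            PiLp.norm_single]
          simp
        rw [h6]
        simp only [LinearEquiv.coe_coe]
        ring
      rw [Finset.sum_congr rfl fun k _ => h5 k, Finset.sum_sub_distrib, Finset.sum_add_distrib]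
      simp only [Finset.sum_const, Finset.card_univ, nsmul_eq_mul]
      linarith
    intro k
    have h6 := (Finset.sum_eq_zero_iff_of_nonneg (fun k _ => sq_nonneg _)).mp
      (le_antisymm h4 (Finset.sum_nonneg fun k _ => sq_nonneg _)) k (Finset.mem_univ k)
    have h7 := norm_eq_zero.mp (pow_eq_zero_iff two_ne_zero |>.mp h6)
    exact sub_eq_zero.mp h7
  have h4 : LinearMap.adjoint (L : EuclideanSpace ℝ κ →ₗ[ℝ] EuclideanSpace ℝ κ) =
      (L.symm : EuclideanSpace ℝ κ →ₗ[ℝ] EuclideanSpace ℝ κ) := by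
    apply (EuclideanSpace.basisFun κ ℝ).toBasis.ext
    intro k
    simpa using h3 k
  have hnorm : ∀ x, ‖L x‖ = ‖x‖ := by
    intro x
    have h5 : ‖L x‖ ^ 2 = ‖x‖ ^ 2 := by
      rw [← real_inner_self_eq_norm_sq, ← real_inner_self_eq_norm_sq]
      have h6 := LinearMap.adjoint_inner_right
        (L : EuclideanSpace ℝ κ →ₗ[ℝ] EuclideanSpace ℝ κ) x (L x)
      rw [h4] at h6
      simp only [LinearEquiv.coe_coe, LinearEquiv.symm_apply_apply] at h6
      exact h6.symm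
    exact (pow_left_inj₀ (norm_nonneg _) (norm_nonneg _) two_ne_zero).mp h5
  have hb : ∀ u, ‖u‖ = 1 → r ≤ ‖pr A u‖ → r ≤ ‖pr Aᶜ u‖ → ⟪g 0, u⟫_ℝ = 0 := by
    intro u h5 h6 h7
    have h8 := norm_adjoint_add_abs_le hball ht hmem h5 h6 h7
    have h9 : ‖L.symm u‖ = 1 := by
      rw [← hnorm, LinearEquiv.apply_symm_apply, h5]
    rw [h4, LinearEquiv.coe_coe, h9] at h8
    exact abs_eq_zero.mp (le_antisymm (by linarith) (abs_nonneg _))
  have h1' : α ^ 2 + β ^ 2 = 1 := by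
    have hN : (A.card : ℝ) + Aᶜ.card = Fintype.card κ := by
      rw [← Nat.cast_add, Finset.card_add_card_compl]
    have hp0 : (0 : ℝ) < A.card := by exact_mod_cast hA.card_pos
    have hq0 : (0 : ℝ) < Aᶜ.card := by exact_mod_cast hA'.card_pos
    have hN0 : (0 : ℝ) < Fintype.card κ := by linarith
    have : (α ^ 2 + β ^ 2) * Fintype.card κ = 1 * Fintype.card κ := by
      rw [add_mul, hp, hq, hN, one_mul]
    exact mul_right_cancel₀ hN0.ne' this
  have hin : ∀ i ∈ A, ∀ j ∈ Aᶜ, ∀ σ : ℝ, σ ^ 2 = 1 → α * g 0 i + σ * (β * g 0 j) = 0 := by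
    intro i hi j hj σ hσ
    obtain ⟨h5, h6, h7⟩ := frame_contact hα hβ hα0.le hβ0.le h1' hi (Finset.mem_compl.mp hj) hσ
    have h8 := hb _ h5 h6 h7
    rw [inner_add_right, inner_smul_right, EuclideanSpace.inner_single_right,
      EuclideanSpace.inner_single_right] at h8
    simpa using h8
  have h0 : g 0 = 0 := by
    obtain ⟨i₀, hi₀⟩ := hA
    obtain ⟨j₀, hj₀⟩ := hA'
    ext k
    by_cases hk : k ∈ A
    · have h5 := hin k hk j₀ hj₀ 1 (by norm_num)
      have h6 := hin k hk j₀ hj₀ (-1) (by norm_num)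
      have h7 : α * g 0 k = 0 := by linarith
      exact (mul_eq_zero.mp h7).resolve_left hα0.ne'
    · have hk' : k ∈ Aᶜ := Finset.mem_compl.mpr hk
      have h5 := hin i₀ hi₀ k hk' 1 (by norm_num)
      have h6 := hin i₀ hi₀ k hk' (-1) (by norm_num)
      have h7 : β * g 0 k = 0 := by linarith
      exact (mul_eq_zero.mp h7).resolve_left hβ0.ne'
  refine ⟨⟨L, hnorm⟩, fun x => ?_⟩
  rw [hgL, h0, add_zero]
  rfl

end Pool.Agent.MP_d967a3_an
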