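import Mathlib
import Pool.Agent.Lib.MP_d967a3_an.StrAff

/-!
# A body without affine symmetries which is round outside two cylinders
-/

open scoped InnerProductSpace ContDiff Topology
open Set Filter

namespace Pool.Agent.MP_d967a3_an

variable {κ : Type*} [Fintype κ]

/-- The bump function, supported by an ellipsoid with centre `c`. -/
noncomputable def bump (w : κ → ℝ) (c : EuclideanSpace ℝ κ) (d : ℝ)
    (x : EuclideanSpace ℝ κ) : ℝ := expNegInvGlue (d ^ 2 - Q w (x - c))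

section bump

variable {w : κ → ℝ} {c : EuclideanSpace ℝ κ} {d : ℝ}

lemma expNegInvGlue_le_one (t : ℝ) : expNegInvGlue t ≤ 1 := by
  unfold expNegInvGlue
  split_ifs with h
  · exact zero_le_one
  · push Not at h
    apply Real.exp_le_one_iff.mpr
    have := inv_pos.mpr h
    linarith

lemma expNegInvGlue_lt {s t : ℝ} (hs : s < t) (ht : 0 < t) : expNegInvGlue s < expNegInvGlue t := by
  rcases le_or_gt s 0 with h | h
  · rw [expNegInvGlue.zero_of_nonpos h]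
    exact expNegInvGlue.pos_of_pos ht
  · unfold expNegInvGlue
    rw [if_neg (not_le.mpr h), if_neg (not_le.mpr ht), Real.exp_lt_exp, neg_lt_neg_iff]
    exact (inv_lt_inv₀ ht h).mpr hs

lemma expNegInvGlue_inj {s t : ℝ} (h : expNegInvGlue s = expNegInvGlue t) (ht : 0 < t) :
    s = t := by
  rcases lt_trichotomy s t with h1 | h1 | h1
  · exact absurd h (expNegInvGlue_lt h1 ht).ne
  · exact h1
  · exact absurd h (expNegInvGlue_lt h1 (ht.trans h1)).ne'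

lemma expNegInvGlue_mono : Monotone expNegInvGlue := by
  intro s t h
  rcases h.lt_or_eq with h1 | rfl
  · rcases le_or_gt t 0 with h2 | h2
    · rw [expNegInvGlue.zero_of_nonpos h2, expNegInvGlue.zero_of_nonpos (h1.le.trans h2)]
    · exact (expNegInvGlue_lt h1 h2).le
  · exact le_rfl

lemma contDiff_bump : ContDiff ℝ ∞ (bump w c d) := by
  unfold bump
  exact expNegInvGlue.contDiff.comp
    (contDiff_const.sub ((contDiff_Q w).comp (contDiff_id.sub contDiff_const)))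

lemma bump_nonneg (x : EuclideanSpace ℝ κ) : 0 ≤ bump w c d x := expNegInvGlue.nonneg _

lemma bump_le_one (x : EuclideanSpace ℝ κ) : bump w c d x ≤ 1 := expNegInvGlue_le_one _

lemma Q_ge_norm (hw : ∀ i, 1 ≤ w i) (x : EuclideanSpace ℝ κ) : ‖x‖ ^ 2 ≤ Q w x := by
  have := le_Q hw x
  linarith

lemma bump_zero (hw : ∀ i, 1 ≤ w i) (hd : 0 < d) {x : EuclideanSpace ℝ κ} (hx : d ≤ ‖x - c‖) :
    bump w c d x = 0 := by
  apply expNegInvGlue.zero_of_nonpos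
  have h1 := Q_ge_norm hw (x - c)
  have h2 : d ^ 2 ≤ ‖x - c‖ ^ 2 := pow_le_pow_left₀ hd.le hx 2
  linarith

lemma bump_le (hw : ∀ i, 0 ≤ w i) (x : EuclideanSpace ℝ κ) :
    bump w c d x ≤ expNegInvGlue (d ^ 2) := by
  apply expNegInvGlue_mono
  have := Q_nonneg hw (x - c)
  linarith

lemma eq_of_bump_eq (hw : ∀ i, 1 ≤ w i) (hd : 0 < d) {x : EuclideanSpace ℝ κ}
    (h : bump w c d x = expNegInvGlue (d ^ 2)) : x = c := by
  have h1 := expNegInvGlue_inj h (by positivity)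
  have h2 := Q_ge_norm hw (x - c)
  have h3 : ‖x - c‖ ^ 2 ≤ 0 := by linarith
  have h4 : ‖x - c‖ ^ 2 = 0 := le_antisymm h3 (sq_nonneg _)
  exact sub_eq_zero.mp (norm_eq_zero.mp (pow_eq_zero_iff two_ne_zero |>.mp h4))

lemma bump_self : bump w c d c = expNegInvGlue (d ^ 2) := by
  unfold bump
  rw [sub_self, Q_eq]
  simp

lemma hasCompactSupport_bump (hw : ∀ i, 1 ≤ w i) (hd : 0 < d) : HasCompactSupport (bump w c d) := by
  apply HasCompactSupport.of_support_subset_isCompact (isCompact_closedBall c d)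
  intro x hx
  by_contra hcon
  apply hx
  apply bump_zero hw hd
  rw [Metric.mem_closedBall, dist_eq_norm] at hcon
  push Not at hcon
  exact hcon.le

end bump

variable [DecidableEq κ]

lemma norm_pr_sub_le {A : Finset κ} {c x : EuclideanSpace ℝ κ} {d r : ℝ} (h : ‖c‖ + d ≤ r)
    (hx : r ≤ ‖x‖) : d ≤ ‖x - pr A c‖ := by
  have h1 := norm_pr_le A c
  have h2 : ‖x‖ ≤ ‖x - pr A c‖ + ‖pr A c‖ := by
    calc ‖x‖ = ‖(x - pr A c) + pr A c‖ := by rw [sub_add_cancel]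
      _ ≤ _ := norm_add_le _ _
  linarith

/-- Existence of the body. -/
theorem exists_split (A : Finset κ) {w : κ → ℝ} (hw : ∀ i, 1 ≤ w i) (c : EuclideanSpace ℝ κ)
    {d r : ℝ} (hd : 0 < d) (hr : ‖c‖ + d ≤ r) : ∃ ε : ℝ, 0 < ε ∧ ∃ f,
      Split A r (fun x => ε * bump w (pr A c) d x) (fun x => ε / 2 * bump w (pr Aᶜ c) d x) f := by
  have hr0 : 0 < r := by
    have := norm_nonneg c
    linarith
  have hs : ∀ B : Finset κ, ContDiff ℝ ∞ (bump w (pr B c) d) := fun B => contDiff_bump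
  obtain ⟨M₁, hM₁0, hM₁⟩ := exists_hessian_bound (hs A) (hasCompactSupport_bump hw hd)
  obtain ⟨M₂, hM₂0, hM₂⟩ := exists_hessian_bound (hs Aᶜ) (hasCompactSupport_bump hw hd)
  obtain ⟨G₁, hG₁0, hG₁⟩ := gradient_bounded (hs A) (hasCompactSupport_bump hw hd)
  obtain ⟨G₂, hG₂0, hG₂⟩ := gradient_bounded (hs Aᶜ) (hasCompactSupport_bump hw hd)
  obtain ⟨ε, hε0, hε1, hεM, hεG₁, hεG₂⟩ : ∃ ε : ℝ, 0 < ε ∧ ε ≤ 1 / 4 ∧ ε * (M₁ + M₂) < 1 ∧
      ε * G₁ ≤ r ∧ ε * G₂ ≤ r := by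
    have hT : ∀ M : ℝ, Tendsto (fun ε : ℝ => ε * M) (𝓝 0) (𝓝 0) := by
      intro M
      have h : Continuous fun ε : ℝ => ε * M := by fun_prop
      have := h.tendsto 0
      simpa using this
    have h1 : ∀ᶠ ε : ℝ in 𝓝 0, ε < 1 / 4 := gt_mem_nhds (by norm_num)
    have h2 : ∀ᶠ ε : ℝ in 𝓝 0, ε * (M₁ + M₂) < 1 := (hT _).eventually (gt_mem_nhds one_pos)
    have h3 : ∀ᶠ ε : ℝ in 𝓝 0, ε * G₁ < r := (hT _).eventually (gt_mem_nhds hr0)
    have h4 : ∀ᶠ ε : ℝ in 𝓝 0, ε * G₂ < r := (hT _).eventually (gt_mem_nhds hr0)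
    have h5 := ((h1.and (h2.and (h3.and h4))).filter_mono
      (nhdsWithin_le_nhds (s := Ioi (0 : ℝ)))).and self_mem_nhdsWithin
    obtain ⟨ε, ⟨ha, hb, hc, hd'⟩, he⟩ := h5.exists
    exact ⟨ε, he, ha.le, hb, hc.le, hd'.le⟩
  set χ : EuclideanSpace ℝ κ → ℝ := fun x =>
    -bump w (pr A c) d (pr A x) - (1 / 2) * bump w (pr Aᶜ c) d (pr Aᶜ x) with hχ
  have hχ1 : ContDiff ℝ ∞ fun x => bump w (pr A c) d (pr A x) := (hs A).comp (pr A).contDiff
  have hχ2 : ContDiff ℝ ∞ fun x => bump w (pr Aᶜ c) d (pr Aᶜ x) := (hs Aᶜ).comp (pr Aᶜ).contDiff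
  have hχs : ContDiff ℝ ∞ χ := hχ1.neg.sub (contDiff_const.mul hχ2)
  have hχM : ∀ x v, |fderiv ℝ (fderiv ℝ χ) x v v| ≤ (M₁ + M₂) * ‖v‖ ^ 2 := by
    intro x v
    have e1 : χ = fun x => (fun y => -bump w (pr A c) d (pr A y)) x +
        (-(1 / 2)) * (fun y => bump w (pr Aᶜ c) d (pr Aᶜ y)) x - 0 := by
      funext x
      simp only [hχ]
      ring
    have h1 := hessian_add (P := fun y => -bump w (pr A c) d (pr A y))
      (χ := fun y => bump w (pr Aᶜ c) d (pr Aᶜ y)) hχ1.neg hχ2 (-(1 / 2)) 0 x v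
    rw [e1, h1]
    have e2 : (fun y => -bump w (pr A c) d (pr A y)) = fun x => (fun _ => (0 : ℝ)) x +
        (-1) * (fun y => bump w (pr A c) d (pr A y)) x - 0 := by
      funext x
      ring
    have h2 := hessian_add (P := fun _ : EuclideanSpace ℝ κ => (0 : ℝ))
      (χ := fun y => bump w (pr A c) d (pr A y)) contDiff_const hχ1 (-1) 0 x v
    have h3 : fderiv ℝ (fderiv ℝ (fun _ : EuclideanSpace ℝ κ => (0 : ℝ))) x v v = 0 := by
      have h4 : fderiv ℝ (fun _ : EuclideanSpace ℝ κ => (0 : ℝ)) = fun _ => 0 := by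
        funext y
        exact fderiv_const_apply 0
      rw [h4]
      simp
    rw [e2, h2, h3, hessian_comp_clm (hs A), hessian_comp_clm (hs Aᶜ)]
    have h5 := hM₁ (pr A x) (pr A v)
    have h6 := hM₂ (pr Aᶜ x) (pr Aᶜ v)
    have h7 : ‖pr A v‖ ^ 2 ≤ ‖v‖ ^ 2 := pow_le_pow_left₀ (norm_nonneg _) (norm_pr_le A v) 2
    have h8 : ‖pr Aᶜ v‖ ^ 2 ≤ ‖v‖ ^ 2 := pow_le_pow_left₀ (norm_nonneg _) (norm_pr_le Aᶜ v) 2
    have h9 : M₁ * ‖pr A v‖ ^ 2 ≤ M₁ * ‖v‖ ^ 2 := mul_le_mul_of_nonneg_left h7 hM₁0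
    have h10 : M₂ * ‖pr Aᶜ v‖ ^ 2 ≤ M₂ * ‖v‖ ^ 2 := mul_le_mul_of_nonneg_left h8 hM₂0
    have h11 : 0 ≤ M₂ * ‖v‖ ^ 2 := mul_nonneg hM₂0 (sq_nonneg _)
    rw [abs_le] at h5 h6 ⊢
    constructor <;> linarith
  have hpos : ∀ x v, v ≠ 0 → 0 < fderiv ℝ (fderiv ℝ
      (fun x => Q (fun _ : κ => (1 : ℝ)) x + ε * χ x - 1)) x v v := fun x v hv =>
    hessian_dent (w := fun _ : κ => (1 : ℝ)) (m := 1) (fun _ => le_rfl) hχs hχM hε0.le hεM
      one_pos x v hv
  have hf : ContDiff ℝ ∞ (fun x => Q (fun _ : κ => (1 : ℝ)) x + ε * χ x - 1) :=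
    ((contDiff_Q _).add (contDiff_const.mul hχs)).sub contDiff_const
  have heq : ∀ x, Q (fun _ : κ => (1 : ℝ)) x + ε * χ x - 1 = ‖x‖ ^ 2 - 1 -
      ε * bump w (pr A c) d (pr A x) - ε / 2 * bump w (pr Aᶜ c) d (pr Aᶜ x) := by
    intro x
    rw [Q_one]
    simp only [hχ]
    ring
  refine ⟨ε, hε0, fun x => Q (fun _ : κ => (1 : ℝ)) x + ε * χ x - 1, ?_, ?_, ?_, ?_, ?_, ?_, ?_,
    ?_, ?_, ?_, ⟨hf, hpos, ?_, 0, ?_⟩, heq⟩
  · exact contDiff_const.mul (hs A)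
  · exact contDiff_const.mul (hs Aᶜ)
  · exact fun x => mul_nonneg hε0.le (bump_nonneg _)
  · exact fun x => mul_nonneg (by positivity) (bump_nonneg _)
  · intro x
    have := bump_le_one (w := w) (c := pr A c) (d := d) x
    nlinarith
  · intro x
    have h1 := bump_le_one (w := w) (c := pr Aᶜ c) (d := d) x
    have h2 := bump_nonneg (w := w) (c := pr Aᶜ c) (d := d) x
    nlinarith
  · intro x hx
    rw [bump_zero hw hd (norm_pr_sub_le hr hx), mul_zero]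
  · intro x hx
    rw [bump_zero hw hd (norm_pr_sub_le hr hx), mul_zero]
  · intro x v
    have h1 : HasFDerivAt (fun x => ε * bump w (pr A c) d x)
        (ε • fderiv ℝ (bump w (pr A c) d) x) x :=
      ((hs A).differentiable (by norm_num) x).hasFDerivAt.const_mul ε
    rw [h1.fderiv]
    have h2 : (ε • fderiv ℝ (bump w (pr A c) d) x) v = ε * fderiv ℝ (bump w (pr A c) d) x v := rfl
    rw [h2, abs_mul, abs_of_pos hε0]
    calc ε * |fderiv ℝ (bump w (pr A c) d) x v| ≤ ε * (G₁ * ‖v‖) :=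
          mul_le_mul_of_nonneg_left (hG₁ x v) hε0.le
      _ = ε * G₁ * ‖v‖ := by ring
      _ ≤ r * ‖v‖ := mul_le_mul_of_nonneg_right hεG₁ (norm_nonneg _)
  · intro x v
    have h1 : HasFDerivAt (fun x => ε / 2 * bump w (pr Aᶜ c) d x)
        ((ε / 2) • fderiv ℝ (bump w (pr Aᶜ c) d) x) x :=
      ((hs Aᶜ).differentiable (by norm_num) x).hasFDerivAt.const_mul (ε / 2)
    rw [h1.fderiv]
    have h2 : ((ε / 2) • fderiv ℝ (bump w (pr Aᶜ c) d) x) v =
        ε / 2 * fderiv ℝ (bump w (pr Aᶜ c) d) x v := rfl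
    rw [h2, abs_mul, abs_of_pos (by positivity)]
    have h3 : 0 ≤ G₂ * ‖v‖ := mul_nonneg hG₂0 (norm_nonneg _)
    calc ε / 2 * |fderiv ℝ (bump w (pr Aᶜ c) d) x v| ≤ ε / 2 * (G₂ * ‖v‖) :=
          mul_le_mul_of_nonneg_left (hG₂ x v) (by positivity)
      _ ≤ ε * (G₂ * ‖v‖) := mul_le_mul_of_nonneg_right (by linarith) h3
      _ = ε * G₂ * ‖v‖ := by ring
      _ ≤ r * ‖v‖ := mul_le_mul_of_nonneg_right hεG₂ (norm_nonneg _)
  · apply (isCompact_closedBall (0 : EuclideanSpace ℝ κ) 2).of_isClosed_subset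
      (isClosed_le hf.continuous continuous_const)
    intro x hx
    rw [mem_closedBall_zero_iff]
    have hx' : Q (fun _ : κ => (1 : ℝ)) x + ε * χ x - 1 ≤ 0 := hx
    rw [heq] at hx'
    have h1 := bump_le_one (w := w) (c := pr A c) (d := d) (pr A x)
    have h2 := bump_le_one (w := w) (c := pr Aᶜ c) (d := d) (pr Aᶜ x)
    have h3 : ‖x‖ ^ 2 ≤ 2 ^ 2 := by nlinarith
    exact (pow_le_pow_iff_left₀ (norm_nonneg _) (by norm_num) two_ne_zero).mp h3
  · rw [heq, norm_zero]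
    have h1 := bump_nonneg (w := w) (c := pr A c) (d := d) (pr A 0)
    have h2 := bump_nonneg (w := w) (c := pr Aᶜ c) (d := d) (pr Aᶜ 0)
    have h3 := mul_nonneg hε0.le h1
    have h4 := mul_nonneg (by positivity : 0 ≤ ε / 2) h2
    rw [zero_pow two_ne_zero]
    linarith

end Pool.Agent.MP_d967a3_an
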