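import Mathlib
import Pool.Agent.Lib.MP_d967a3_an.StrRig

/-!
# The body has no affine symmetries
-/

open scoped InnerProductSpace ContDiff Topology
open Set Filter

namespace Pool.Agent.MP_d967a3_an

variable {κ : Type*} [Fintype κ] [DecidableEq κ]

/-- A linear isometry preserving a diagonal quadratic form with different weights and fixing a
vector without zero coordinates is the identity. -/
theorem eq_id_of_Q {w : κ → ℝ} (hinj : Function.Injective w) {c : EuclideanSpace ℝ κ}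
    (hc : ∀ i, c i ≠ 0) (L : EuclideanSpace ℝ κ ≃ₗᵢ[ℝ] EuclideanSpace ℝ κ)
    (hQL : ∀ y, Q w (L y) = Q w y) (hLc : L c = c) (x : EuclideanSpace ℝ κ) : L x = x := by
  have hDL : ∀ y, diag w (L y) = L (diag w y) := by
    intro y
    apply ext_inner_right ℝ
    intro z
    obtain ⟨z', rfl⟩ := L.surjective z
    rw [L.inner_map_map]
    have h1 := hQL (y + z')
    rw [map_add, Q_add, Q_add, hQL, hQL] at h1
    linarith
  have hLe : ∀ i j, j ≠ i → (L (EuclideanSpace.single i (1 : ℝ))) j = 0 := by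
    intro i j hij
    have h1 := congrArg (fun z : EuclideanSpace ℝ κ => z j) (hDL (EuclideanSpace.single i (1 : ℝ)))
    have h2 : diag w (EuclideanSpace.single i (1 : ℝ)) = w i • EuclideanSpace.single i (1 : ℝ) := by
      ext k
      by_cases hk : k = i
      · subst hk
        simp
      · simp [hk]
    simp only [h2, map_smul, diag_apply, PiLp.smul_apply, smul_eq_mul] at h1
    have h3 : (w j - w i) * (L (EuclideanSpace.single i (1 : ℝ))) j = 0 := by
      rw [sub_mul, h1, sub_self]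
    rcases mul_eq_zero.mp h3 with h4 | h4
    · exact absurd (hinj (sub_eq_zero.mp h4)) hij
    · exact h4
  have hs : ∀ i (y : EuclideanSpace ℝ κ),
      (L y) i * (L (EuclideanSpace.single i (1 : ℝ))) i = y i := by
    intro i y
    have h1 : ⟪L y, L (EuclideanSpace.single i (1 : ℝ))⟫_ℝ =
        (L y) i * (L (EuclideanSpace.single i (1 : ℝ))) i := by
      rw [PiLp.inner_apply, Finset.sum_eq_single i]
      · simp
        ring
      · intro j _ hj
        rw [hLe i j hj]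
        simp
      · simp
    rw [← h1, L.inner_map_map, EuclideanSpace.inner_single_right]
    simp
  have hsign : ∀ i, (L (EuclideanSpace.single i (1 : ℝ))) i = 1 := by
    intro i
    have h1 := hs i c
    rw [hLc] at h1
    have h2 : c i * ((L (EuclideanSpace.single i (1 : ℝ))) i - 1) = 0 := by
      rw [mul_sub, h1, mul_one, sub_self]
    exact sub_eq_zero.mp ((mul_eq_zero.mp h2).resolve_left (hc i))
  ext i
  have := hs i x
  rw [hsign, mul_one] at this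
  exact this

lemma exists_long (B : Finset κ) (hB : B.Nonempty) {t : ℝ} (ht : 0 ≤ t) :
    ∃ z : EuclideanSpace ℝ κ, pr B z = z ∧ ‖z‖ ^ 2 = t := by
  obtain ⟨j, hj⟩ := hB
  refine ⟨EuclideanSpace.single j (Real.sqrt t), ?_, ?_⟩
  · ext k
    rw [pr_apply]
    by_cases hk : k = j
    · subst hk
      simp [hj]
    · simp [hk]
  · rw [PiLp.norm_single, Real.norm_eq_abs, sq_abs, Real.sq_sqrt ht]

/-- The bumps are invariant under the symmetries which preserve the decomposition. -/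
lemma bump_invariant {A : Finset κ} {r : ℝ} {b₁ b₂ f : EuclideanSpace ℝ κ → ℝ}
    (h : Split A r b₁ b₂ f) (hr : r ^ 2 ≤ 1 / 16) (hr0 : 0 < r) (hA' : Aᶜ.Nonempty)
    (L : EuclideanSpace ℝ κ ≃ₗᵢ[ℝ] EuclideanSpace ℝ κ) (hmem : ∀ x, f x ≤ 0 → f (L x) ≤ 0)
    (hL : ∀ x, pr A (L x) = L (pr A x)) (hL' : ∀ x, pr Aᶜ (L x) = L (pr Aᶜ x))
    (x : EuclideanSpace ℝ κ) : b₁ (pr A x) ≤ b₁ (L (pr A x)) := by
  rcases le_or_gt r ‖pr A x‖ with h1 | h1
  · rw [h.zero₁ _ h1, h.zero₁ _ (by rwa [L.norm_map])]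
  · have h2 : ‖pr A x‖ ^ 2 ≤ r ^ 2 := pow_le_pow_left₀ (norm_nonneg _) h1.le 2
    obtain ⟨z, hz, hzn⟩ := exists_long Aᶜ hA' (t := 1 + b₁ (pr A x) - ‖pr A x‖ ^ 2) (by
      have := h.nonneg₁ (pr A x)
      linarith)
    have hpz : pr A z = 0 := by rw [← hz, pr_pr_compl]
    have e1 : pr A (pr A x + z) = pr A x := by rw [map_add, pr_pr, hpz, add_zero]
    have e2 : pr Aᶜ (pr A x + z) = z := by rw [map_add, pr_compl_pr, hz, zero_add]
    have hzr : r ≤ ‖z‖ := by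
      have h3 : r ^ 2 ≤ ‖z‖ ^ 2 := by
        rw [hzn]
        have := h.nonneg₁ (pr A x)
        linarith
      exact (pow_le_pow_iff_left₀ hr0.le (norm_nonneg _) two_ne_zero).mp h3
    have h3 : f (pr A x + z) ≤ 0 := by
      rw [h.eq, e1, e2, norm_sq_pr A, e1, e2, h.zero₂ z hzr, hzn]
      linarith
    have h4 := hmem _ h3
    have e3 : pr A (L (pr A x + z)) = L (pr A x) := by rw [hL, e1]
    have e4 : pr Aᶜ (L (pr A x + z)) = L z := by rw [hL', e2]
    rw [h.eq, e3, e4, norm_sq_pr A, e3, e4, h.zero₂ (L z) (by rwa [L.norm_map]), L.norm_map,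
      L.norm_map, hzn] at h4
    linarith

/-- The linear isometries preserving the body preserve the bumps. -/
lemma bump_invariant_eq {A : Finset κ} {r : ℝ} {b₁ b₂ f : EuclideanSpace ℝ κ → ℝ}
    (h : Split A r b₁ b₂ f) (hr : r ^ 2 ≤ 1 / 16) (hr0 : 0 < r) (hA' : Aᶜ.Nonempty)
    (L : EuclideanSpace ℝ κ ≃ₗᵢ[ℝ] EuclideanSpace ℝ κ) (hmem : ∀ x, f x ≤ 0 → f (L x) ≤ 0)
    (hmem' : ∀ x, f x ≤ 0 → f (L.symm x) ≤ 0)
    (hL : ∀ x, pr A (L x) = L (pr A x)) (hL' : ∀ x, pr Aᶜ (L x) = L (pr Aᶜ x))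
    (x : EuclideanSpace ℝ κ) : b₁ (L (pr A x)) = b₁ (pr A x) := by
  apply le_antisymm _ (bump_invariant h hr hr0 hA' L hmem hL hL' x)
  have hLs : ∀ B : Finset κ, (∀ x, pr B (L x) = L (pr B x)) →
      ∀ x, pr B (L.symm x) = L.symm (pr B x) := by
    intro B hB x
    apply L.injective
    rw [← hB, LinearIsometryEquiv.apply_symm_apply, LinearIsometryEquiv.apply_symm_apply]
  have h1 := bump_invariant h hr hr0 hA' L.symm hmem' (hLs A hL) (hLs Aᶜ hL') (L x)
  rw [hL, LinearIsometryEquiv.symm_apply_apply] at h1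
  exact h1

/-- The invariance of the bump gives the invariance of the quadratic form. -/
lemma Q_invariant {A : Finset κ} {w : κ → ℝ} (hw : ∀ i, 1 ≤ w i) {c : EuclideanSpace ℝ κ}
    {d ε : ℝ} (hd : 0 < d) (hε : 0 < ε) (L : EuclideanSpace ℝ κ ≃ₗᵢ[ℝ] EuclideanSpace ℝ κ)
    (h : ∀ x, ε * bump w (pr A c) d (L (pr A x)) = ε * bump w (pr A c) d (pr A x)) :
    L (pr A c) = pr A c ∧ ∀ v, Q w (L (pr A v)) = Q w (pr A v) := by
  have h' : ∀ x, bump w (pr A c) d (L (pr A x)) = bump w (pr A c) d (pr A x) := fun x =>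
    mul_left_cancel₀ hε.ne' (h x)
  have h1 : L (pr A c) = pr A c := by
    apply eq_of_bump_eq hw hd
    rw [h', bump_self]
  refine ⟨h1, ?_⟩
  have h2 : ∀ v, Q w (pr A v) < d ^ 2 → Q w (L (pr A v)) = Q w (pr A v) := by
    intro v hv
    have h3 := h' (c + v)
    unfold bump at h3
    rw [map_add, map_add, h1, add_sub_cancel_left, add_sub_cancel_left] at h3
    have h4 := expNegInvGlue_inj h3 (by linarith)
    linarith
  intro v
  have hQ0 : 0 ≤ Q w (pr A v) := Q_nonneg (fun i => zero_le_one.trans (hw i)) _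
  set t : ℝ := d / (2 * (Q w (pr A v) + 1)) with ht
  have ht0 : 0 < t := by positivity
  have h3 := h2 (t • v) (by
    rw [map_smul, Q_smul, ht]
    have h4 : (d / (2 * (Q w (pr A v) + 1))) ^ 2 * Q w (pr A v) =
        d ^ 2 * (Q w (pr A v) / (4 * (Q w (pr A v) + 1) ^ 2)) := by
      field_simp
      ring
    rw [h4]
    have h5 : Q w (pr A v) / (4 * (Q w (pr A v) + 1) ^ 2) < 1 := by
      rw [div_lt_one (by positivity)]
      nlinarith
    have h6 : 0 < d ^ 2 := by positivity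
    nlinarith)
  rw [map_smul, map_smul, Q_smul, Q_smul] at h3
  exact mul_left_cancel₀ (by positivity) h3

/-- The farthest points of the body. -/
lemma farthest {A : Finset κ} {w : κ → ℝ} (hw : ∀ i, 1 ≤ w i) {c : EuclideanSpace ℝ κ}
    {d ε r : ℝ} (hd : 0 < d) (hε : 0 < ε) (hr : r ^ 2 ≤ 1 / 16)
    {f : EuclideanSpace ℝ κ → ℝ}
    (h : Split A r (fun x => ε * bump w (pr A c) d x) (fun x => ε / 2 * bump w (pr Aᶜ c) d x) f)
    {x : EuclideanSpace ℝ κ} (hx : f x ≤ 0) (hn : ‖x‖ ^ 2 = 1 + ε * expNegInvGlue (d ^ 2)) :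
    pr A x = pr A c := by
  have hη : 0 < expNegInvGlue (d ^ 2) := expNegInvGlue.pos_of_pos (by positivity)
  have hw0 : ∀ i, 0 ≤ w i := fun i => zero_le_one.trans (hw i)
  have h0 := h.eq x
  have h1 := bump_le (c := pr A c) (d := d) hw0 (pr A x)
  have h2 := bump_le (c := pr Aᶜ c) (d := d) hw0 (pr Aᶜ x)
  have hεη : 0 < ε * expNegInvGlue (d ^ 2) := mul_pos hε hη
  rcases le_or_gt r ‖pr Aᶜ x‖ with h3 | h3
  · have h4 := h.zero₂ _ h3
    rw [h4, hn] at h0
    have h5 : expNegInvGlue (d ^ 2) ≤ bump w (pr A c) d (pr A x) := by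
      have h6 : ε * expNegInvGlue (d ^ 2) ≤ ε * bump w (pr A c) d (pr A x) := by linarith
      exact le_of_mul_le_mul_left h6 hε
    exact eq_of_bump_eq hw hd (le_antisymm h1 h5)
  · exfalso
    rcases le_or_gt r ‖pr A x‖ with h5 | h5
    · have h4 := h.zero₁ _ h5
      rw [h4, hn] at h0
      nlinarith
    · have h6 : ‖pr A x‖ ^ 2 ≤ r ^ 2 := pow_le_pow_left₀ (norm_nonneg _) h5.le 2
      have h7 : ‖pr Aᶜ x‖ ^ 2 ≤ r ^ 2 := pow_le_pow_left₀ (norm_nonneg _) h3.le 2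
      have h8 := norm_sq_pr A x
      linarith

lemma block {A : Finset κ} {w : κ → ℝ} (hw : ∀ i, 1 ≤ w i) {c : EuclideanSpace ℝ κ}
    {d ε r : ℝ} (hd : 0 < d) (hε : 0 < ε) (hr : r ^ 2 ≤ 1 / 16)
    (hc : ‖c‖ ≤ r) {f : EuclideanSpace ℝ κ → ℝ}
    (h : Split A r (fun x => ε * bump w (pr A c) d x) (fun x => ε / 2 * bump w (pr Aᶜ c) d x) f)
    (L : EuclideanSpace ℝ κ ≃ₗᵢ[ℝ] EuclideanSpace ℝ κ) (hmem : ∀ x, f x ≤ 0 → f (L x) ≤ 0)
    (z : EuclideanSpace ℝ κ) : pr A (L (pr Aᶜ z)) = 0 := by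
  have hη : 0 < expNegInvGlue (d ^ 2) := expNegInvGlue.pos_of_pos (by positivity)
  have hεη : 0 < ε * expNegInvGlue (d ^ 2) := mul_pos hε hη
  rcases eq_or_ne (pr Aᶜ z) 0 with h0 | h0
  · rw [h0, map_zero, map_zero]
  have hn : 0 < ‖pr Aᶜ z‖ := norm_pos_iff.mpr h0
  have hcn : ‖pr A c‖ ^ 2 ≤ r ^ 2 := pow_le_pow_left₀ (norm_nonneg _) ((norm_pr_le A c).trans hc) 2
  set ρ : ℝ := Real.sqrt (1 + ε * expNegInvGlue (d ^ 2) - ‖pr A c‖ ^ 2) / ‖pr Aᶜ z‖ with hρ
  have hρ2 : ρ ^ 2 * ‖pr Aᶜ z‖ ^ 2 = 1 + ε * expNegInvGlue (d ^ 2) - ‖pr A c‖ ^ 2 := by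
    rw [hρ, div_pow, Real.sq_sqrt (by linarith), div_mul_cancel₀ _ (by positivity)]
  have hρ0 : 0 < ρ := div_pos (Real.sqrt_pos.mpr (by linarith)) hn
  have key : ∀ σ : ℝ, σ ^ 2 = 1 → pr A (L (pr A c + (σ * ρ) • pr Aᶜ z)) = pr A c := by
    intro σ hσ
    have e1 : pr A (pr A c + (σ * ρ) • pr Aᶜ z) = pr A c := by
      rw [map_add, pr_pr, map_smul, pr_pr_compl, smul_zero, add_zero]
    have e2 : pr Aᶜ (pr A c + (σ * ρ) • pr Aᶜ z) = (σ * ρ) • pr Aᶜ z := by
      rw [map_add, pr_compl_pr, map_smul, pr_pr, zero_add]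
    have hN : ‖pr A c + (σ * ρ) • pr Aᶜ z‖ ^ 2 = 1 + ε * expNegInvGlue (d ^ 2) := by
      rw [norm_sq_pr A, e1, e2, norm_smul, Real.norm_eq_abs, mul_pow, sq_abs, mul_pow, hσ,
        one_mul, hρ2]
      ring
    apply farthest hw hd hε hr h
    · apply hmem
      rw [h.eq, hN, e1, bump_self]
      have := h.nonneg₂ (pr Aᶜ (pr A c + (σ * ρ) • pr Aᶜ z))
      linarith
    · rw [L.norm_map, hN]
  have h1 := key 1 (by norm_num)
  have h2 := key (-1) (by norm_num)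
  rw [map_add, map_add, map_smul, map_smul] at h1 h2
  have h3 : (2 * ρ) • pr A (L (pr Aᶜ z)) = 0 := by
    calc (2 * ρ) • pr A (L (pr Aᶜ z)) = (pr A (L (pr A c)) + (1 * ρ) • pr A (L (pr Aᶜ z))) -
        (pr A (L (pr A c)) + (-1 * ρ) • pr A (L (pr Aᶜ z))) := by module
      _ = 0 := by rw [h1, h2, sub_self]
  exact (smul_eq_zero.mp h3).resolve_left (by positivity)

/-- A body which is round outside two cylinders and has no nontrivial affine symmetry. -/
theorem exists_strong (A : Finset κ) (hA : A.Nonempty) (hA' : Aᶜ.Nonempty) :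
    ∃ (r : ℝ) (b₁ b₂ f : EuclideanSpace ℝ κ → ℝ), 0 < r ∧ r ^ 2 ≤ 1 / 16 ∧ Split A r b₁ b₂ f ∧
      ∀ g : EuclideanSpace ℝ κ ≃ᵃ[ℝ] EuclideanSpace ℝ κ, g '' {x | f x ≤ 0} = {x | f x ≤ 0} →
        ∀ x, g x = x := by
  have hp0 : (0 : ℝ) < A.card := by exact_mod_cast hA.card_pos
  have hq0 : (0 : ℝ) < Aᶜ.card := by exact_mod_cast hA'.card_pos
  have hp1 : (1 : ℝ) ≤ A.card := by exact_mod_cast hA.card_pos
  have hq1 : (1 : ℝ) ≤ Aᶜ.card := by exact_mod_cast hA'.card_pos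
  have hN : (A.card : ℝ) + Aᶜ.card = Fintype.card κ := by
    rw [← Nat.cast_add, Finset.card_add_card_compl]
  have hN0 : (0 : ℝ) < Fintype.card κ := by linarith
  obtain ⟨e⟩ : Nonempty (κ ≃ Fin (Fintype.card κ)) := ⟨Fintype.equivFin κ⟩
  set N : ℝ := (Fintype.card κ : ℝ) with hNdef
  set r : ℝ := 1 / (4 * N) with hr
  have hr0 : 0 < r := by positivity
  have hN1 : 1 ≤ N := by linarith
  have hr4 : r ≤ 1 / 4 := by
    rw [hr]
    apply one_div_le_one_div_of_le (by norm_num)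
    linarith
  have hr2 : r ^ 2 ≤ 1 / 16 := by nlinarith
  have hrN : r ^ 2 * N ≤ 1 := by
    rw [hr]
    have : (1 / (4 * N)) ^ 2 * N = 1 / (16 * N) := by
      field_simp
      ring
    rw [this, div_le_one (by positivity)]
    linarith
  -- the parameters
  set w : κ → ℝ := fun i => 1 + (e i : ℕ) with hw
  have hw1 : ∀ i, 1 ≤ w i := by
    intro i
    have : (0 : ℝ) ≤ ((e i : ℕ) : ℝ) := Nat.cast_nonneg _
    simp only [hw]
    linarith
  have hwinj : Function.Injective w := by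
    intro i j hij
    simp only [hw] at hij
    have h1 : (((e i : ℕ)) : ℝ) = ((e j : ℕ) : ℝ) := by linarith
    have h2 : (e i : ℕ) = (e j : ℕ) := by exact_mod_cast h1
    exact e.injective (Fin.ext h2)
  set s : ℝ := r / (2 * N) with hs
  have hs0 : 0 < s := by positivity
  set c : EuclideanSpace ℝ κ := WithLp.toLp 2 fun _ => s with hcdef
  have hcn : ‖c‖ ≤ r / 2 := by
    have h1 : ‖c‖ ^ 2 ≤ (r / 2) ^ 2 := by
      rw [norm_sq_eq]
      have h2 : ∑ i, c i ^ 2 = N * s ^ 2 := by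
        simp [hcdef, hNdef]
      rw [h2, hs]
      have h3 : N * (r / (2 * N)) ^ 2 = (r / 2) ^ 2 * (1 / N) := by
        field_simp
      rw [h3]
      have h4 : 1 / N ≤ 1 := by
        rw [div_le_one hN0]
        exact hN1
      nlinarith [sq_nonneg (r / 2)]
    exact (pow_le_pow_iff_left₀ (norm_nonneg _) (by positivity) two_ne_zero).mp h1
  obtain ⟨ε, hε, f, hf⟩ := exists_split A hw1 c (d := r / 2) (r := r) (by positivity) (by linarith)
  refine ⟨r, _, _, f, hr0, hr2, hf, fun g hg => ?_⟩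
  -- the contact points
  have hball : Metric.closedBall (0 : EuclideanSpace ℝ κ) 1 ⊆ {x | f x ≤ 0} := by
    intro x hx
    rw [mem_closedBall_zero_iff] at hx
    have h1 := hf.le x
    have h2 : ‖x‖ ^ 2 ≤ 1 := pow_le_one₀ (norm_nonneg _) hx
    change f x ≤ 0
    linarith
  have htouch : Touch A r {x | f x ≤ 0} := by
    intro u hu h1 h2 x hx
    have h3 : f u = 0 := by
      rw [hf.eq, hu, hf.zero₁ _ h1, hf.zero₂ _ h2]
      norm_num
    have h4 := hf.defining.le_add u x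
    have h5 : fderiv ℝ f u (x - u) = 2 * ⟪u, x - u⟫_ℝ := by
      rw [hf.fderiv_eq, hf.fderiv_zero₁ h1, hf.symm.fderiv_zero₁ h2]
      simp
    rw [h3, h5, inner_sub_right, real_inner_self_eq_norm_sq, hu, real_inner_comm] at h4
    have hx' : f x ≤ 0 := hx
    linarith
  have hsq : ∀ t : ℝ, 1 ≤ t → r ≤ Real.sqrt (t / N) ∧ 0 < Real.sqrt (t / N) ∧
      Real.sqrt (t / N) ^ 2 * N = t := by
    intro t ht
    refine ⟨?_, Real.sqrt_pos.mpr (by positivity), ?_⟩
    · apply Real.le_sqrt_of_sq_le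
      rw [le_div_iff₀ hN0]
      linarith
    · rw [Real.sq_sqrt (by positivity), div_mul_cancel₀ _ hN0.ne']
  obtain ⟨ha1, ha2, ha3⟩ := hsq _ hp1
  obtain ⟨hb1, hb2, hb3⟩ := hsq _ hq1
  obtain ⟨L, hL⟩ := exists_linearIsometry hball htouch ha1 hb1 ha2 hb2 ha3 hb3 hA hA' g hg
  have hmem : ∀ x, f x ≤ 0 → f (L x) ≤ 0 := by
    intro x hx
    have h1 : g x ∈ g '' {x | f x ≤ 0} := mem_image_of_mem g hx
    rw [hg, hL] at h1
    exact h1
  have hmem' : ∀ x, f x ≤ 0 → f (L.symm x) ≤ 0 := by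
    intro x hx
    have hx' : x ∈ {x | f x ≤ 0} := hx
    rw [← hg] at hx'
    obtain ⟨y, hy, rfl⟩ := hx'
    rw [hL, LinearIsometryEquiv.symm_apply_apply]
    exact hy
  have hcr : ‖c‖ ≤ r := by linarith
  have hb := block hw1 (by positivity) hε hr2 hcr hf L hmem
  have hb' := block hw1 (by positivity) hε hr2 hcr hf L.symm hmem'
  have hb2 : ∀ z, pr Aᶜ (L (pr A z)) = 0 := by
    intro z
    apply ext_inner_right ℝ
    intro y
    rw [inner_zero_left, inner_pr]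
    have h1 : ⟪L (pr A z), pr Aᶜ y⟫_ℝ = ⟪pr A z, L.symm (pr Aᶜ y)⟫_ℝ := by
      rw [← L.inner_map_map (pr A z), LinearIsometryEquiv.apply_symm_apply]
    rw [h1, inner_pr, hb', inner_zero_right]
  have hLA : ∀ x, pr A (L x) = L (pr A x) := by
    intro x
    calc pr A (L x) = pr A (L (pr A x + pr Aᶜ x)) := by rw [pr_add_pr]
      _ = pr A (L (pr A x)) := by rw [map_add, map_add, hb, add_zero]
      _ = pr A (L (pr A x)) + pr Aᶜ (L (pr A x)) := by rw [hb2, add_zero]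
      _ = L (pr A x) := pr_add_pr A _
  have hLA' : ∀ x, pr Aᶜ (L x) = L (pr Aᶜ x) := by
    intro x
    calc pr Aᶜ (L x) = pr Aᶜ (L (pr A x + pr Aᶜ x)) := by rw [pr_add_pr]
      _ = pr Aᶜ (L (pr Aᶜ x)) := by rw [map_add, map_add, hb2, zero_add]
      _ = pr A (L (pr Aᶜ x)) + pr Aᶜ (L (pr Aᶜ x)) := by rw [hb, zero_add]
      _ = L (pr Aᶜ x) := pr_add_pr A _
  have hi1 := bump_invariant_eq hf hr2 hr0 hA' L hmem hmem' hLA hLA'
  have hi2 := bump_invariant_eq hf.symm hr2 hr0 (by rwa [compl_compl]) L hmem hmem' hLA'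
    (by rwa [compl_compl])
  obtain ⟨hc1, hQ1⟩ := Q_invariant hw1 (by positivity) hε L hi1
  obtain ⟨hc2, hQ2⟩ := Q_invariant (A := Aᶜ) hw1 (by positivity) (by positivity) L hi2
  have hLc : L c = c := by
    calc L c = L (pr A c + pr Aᶜ c) := by rw [pr_add_pr]
      _ = pr A c + pr Aᶜ c := by rw [map_add, hc1, hc2]
      _ = c := pr_add_pr A c
  have hQ : ∀ y, Q w (L y) = Q w y := by
    intro y
    rw [Q_pr A w (L y), hLA, hLA', hQ1, hQ2, ← Q_pr]
  intro x
  rw [hL]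
  exact eq_id_of_Q hwinj (fun i => hs0.ne') L hQ hLc x

end Pool.Agent.MP_d967a3_an
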