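import Mathlib
import Pool.Agent.Lib.MP_d967a3_an.StrTriv

/-!
# The smoothed maximum of the squares of the two components
-/

open scoped InnerProductSpace ContDiff Topology
open Set Filter

namespace Pool.Agent.MP_d967a3_an

/-- A positive smooth function equal to the identity on `[1, ∞)`. -/
noncomputable def DD (n : ℝ) : ℝ := n + (1 - Real.smoothTransition (2 * n - 1))

/-- The smoothed maximum of `p` and `q`, for `1 ≤ p + q`. -/
noncomputable def FF (p q : ℝ) : ℝ :=
  Real.smoothTransition (3 * p / DD (p + q) - 1) * p +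
    (1 - Real.smoothTransition (3 * p / DD (p + q) - 1)) * q

lemma DD_eq {n : ℝ} (h : 1 ≤ n) : DD n = n := by
  unfold DD
  rw [Real.smoothTransition.one_of_one_le (by linarith)]
  ring

lemma DD_pos {n : ℝ} (h : 0 ≤ n) : 0 < DD n := by
  rcases le_or_gt 1 n with h1 | h1
  · rw [DD_eq h1]
    linarith
  · unfold DD
    have := Real.smoothTransition.lt_one_of_lt_one (x := 2 * n - 1) (by linarith)
    linarith

lemma FF_left {p q : ℝ} (h : 1 ≤ p + q) (h1 : 2 * p ≤ q) : FF p q = q := by
  unfold FF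
  rw [DD_eq h, Real.smoothTransition.zero_of_nonpos]
  · ring
  · rw [sub_nonpos, div_le_one (by linarith)]
    linarith

lemma FF_right {p q : ℝ} (h : 1 ≤ p + q) (h1 : 2 * q ≤ p) : FF p q = p := by
  unfold FF
  rw [DD_eq h, Real.smoothTransition.one_of_one_le]
  · ring
  · rw [le_sub_iff_add_le, le_div_iff₀ (by linarith)]
    linarith

lemma FF_le {p q : ℝ} (hp : 0 ≤ p) (hq : 0 ≤ q) : FF p q ≤ p + q := by
  unfold FF
  have h1 := Real.smoothTransition.nonneg (3 * p / DD (p + q) - 1)
  have h2 := Real.smoothTransition.le_one (3 * p / DD (p + q) - 1)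
  nlinarith

lemma le_FF {p q : ℝ} (hp : 0 ≤ p) (hq : 0 ≤ q) (h : 1 ≤ p + q) : (p + q) / 3 ≤ FF p q := by
  rcases le_total (3 * p) (p + q) with h1 | h1
  · rw [FF_left h (by linarith)]
    linarith
  · rcases le_total (3 * q) (p + q) with h2 | h2
    · rw [FF_right h (by linarith)]
      linarith
    · unfold FF
      have h3 := Real.smoothTransition.nonneg (3 * p / DD (p + q) - 1)
      have h4 := Real.smoothTransition.le_one (3 * p / DD (p + q) - 1)
      nlinarith

lemma FF_mul {p q t : ℝ} (h : 1 ≤ p + q) (ht : 1 ≤ t) : FF (t * p) (t * q) = t * FF p q := by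
  unfold FF
  have h1 : 1 ≤ t * p + t * q := by nlinarith
  have h2 : 3 * (t * p) / (t * p + t * q) = 3 * p / (p + q) := by
    rw [← mul_add]
    field_simp
  rw [DD_eq h, DD_eq h1, h2]
  ring

lemma contDiff_DD : ContDiff ℝ ∞ DD := by
  unfold DD
  have h1 : ContDiff ℝ ∞ fun n : ℝ => 2 * n - 1 := (contDiff_const.mul contDiff_id).sub contDiff_const
  exact contDiff_id.add (contDiff_const.sub (Real.smoothTransition.contDiff.comp h1))

variable {κ : Type*} [Fintype κ] [DecidableEq κ]

/-- The integral of the outer billiard. -/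
noncomputable def outF (A : Finset κ) (x : EuclideanSpace ℝ κ) : ℝ :=
  FF (‖pr A x‖ ^ 2) (‖pr Aᶜ x‖ ^ 2)

lemma contDiff_outF (A : Finset κ) : ContDiff ℝ ∞ (outF A) := by
  unfold outF FF
  have h1 : ∀ B : Finset κ, ContDiff ℝ ∞ fun x : EuclideanSpace ℝ κ => ‖pr B x‖ ^ 2 := fun B =>
    (pr B).contDiff.norm_sq ℝ
  have h2 : ContDiff ℝ ∞ fun x : EuclideanSpace ℝ κ => DD (‖pr A x‖ ^ 2 + ‖pr Aᶜ x‖ ^ 2) :=
    contDiff_DD.comp ((h1 A).add (h1 Aᶜ))
  have h3 : ContDiff ℝ ∞ fun x : EuclideanSpace ℝ κ => Real.smoothTransition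
      (3 * ‖pr A x‖ ^ 2 / DD (‖pr A x‖ ^ 2 + ‖pr Aᶜ x‖ ^ 2) - 1) :=
    Real.smoothTransition.contDiff.comp (((contDiff_const.mul (h1 A)).div h2
      (fun x => (DD_pos (by positivity)).ne')).sub contDiff_const)
  exact (h3.mul (h1 A)).add ((contDiff_const.sub h3).mul (h1 Aᶜ))

lemma outF_le (A : Finset κ) (x : EuclideanSpace ℝ κ) : outF A x ≤ ‖x‖ ^ 2 := by
  rw [norm_sq_pr A x]
  exact FF_le (by positivity) (by positivity)

lemma le_outF (A : Finset κ) {x : EuclideanSpace ℝ κ} (hx : 1 ≤ ‖x‖ ^ 2) :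
    ‖x‖ ^ 2 / 3 ≤ outF A x := by
  rw [norm_sq_pr A x] at hx ⊢
  exact le_FF (by positivity) (by positivity) hx

lemma outF_smul (A : Finset κ) {x : EuclideanSpace ℝ κ} (hx : 1 ≤ ‖x‖ ^ 2) {t : ℝ}
    (ht : 1 ≤ t) : outF A (t • x) = t ^ 2 * outF A x := by
  unfold outF
  have ht0 : |t| = t := abs_of_pos (by linarith)
  rw [norm_sq_pr A x] at hx
  rw [map_smul, map_smul, norm_smul, norm_smul, Real.norm_eq_abs, ht0, mul_pow, mul_pow,
    FF_mul hx (one_le_pow₀ ht)]

/-- The level sets of the integral. -/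
lemma one_le_of_level {A : Finset κ} {c : ℝ} (hc : 1 ≤ c) {x : EuclideanSpace ℝ κ}
    (h : outF A x = c) : 1 ≤ ‖x‖ ^ 2 := by
  have := outF_le A x
  linarith

lemma fderiv_outF (A : Finset κ) {x : EuclideanSpace ℝ κ} (hx : 1 ≤ ‖x‖ ^ 2) :
    fderiv ℝ (outF A) x x = 2 * outF A x := by
  have h1 := hasDerivAt_line ((contDiff_outF A).differentiable (by norm_num)) x x 0
  rw [zero_smul, add_zero] at h1
  have h2 : HasDerivWithinAt (fun s : ℝ => outF A (x + s • x)) (fderiv ℝ (outF A) x x)
      (Ici 0) 0 := h1.hasDerivWithinAt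
  have h3 : HasDerivAt (fun s : ℝ => (1 + s) ^ 2 * outF A x) (2 * outF A x) 0 := by
    have h4 : HasDerivAt (fun s : ℝ => 1 + s) 1 0 := (hasDerivAt_id' (0 : ℝ)).const_add 1
    have h5 := (h4.pow 2).mul_const (outF A x)
    simpa using h5
  have h4 : HasDerivWithinAt (fun s : ℝ => outF A (x + s • x)) (2 * outF A x) (Ici 0) 0 := by
    apply h3.hasDerivWithinAt.congr
    · intro s hs
      have hs' : (0 : ℝ) ≤ s := hs
      have e : x + s • x = (1 + s) • x := by module
      rw [e, outF_smul A hx (by linarith)]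
    · have e : x + (0 : ℝ) • x = (1 + (0 : ℝ)) • x := by module
      rw [e, outF_smul A hx (by norm_num)]
  exact (uniqueDiffWithinAt_Ici (0 : ℝ)).eq_deriv _ h2 h4

lemma isCompact_level (A : Finset κ) {c : ℝ} (hc : 1 ≤ c) : IsCompact {x | outF A x = c} := by
  apply (isCompact_closedBall (0 : EuclideanSpace ℝ κ) (3 * c)).of_isClosed_subset
    (isClosed_eq (contDiff_outF A).continuous continuous_const)
  intro x hx
  have hx' : outF A x = c := hx
  have h1 := le_outF A (one_le_of_level hc hx')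
  rw [mem_closedBall_zero_iff]
  have h2 := one_le_of_level hc hx'
  have h3 : 1 ≤ ‖x‖ := by
    by_contra hcon
    push Not at hcon
    have := norm_nonneg x
    nlinarith
  nlinarith

lemma isConnected_level (A : Finset κ) {c : ℝ} (hc : 1 ≤ c)
    (h : 1 < Module.rank ℝ (EuclideanSpace ℝ κ)) : IsConnected {x | outF A x = c} := by
  have h1 := isConnected_sphere h (0 : EuclideanSpace ℝ κ) zero_le_one
  have hpos : ∀ x ∈ Metric.sphere (0 : EuclideanSpace ℝ κ) 1, 1 ≤ ‖x‖ ^ 2 ∧ 0 < outF A x := by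
    intro x hx
    rw [mem_sphere_zero_iff_norm] at hx
    have h2 : 1 ≤ ‖x‖ ^ 2 := by rw [hx, one_pow]
    have h3 := le_outF A h2
    exact ⟨h2, by linarith⟩
  have h2 : {x | outF A x = c} = (fun x : EuclideanSpace ℝ κ => Real.sqrt (c / outF A x) • x) ''
      Metric.sphere (0 : EuclideanSpace ℝ κ) 1 := by
    ext x
    constructor
    · intro hx
      have hx' : outF A x = c := hx
      have h3 := one_le_of_level hc hx'
      have hn : 1 ≤ ‖x‖ := by
        by_contra hcon
        push Not at hcon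
        have := norm_nonneg x
        nlinarith
      have hn0 : 0 < ‖x‖ := by linarith
      refine ⟨‖x‖⁻¹ • x, ?_, ?_⟩
      · rw [mem_sphere_zero_iff_norm, norm_smul, norm_inv, norm_norm, inv_mul_cancel₀ hn0.ne']
      · have h4 : 1 ≤ ‖‖x‖⁻¹ • x‖ ^ 2 := by
          rw [norm_smul, norm_inv, norm_norm, inv_mul_cancel₀ hn0.ne', one_pow]
        have h5 := outF_smul A h4 hn
        rw [smul_smul, mul_inv_cancel₀ hn0.ne', one_smul, hx'] at h5
        simp only
        have h6 : outF A (‖x‖⁻¹ • x) ≠ 0 := by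
          intro h7
          rw [h7, mul_zero] at h5
          linarith
        have h7 : c / outF A (‖x‖⁻¹ • x) = ‖x‖ ^ 2 := by
          rw [div_eq_iff h6]
          exact h5
        rw [h7, Real.sqrt_sq hn0.le, smul_smul, mul_inv_cancel₀ hn0.ne', one_smul]
    · rintro ⟨y, hy, rfl⟩
      obtain ⟨h3, h4⟩ := hpos y hy
      rw [mem_sphere_zero_iff_norm] at hy
      have h5 : outF A y ≤ 1 := by
        have := outF_le A y
        rw [hy] at this
        linarith
      have h6 : 1 ≤ c / outF A y := by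
        rw [le_div_iff₀ h4]
        linarith
      change outF A (Real.sqrt (c / outF A y) • y) = c
      rw [outF_smul A h3 (Real.one_le_sqrt.mpr h6), Real.sq_sqrt (by linarith),
        div_mul_cancel₀ _ h4.ne']
  rw [h2]
  apply h1.image
  have h3 : ContinuousOn (fun x => Real.sqrt (c / outF A x))
      (Metric.sphere (0 : EuclideanSpace ℝ κ) 1) := by
    apply ContinuousOn.sqrt
    exact continuousOn_const.div (contDiff_outF A).continuous.continuousOn
      fun x hx => (hpos x hx).2.ne'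
  exact h3.smul continuousOn_id

end Pool.Agent.MP_d967a3_an
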