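import Mathlib
import Pool.Agent.Lib.MP_d967a3_an.StrLevel
import Pool.Agent.Lib.MP_d967a3_an.OuterExample

/-!
# The first integral of the outer billiard
-/

open scoped InnerProductSpace ContDiff Topology
open Set Filter

namespace Pool.Agent.MP_d967a3_an

section general

variable {κ : Type*} [Fintype κ] [DecidableEq κ]

/-- The components of the normal on the round part. -/
lemma Split.pr_normal {A : Finset κ} {r : ℝ} {b₁ b₂ f : EuclideanSpace ℝ κ → ℝ}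
    (h : Split A r b₁ b₂ f) {y ν : EuclideanSpace ℝ κ} {c : ℝ} (hc : 0 < c)
    (hν : ∀ w, fderiv ℝ f y w = c * ⟪ν, w⟫_ℝ) (hy : r ≤ ‖pr A y‖) :
    pr A ν = (2 / c) • pr A y := by
  apply ext_inner_right ℝ
  intro v
  have h1 := h.fderiv_pr hy v
  rw [hν] at h1
  rw [inner_pr, inner_smul_left]
  simp only [conj_trivial]
  field_simp
  linarith

/-- The components of the normal are short where the component of the point is short. -/
lemma Split.norm_pr_normal {A : Finset κ} {r : ℝ} {b₁ b₂ f : EuclideanSpace ℝ κ → ℝ}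
    (h : Split A r b₁ b₂ f) {y ν : EuclideanSpace ℝ κ} {c : ℝ} (hc : 0 < c)
    (hν : ∀ w, fderiv ℝ f y w = c * ⟪ν, w⟫_ℝ) (hy : ‖pr A y‖ ≤ r) :
    c * ‖pr A ν‖ ≤ 3 * r := by
  have h1 := h.fderiv_pr_le y ν
  rw [hν, ← inner_pr, ← inner_pr_pr, real_inner_self_eq_norm_sq, abs_of_nonneg (by positivity)] at h1
  rcases (norm_nonneg (pr A ν)).eq_or_lt with h2 | h2
  · rw [← h2, mul_zero]
    have := (norm_nonneg (pr A y)).trans hy
    linarith
  · have h3 : c * ‖pr A ν‖ * ‖pr A ν‖ ≤ (3 * r) * ‖pr A ν‖ := by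
      calc c * ‖pr A ν‖ * ‖pr A ν‖ = c * ‖pr A ν‖ ^ 2 := by ring
        _ ≤ (2 * ‖pr A y‖ + r) * ‖pr A ν‖ := h1
        _ ≤ (3 * r) * ‖pr A ν‖ := mul_le_mul_of_nonneg_right (by linarith) h2.le
    exact le_of_mul_le_mul_right h3 h2

variable {j : EuclideanSpace ℝ κ →ₗ[ℝ] EuclideanSpace ℝ κ}

/-- The length of the component on the round part. -/
lemma norm_round (hj : IsCplx j) {A : Finset κ} (hjA : ∀ x, pr A (j x) = j (pr A x))
    {y ν : EuclideanSpace ℝ κ} {c : ℝ} (hν : pr A ν = (2 / c) • pr A y) (s : ℝ) :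
    ‖pr A (y + s • j ν)‖ ^ 2 = ‖pr A y‖ ^ 2 * (1 + (2 * s / c) ^ 2) := by
  rw [map_add, map_smul, hjA, hν, map_smul, smul_smul, norm_add_sq_real, inner_smul_right,
    real_inner_comm, hj.inner_self, norm_smul, hj.norm, Real.norm_eq_abs, mul_pow, sq_abs]
  ring

/-- The two components on the part which is round for the second component only. -/
lemma small_big (hj : IsCplx j) {A : Finset κ} (hjA : ∀ x, pr A (j x) = j (pr A x))
    (hjA' : ∀ x, pr Aᶜ (j x) = j (pr Aᶜ x))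
    {r : ℝ} {b₁ b₂ f : EuclideanSpace ℝ κ → ℝ} (h : Split A r b₁ b₂ f) (hr0 : 0 < r)
    (hr : r ^ 2 ≤ 1 / 16) {y ν : EuclideanSpace ℝ κ} {c : ℝ} (hc : 0 < c)
    (hν : ∀ w, fderiv ℝ f y w = c * ⟪ν, w⟫_ℝ) (hy0 : 0 ≤ f y) (hy : ‖pr A y‖ ≤ r) (s : ℝ) :
    2 * ‖pr A (y + s • j ν)‖ ^ 2 ≤ ‖pr Aᶜ (y + s • j ν)‖ ^ 2 ∧
      ‖pr Aᶜ (y + s • j ν)‖ ^ 2 = ‖pr Aᶜ y‖ ^ 2 * (1 + (2 * s / c) ^ 2) := by
  have h1 := h.sq_le hy0 hy
  have h2 : r ≤ ‖pr Aᶜ y‖ := by
    have : r ^ 2 ≤ ‖pr Aᶜ y‖ ^ 2 := by linarith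
    exact (pow_le_pow_iff_left₀ hr0.le (norm_nonneg _) two_ne_zero).mp this
  have h3 := h.symm.pr_normal hc hν h2
  have h4 := norm_round hj hjA' h3 s
  refine ⟨?_, h4⟩
  have h5 := h.norm_pr_normal hc hν hy
  have h6 : ‖pr A ν‖ ≤ 3 * r / c := by
    rw [le_div_iff₀ hc]
    linarith
  have h7 : ‖pr A (y + s • j ν)‖ ≤ r + |s| * (3 * r / c) := by
    rw [map_add, map_smul, hjA]
    calc ‖pr A y + s • j (pr A ν)‖ ≤ ‖pr A y‖ + ‖s • j (pr A ν)‖ := norm_add_le _ _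
      _ ≤ r + |s| * (3 * r / c) := by
        rw [norm_smul, hj.norm, Real.norm_eq_abs]
        exact add_le_add hy (mul_le_mul_of_nonneg_left h6 (abs_nonneg s))
  have h8 : ‖pr A (y + s • j ν)‖ ^ 2 ≤ (r + |s| * (3 * r / c)) ^ 2 :=
    pow_le_pow_left₀ (norm_nonneg _) h7 2
  have h9 : (r + |s| * (3 * r / c)) ^ 2 = r ^ 2 * (1 + 3 * (|s| / c)) ^ 2 := by
    field_simp
  have h10 : (2 * s / c) ^ 2 = 4 * (|s| / c) ^ 2 := by
    rw [div_pow, div_pow, sq_abs]
    ring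
  rw [h4, h10]
  rw [h9] at h8
  set τ := |s| / c with hτ
  have h11 : (1 + 3 * τ) ^ 2 ≤ 2 + 18 * τ ^ 2 := by nlinarith [sq_nonneg (1 - 3 * τ)]
  have h12 : r ^ 2 * (1 + 3 * τ) ^ 2 ≤ 1 / 16 * (2 + 18 * τ ^ 2) :=
    mul_le_mul hr h11 (by positivity) (by norm_num)
  have h13 : (15 / 16) * (1 + 4 * τ ^ 2) ≤ ‖pr Aᶜ y‖ ^ 2 * (1 + 4 * τ ^ 2) :=
    mul_le_mul_of_nonneg_right (by linarith) (by positivity)
  nlinarith [sq_nonneg τ]

/-- The integral takes the same value at the two ends of the segment. -/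
theorem outF_eq (hj : IsCplx j) {A : Finset κ} (hjA : ∀ x, pr A (j x) = j (pr A x))
    (hjA' : ∀ x, pr Aᶜ (j x) = j (pr Aᶜ x))
    {r : ℝ} {b₁ b₂ f : EuclideanSpace ℝ κ → ℝ} (h : Split A r b₁ b₂ f) (hr0 : 0 < r)
    (hr : r ^ 2 ≤ 1 / 16) {y ν : EuclideanSpace ℝ κ} {c : ℝ} (hc : 0 < c)
    (hν : ∀ w, fderiv ℝ f y w = c * ⟪ν, w⟫_ℝ) (hy0 : 0 ≤ f y) {s : ℝ}
    (h1 : 1 ≤ ‖y + s • j ν‖ ^ 2) (h2 : 1 ≤ ‖y - s • j ν‖ ^ 2) :
    outF A (y + s • j ν) = outF A (y - s • j ν) := by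
  have hsub : y - s • j ν = y + (-s) • j ν := by
    rw [neg_smul, sub_eq_add_neg]
  rw [hsub] at h2 ⊢
  rw [norm_sq_pr A] at h1 h2
  have hsq : (2 * -s / c) ^ 2 = (2 * s / c) ^ 2 := by ring
  unfold outF
  rcases le_or_gt ‖pr A y‖ r with h3 | h3
  · obtain ⟨h4, h5⟩ := small_big hj hjA hjA' h hr0 hr hc hν hy0 h3 s
    obtain ⟨h6, h7⟩ := small_big hj hjA hjA' h hr0 hr hc hν hy0 h3 (-s)
    rw [FF_left h1 h4, FF_left h2 h6, h5, h7, hsq]
  · rcases le_or_gt ‖pr Aᶜ y‖ r with h8 | h8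
    · obtain ⟨h4, h5⟩ := small_big hj hjA' (by rwa [compl_compl]) h.symm hr0 hr hc hν hy0 h8 s
      obtain ⟨h6, h7⟩ := small_big hj hjA' (by rwa [compl_compl]) h.symm hr0 hr hc hν hy0 h8 (-s)
      rw [compl_compl] at h4 h5 h6 h7
      rw [FF_right h1 h4, FF_right h2 h6, h5, h7, hsq]
    · have h4 := norm_round hj hjA (h.pr_normal hc hν h3.le)
      have h5 := norm_round hj hjA' (h.symm.pr_normal hc hν h8.le)
      rw [h4 s, h4 (-s), h5 s, h5 (-s), hsq]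

end general

section J

variable {m : ℕ}

/-- The plane of the first complex coordinate. -/
def cplane (i₀ : Fin m) : Finset (Fin m ⊕ Fin m) := {Sum.inl i₀, Sum.inr i₀}

lemma pr_Jl (i₀ : Fin m) (x : EuclideanSpace ℝ (Fin m ⊕ Fin m)) :
    pr (cplane i₀) (Jl m x) = Jl m (pr (cplane i₀) x) := by
  ext k
  rw [pr_apply]
  rcases k with i | i
  · rw [Jl_apply, J_inl, Jl_apply, J_inl, pr_apply]
    by_cases hi : i = i₀ <;> simp [cplane, hi]
  · rw [Jl_apply, J_inr, Jl_apply, J_inr, pr_apply]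
    by_cases hi : i = i₀ <;> simp [cplane, hi]

lemma pr_compl_Jl (i₀ : Fin m) (x : EuclideanSpace ℝ (Fin m ⊕ Fin m)) :
    pr (cplane i₀)ᶜ (Jl m x) = Jl m (pr (cplane i₀)ᶜ x) := by
  have h1 := pr_add_pr (cplane i₀) (Jl m x)
  have h2 := congrArg (Jl m) (pr_add_pr (cplane i₀) x)
  rw [map_add] at h2
  rw [pr_Jl] at h1
  exact add_left_cancel (h1.trans h2.symm)

/-- The outer billiard about a body without affine symmetries, with a first integral. -/
theorem outer_strong (hm : 2 ≤ m) :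
    ∃ K : Set (EuclideanSpace ℝ (Fin m ⊕ Fin m)), IsSmoothBody K ∧ ¬ IsEllipsoid K ∧
      (∀ g : EuclideanSpace ℝ (Fin m ⊕ Fin m) ≃ᵃ[ℝ] EuclideanSpace ℝ (Fin m ⊕ Fin m),
        g '' K = K → ∀ x, g x = x) ∧
      ∃ T : EuclideanSpace ℝ (Fin m ⊕ Fin m) → EuclideanSpace ℝ (Fin m ⊕ Fin m),
        IsOuterBilliardMap K T ∧
        ∃ F : EuclideanSpace ℝ (Fin m ⊕ Fin m) → ℝ, ContDiff ℝ ∞ F ∧
          (∀ x ∉ K, F (T x) = F x ∧ ‖x‖ ^ 2 / 3 ≤ F x ∧ F x ≤ ‖x‖ ^ 2 ∧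
            ∀ s : ℝ, 1 ≤ s → F (s • x) = s ^ 2 * F x) ∧
          (∀ x ∈ K, F x < 2) ∧
          ∀ c : ℝ, 2 ≤ c → IsOuterHypersurface K {x | F x = c} ∧ IsCompact {x | F x = c} ∧
            IsConnected {x | F x = c} ∧ T '' {x | F x = c} = {x | F x = c} ∧
            (∀ y ∈ frontier K, ∃ x, F x = c ∧ ∃ (ν : EuclideanSpace ℝ (Fin m ⊕ Fin m)) (t : ℝ),
              IsOuterNormal K y ν ∧ 0 < t ∧ x = y - t • J ν) := by
  classical
  set i₀ : Fin m := ⟨0, by omega⟩ with hi₀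
  set i₁ : Fin m := ⟨1, by omega⟩ with hi₁
  have h01 : i₁ ≠ i₀ := by
    intro h
    have := congrArg Fin.val h
    simp [hi₀, hi₁] at this
  set A : Finset (Fin m ⊕ Fin m) := cplane i₀ with hAdef
  have hA : A.Nonempty := ⟨Sum.inl i₀, by simp [hAdef, cplane]⟩
  have hA' : Aᶜ.Nonempty := ⟨Sum.inl i₁, by simp [hAdef, cplane, h01]⟩
  obtain ⟨r, b₁, b₂, f, hr0, hr, hf, hsym⟩ := exists_strong A hA hA'
  have hD := hf.defining
  have : Nontrivial (Fin m ⊕ Fin m) := ⟨⟨Sum.inl i₀, Sum.inr i₀, by simp⟩⟩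
  have hnt : Nontrivial (EuclideanSpace ℝ (Fin m ⊕ Fin m)) :=
    ⟨⟨EuclideanSpace.single (Sum.inl i₀) 1, 0, by
      intro h
      have := congrArg (fun z : EuclideanSpace ℝ (Fin m ⊕ Fin m) => z (Sum.inl i₀)) h
      simp at this⟩⟩
  have hne : {x | f x ≤ 0}.Nonempty := by
    obtain ⟨z, hz⟩ := hD.neg
    exact ⟨z, hz.le⟩
  have hfr : ∀ y, f y = 0 → y ∈ frontier {x | f x ≤ 0} := by
    intro y hy
    refine ⟨subset_closure hy.le, fun h => ?_⟩
    rw [hD.mem_interior_iff] at h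
    linarith
  have hfr' : ∀ y, y ∈ frontier {x | f x ≤ 0} → f y = 0 := by
    intro y hy
    have h1 : y ∈ {x | f x ≤ 0} := hD.compact.isClosed.frontier_subset hy
    refine le_antisymm h1 ?_
    by_contra hcon
    push Not at hcon
    exact hy.2 (hD.mem_interior_iff.mpr hcon)
  have hout : ∀ x, x ∉ {x | f x ≤ 0} → 1 ≤ ‖x‖ ^ 2 := by
    intro x hx
    have h1 : 0 < f x := not_le.mp hx
    have h2 := hf.le x
    linarith
  have hin : ∀ x, f x ≤ 0 → outF A x < 2 := by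
    intro x hx
    have h1 := hf.ge x
    have h2 := outF_le A x
    linarith
  -- the map
  have hex : ∀ x, x ∉ {x | f x ≤ 0} → ∃ z, z ∉ {x | f x ≤ 0} ∧
      ∃ (y ν : EuclideanSpace ℝ (Fin m ⊕ Fin m)) (t : ℝ), y ∈ frontier {x | f x ≤ 0} ∧
        IsOuterNormal {x | f x ≤ 0} y ν ∧ 0 < t ∧ x = y - t • J ν ∧ z = (2 : ℝ) • y - x := by
    intro x hx
    obtain ⟨y, ν, t, hy, hν, ht, hxy⟩ := exists_tangent hD.compact hne hD.strictConvex.convex
      isCplx_Jl hx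
    refine ⟨(2 : ℝ) • y - x, ?_, y, ν, t, hfr y (hD.zero_of_normal hy hν), hν, ht, hxy, rfl⟩
    have e : (2 : ℝ) • y - x = y + t • Jl m ν := by
      rw [hxy]
      module
    rw [e]
    exact tangent_notMem hD.strictConvex isCplx_Jl hy hν ht.ne'
  choose! T hT using hex
  have hTeq : ∀ (x y ν : EuclideanSpace ℝ (Fin m ⊕ Fin m)) (t : ℝ), x ∉ {x | f x ≤ 0} →
      f y = 0 → IsOuterNormal {x | f x ≤ 0} y ν → 0 < t → x = y - t • Jl m ν →
      T x = (2 : ℝ) • y - x := by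
    intro x y ν t hx hy hν ht hxy
    obtain ⟨-, y', ν', t', hy', hν', ht', hxy', hTx⟩ := hT x hx
    have hy'K : y' ∈ {x | f x ≤ 0} := hD.compact.isClosed.frontier_subset hy'
    have h1 : y = y' := tangent_unique hD.strictConvex isCplx_Jl (j := Jl m) hy.le hy'K hν hν'
      ht ht' (hxy.symm.trans hxy')
    rw [hTx, h1]
  -- the integral
  have hint : ∀ (y ν : EuclideanSpace ℝ (Fin m ⊕ Fin m)) (t : ℝ), f y = 0 →
      IsOuterNormal {x | f x ≤ 0} y ν → 0 < t →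
      outF A (y + t • Jl m ν) = outF A (y - t • Jl m ν) := by
    intro y ν t hy hν ht
    obtain ⟨ν₀, hν₀, c, hc, hcν⟩ := hD.exists_normal hy
    have hνν : ν = ν₀ := hD.normal_unique hy hν hν₀
    rw [← hνν] at hcν
    apply outF_eq isCplx_Jl (pr_Jl i₀) (pr_compl_Jl i₀) hf hr0 hr hc hcν hy.ge
    · exact hout _ (tangent_notMem hD.strictConvex isCplx_Jl hy.le hν ht.ne')
    · apply hout
      rw [sub_eq_add_neg, ← neg_smul]
      exact tangent_notMem hD.strictConvex isCplx_Jl hy.le hν (neg_ne_zero.mpr ht.ne')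
  have hTF : ∀ x, x ∉ {x | f x ≤ 0} → outF A (T x) = outF A x := by
    intro x hx
    obtain ⟨-, y, ν, t, hy, hν, ht, hxy, hTx⟩ := hT x hx
    rw [hTx, hxy]
    have e : (2 : ℝ) • y - (y - t • J ν) = y + t • Jl m ν := by
      rw [← Jl_apply]
      module
    rw [e, hint y ν t (hfr' y hy) hν ht]
    rfl
  refine ⟨{x | f x ≤ 0}, hD.isSmoothBody, ?_, hsym, T, hT, outF A, contDiff_outF A, ?_, hin, ?_⟩
  · apply not_isEllipsoid
    intro g hg x
    exact hsym g.toAffineEquiv hg x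
  · intro x hx
    exact ⟨hTF x hx, le_outF A (hout x hx), outF_le A x, fun s hs => outF_smul A (hout x hx) hs⟩
  intro c hc
  have hc1 : 1 ≤ c := by linarith
  have hSK : ∀ x, outF A x = c → x ∉ {x | f x ≤ 0} := by
    intro x hx hxK
    have := hin x hxK
    linarith
  -- tangent points
  have htan : ∀ y, f y = 0 → ∀ ν, IsOuterNormal {x | f x ≤ 0} y ν →
      ∃ t : ℝ, 0 < t ∧ outF A (y - t • J ν) = c := by
    intro y hy ν hν
    have hcont : Continuous fun t : ℝ => outF A (y - t • J ν) :=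
      (contDiff_outF A).continuous.comp (by fun_prop)
    have h0 : outF A (y - (0 : ℝ) • J ν) < c := by
      rw [zero_smul, sub_zero]
      have := hin y hy.le
      linarith
    have hJn : ‖J ν‖ = 1 := by
      rw [← Jl_apply, isCplx_Jl.norm, hν.1]
    set R : ℝ := ‖y‖ + 3 * c + 1 with hR
    have hR0 : 0 < R := by positivity
    have h1 : c < outF A (y - R • J ν) := by
      have h2 : R - ‖y‖ ≤ ‖y - R • J ν‖ := by
        have h3 : ‖R • J ν‖ ≤ ‖y - R • J ν‖ + ‖y‖ := by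
          calc ‖R • J ν‖ = ‖y - (y - R • J ν)‖ := by rw [sub_sub_cancel]
            _ ≤ ‖y‖ + ‖y - R • J ν‖ := norm_sub_le _ _
            _ = _ := by ring
        rw [norm_smul, hJn, Real.norm_eq_abs, abs_of_pos hR0] at h3
        linarith
      have h3 : 3 * c + 1 ≤ ‖y - R • J ν‖ := by linarith
      have h4 : 1 ≤ ‖y - R • J ν‖ ^ 2 := by nlinarith
      have h5 := le_outF A h4
      nlinarith
    obtain ⟨t, ht, htc⟩ := intermediate_value_Icc hR0.le hcont.continuousOn ⟨h0.le, h1.le⟩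
    simp only at htc
    refine ⟨t, ?_, htc⟩
    rcases ht.1.eq_or_lt with h2 | h2
    · rw [← h2] at htc
      linarith
    · exact h2
  refine ⟨⟨?_, ?_, ?_⟩, isCompact_level A hc1, isConnected_level A hc1 ?_, ?_, ?_⟩
  · -- nonempty
    obtain ⟨y, hy⟩ : ∃ y, f y = 0 := by
      obtain ⟨t, ht, -, -⟩ := hD.exists_exit (v := EuclideanSpace.single (Sum.inl i₀) (1 : ℝ))
        (p := 0) (t₀ := 0) (by simp) (by
          rw [zero_smul, add_zero]
          have h1 := hf.le 0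
          rw [norm_zero] at h1
          linarith)
      exact ⟨_, ht⟩
    obtain ⟨ν, hν, -⟩ := hD.exists_normal hy
    obtain ⟨t, -, ht⟩ := htan y hy ν hν
    exact ⟨_, ht⟩
  · refine ⟨{x | outF A x = c}, isClosed_eq (contDiff_outF A).continuous continuous_const, ?_⟩
    ext x
    exact ⟨fun hx => ⟨hSK x hx, hx⟩, fun hx => hx.2⟩
  · intro x hx
    have hx' : outF A x = c := hx
    refine ⟨univ, fun x => outF A x - c, isOpen_univ, mem_univ _,
      (contDiff_outF A).sub contDiff_const, ?_, ?_⟩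
    · intro y _
      exact sub_eq_zero.symm
    · rw [fderiv_sub_const]
      intro h
      have h1 := fderiv_outF A (one_le_of_level hc1 hx')
      rw [h, hx'] at h1
      have h2 : (0 : ℝ) = 2 * c := h1
      linarith
  · -- the rank
    have h1 : 1 < Module.finrank ℝ (EuclideanSpace ℝ (Fin m ⊕ Fin m)) := by
      rw [finrank_euclideanSpace, Fintype.card_sum, Fintype.card_fin]
      omega
    rw [← Module.finrank_eq_rank]
    exact_mod_cast h1
  · apply Subset.antisymm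
    · rintro _ ⟨x, hx, rfl⟩
      have hx' : outF A x = c := hx
      change outF A (T x) = c
      rw [hTF x (hSK x hx'), hx']
    · intro z hz
      have hz' : outF A z = c := hz
      have hzK := hSK z hz'
      obtain ⟨y, ν, t, hy, hν, ht, hxy⟩ := exists_tangent hD.compact hne
        hD.strictConvex.convex isCplx_Jl.neg hzK
      have hy0 := hD.zero_of_normal hy hν
      have e : z = y + t • Jl m ν := by
        rw [hxy, LinearMap.neg_apply, smul_neg, sub_neg_eq_add]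
      have h1 := hint y ν t hy0 hν ht
      rw [← e, hz'] at h1
      have h2 := hSK _ h1.symm
      refine ⟨y - t • Jl m ν, h1.symm, ?_⟩
      rw [hTeq _ y ν t h2 hy0 hν ht rfl, e]
      module
  · intro y hy
    have hy0 := hfr' y hy
    obtain ⟨ν, hν, -⟩ := hD.exists_normal hy0
    obtain ⟨t, ht, htc⟩ := htan y hy0 ν hν
    exact ⟨_, htc, ν, t, hν, ht, rfl⟩

end J

end Pool.Agent.MP_d967a3_an
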