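import Mathlib
import Pool.Agent.Lib.MP_d967a3_an.StrOuter
import Pool.Agent.Lib.MP_d967a3_an.InnerExample

/-!
# The first integral of the inner billiard
-/

open scoped InnerProductSpace ContDiff Topology
open Set Filter

namespace Pool.Agent.MP_d967a3_an

variable {κ : Type*} [Fintype κ] [DecidableEq κ]

/-- The square of the angular momentum of the component in `V₁`. -/
noncomputable def GG (A : Finset κ) (x v : EuclideanSpace ℝ κ) : ℝ :=
  ‖pr A x‖ ^ 2 * ‖pr A v‖ ^ 2 - ⟪pr A x, pr A v⟫_ℝ ^ 2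

lemma GG_nonneg (A : Finset κ) (x v : EuclideanSpace ℝ κ) : 0 ≤ GG A x v := by
  unfold GG
  have h1 := abs_real_inner_le_norm (pr A x) (pr A v)
  have h2 : ⟪pr A x, pr A v⟫_ℝ ^ 2 ≤ (‖pr A x‖ * ‖pr A v‖) ^ 2 := by
    rw [← sq_abs]
    exact pow_le_pow_left₀ (abs_nonneg _) h1 2
  rw [mul_pow] at h2
  linarith

lemma GG_le (A : Finset κ) (x v : EuclideanSpace ℝ κ) : GG A x v ≤ ‖pr A x‖ ^ 2 * ‖pr A v‖ ^ 2 := by
  unfold GG
  have := sq_nonneg ⟪pr A x, pr A v⟫_ℝ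
  linarith

lemma GG_translate (A : Finset κ) (x v : EuclideanSpace ℝ κ) (t : ℝ) :
    GG A (x + t • v) v = GG A x v := by
  unfold GG
  rw [map_add, map_smul, norm_add_sq_real, inner_add_left, inner_smul_left, inner_smul_right,
    norm_smul, real_inner_self_eq_norm_sq, mul_pow, Real.norm_eq_abs, sq_abs]
  simp only [conj_trivial]
  ring

lemma GG_neg (A : Finset κ) (x v : EuclideanSpace ℝ κ) : GG A x (-v) = GG A x v := by
  unfold GG
  rw [map_neg, norm_neg, inner_neg_right, neg_sq]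

lemma GG_radial {A : Finset κ} {x ν : EuclideanSpace ℝ κ} {μ : ℝ} (h : pr A ν = μ • pr A x)
    (v : EuclideanSpace ℝ κ) (s : ℝ) : GG A x (v - s • ν) = GG A x v := by
  unfold GG
  rw [map_sub, map_smul, h, smul_smul, norm_sub_sq_real, inner_sub_right, inner_smul_right,
    inner_smul_right, norm_smul, real_inner_self_eq_norm_sq, mul_pow, Real.norm_eq_abs, sq_abs,
    real_inner_comm (pr A v) (pr A x)]
  ring

/-- The first integral of the inner billiard, a function of oriented lines `(v, p)`. -/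
noncomputable def inF (A : Finset κ) (r : ℝ) (ℓ : EuclideanSpace ℝ κ × EuclideanSpace ℝ κ) : ℝ :=
  expNegInvGlue (GG A ℓ.2 ℓ.1 - r ^ 2) + expNegInvGlue (GG Aᶜ ℓ.2 ℓ.1 - r ^ 2)

lemma contDiff_GG (A : Finset κ) : ContDiff ℝ ∞ fun ℓ : EuclideanSpace ℝ κ × EuclideanSpace ℝ κ =>
    GG A ℓ.2 ℓ.1 := by
  unfold GG
  have h1 : ContDiff ℝ ∞ fun ℓ : EuclideanSpace ℝ κ × EuclideanSpace ℝ κ => pr A ℓ.1 :=
    (pr A).contDiff.comp contDiff_fst
  have h2 : ContDiff ℝ ∞ fun ℓ : EuclideanSpace ℝ κ × EuclideanSpace ℝ κ => pr A ℓ.2 :=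
    (pr A).contDiff.comp contDiff_snd
  exact ((h2.norm_sq ℝ).mul (h1.norm_sq ℝ)).sub ((h2.inner ℝ h1).pow 2)

lemma contDiff_inF (A : Finset κ) (r : ℝ) : ContDiff ℝ ∞ (inF A r) := by
  unfold inF
  exact (expNegInvGlue.contDiff.comp ((contDiff_GG A).sub contDiff_const)).add
    (expNegInvGlue.contDiff.comp ((contDiff_GG Aᶜ).sub contDiff_const))

lemma inF_compl (A : Finset κ) (r : ℝ) : inF Aᶜ r = inF A r := by
  funext ℓ
  unfold inF
  rw [compl_compl, add_comm]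

lemma inF_translate (A : Finset κ) (r : ℝ) (v x : EuclideanSpace ℝ κ) (t : ℝ) :
    inF A r (v, x + t • v) = inF A r (v, x) := by
  unfold inF
  simp only [GG_translate]

lemma inF_neg (A : Finset κ) (r : ℝ) (ℓ : EuclideanSpace ℝ κ × EuclideanSpace ℝ κ) :
    inF A r (-ℓ.1, ℓ.2) = inF A r ℓ := by
  unfold inF
  simp only [GG_neg]

/-- A short component has no influence. -/
lemma glue_zero {A : Finset κ} {r : ℝ} {x v : EuclideanSpace ℝ κ} (hx : ‖pr A x‖ ≤ r)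
    (hv : ‖v‖ = 1) : expNegInvGlue (GG A x v - r ^ 2) = 0 := by
  apply expNegInvGlue.zero_of_nonpos
  have h1 := GG_le A x v
  have h2 : ‖pr A x‖ ^ 2 ≤ r ^ 2 := pow_le_pow_left₀ (norm_nonneg _) hx 2
  have h3 : ‖pr A v‖ ^ 2 ≤ 1 := by
    have := norm_pr_le A v
    rw [hv] at this
    exact pow_le_one₀ (norm_nonneg _) this
  have h4 : ‖pr A x‖ ^ 2 * ‖pr A v‖ ^ 2 ≤ r ^ 2 * 1 :=
    mul_le_mul h2 h3 (sq_nonneg _) (sq_nonneg _)
  linarith

lemma glue_reflect {A : Finset κ} {r : ℝ} {b₁ b₂ f : EuclideanSpace ℝ κ → ℝ}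
    (h : Split A r b₁ b₂ f) {x v ν : EuclideanSpace ℝ κ} {c : ℝ} (hc : 0 < c)
    (hν : ∀ w, fderiv ℝ f x w = c * ⟪ν, w⟫_ℝ) (hv : ‖v‖ = 1) (s : ℝ) (hv' : ‖v - s • ν‖ = 1) :
    expNegInvGlue (GG A x (v - s • ν) - r ^ 2) = expNegInvGlue (GG A x v - r ^ 2) := by
  rcases le_or_gt r ‖pr A x‖ with h1 | h1
  · rw [GG_radial (h.pr_normal hc hν h1)]
  · rw [glue_zero h1.le hv, glue_zero h1.le hv']

/-- The function is a first integral. -/
theorem inF_reflect {A : Finset κ} {r : ℝ} {b₁ b₂ f : EuclideanSpace ℝ κ → ℝ}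
    (h : Split A r b₁ b₂ f) {ℓ ℓ' : EuclideanSpace ℝ κ × EuclideanSpace ℝ κ}
    (hℓ : ℓ ∈ phaseSpace {x | f x ≤ 0}) (href : IsReflection {x | f x ≤ 0} ℓ ℓ') :
    inF A r ℓ' = inF A r ℓ := by
  obtain ⟨v, p⟩ := ℓ
  obtain ⟨v', p'⟩ := ℓ'
  obtain ⟨hv, -, -⟩ := hℓ
  obtain ⟨t, x, ν, hx, hxΩ, hs, hν, ha, hb⟩ := href
  simp only at hv hx hs ha hb
  have hfx : f x = 0 := by
    rw [hx]
    exact h.defining.exit_zero (ℓ := (v, p)) (by rw [← hx]; exact hxΩ) hs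
  obtain ⟨ν₀, hν₀, c, hc, hcν⟩ := h.defining.exists_normal hfx
  have hνν : ν = ν₀ := h.defining.normal_unique hfx hν hν₀
  rw [← hνν] at hcν
  have h1 : inF A r (v', p') = inF A r (v', x) := by
    rw [hb, sub_eq_add_neg, ← neg_smul, inF_translate]
  have h2 : inF A r (v, p) = inF A r (v, x) := by
    rw [hx, inF_translate]
  rw [h1, h2, ha]
  have hv' : ‖v - (2 * ⟪v, ν⟫_ℝ) • ν‖ = 1 := by rw [norm_reflect hν.1, hv]
  unfold inF
  simp only
  rw [glue_reflect h hc hcν hv _ hv', glue_reflect h.symm hc hcν hv _ hv']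

/-! ### Regularity -/

lemma hasDerivAt_glue {t : ℝ} (ht : 0 < t) :
    ∃ d : ℝ, 0 < d ∧ HasDerivAt expNegInvGlue d t := by
  refine ⟨Real.exp (-t⁻¹) * (t ^ 2)⁻¹, by positivity, ?_⟩
  have h1 : HasDerivAt (fun x : ℝ => Real.exp (-x⁻¹)) (Real.exp (-t⁻¹) * (t ^ 2)⁻¹) t := by
    have h2 := (hasDerivAt_inv ht.ne').neg
    rw [neg_neg] at h2
    exact h2.exp
  apply h1.congr_of_eventuallyEq
  filter_upwards [lt_mem_nhds ht] with x hx
  unfold expNegInvGlue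
  rw [if_neg (not_le.mpr hx)]

lemma regular_aux {A : Finset κ} {r : ℝ} {v p : EuclideanSpace ℝ κ}
    (h : r ^ 2 < GG A p v) : ∃ w : EuclideanSpace ℝ κ, ⟪v, w⟫_ℝ = 0 ∧
      fderiv ℝ (inF A r) (v, p) (0, w) ≠ 0 := by
  set w : EuclideanSpace ℝ κ := ‖pr A v‖ ^ 2 • pr A p - ⟪pr A p, pr A v⟫_ℝ • pr A v with hw
  have hwA : pr A w = w := by
    rw [hw, map_sub, map_smul, map_smul, pr_pr, pr_pr]
  have hwA' : pr Aᶜ w = 0 := by rw [← hwA, pr_compl_pr]
  have hwv : ⟪w, pr A v⟫_ℝ = 0 := by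
    rw [hw, inner_sub_left, inner_smul_left, inner_smul_left, real_inner_self_eq_norm_sq]
    simp only [conj_trivial]
    ring
  have hwp : ⟪pr A p, w⟫_ℝ = GG A p v := by
    rw [hw, inner_sub_right, inner_smul_right, inner_smul_right, real_inner_self_eq_norm_sq, GG]
    ring
  have h0 : 0 < GG A p v := (sq_nonneg r).trans_lt h
  have hv0 : 0 < ‖pr A v‖ ^ 2 := by
    have h1 := GG_le A p v
    by_contra hcon
    have h2 : ‖pr A v‖ ^ 2 = 0 := le_antisymm (not_lt.mp hcon) (sq_nonneg _)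
    rw [h2, mul_zero] at h1
    linarith
  refine ⟨w, ?_, ?_⟩
  · rw [real_inner_comm, ← hwA, inner_pr, hwv]
  have e1 : ∀ s : ℝ, GG A (p + s • w) v =
      GG A p v + (2 * GG A p v * ‖pr A v‖ ^ 2) * s + (‖w‖ ^ 2 * ‖pr A v‖ ^ 2) * s ^ 2 := by
    intro s
    have h1 : GG A (p + s • w) v = ‖pr A p + s • w‖ ^ 2 * ‖pr A v‖ ^ 2 -
        ⟪pr A p + s • w, pr A v⟫_ℝ ^ 2 := by
      unfold GG
      rw [map_add, map_smul, hwA]
    rw [h1, norm_add_sq_real, inner_add_left, inner_smul_left, hwv, inner_smul_right, hwp,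
      norm_smul, mul_pow, Real.norm_eq_abs, sq_abs]
    have h2 : GG A p v = ‖pr A p‖ ^ 2 * ‖pr A v‖ ^ 2 - ⟪pr A p, pr A v⟫_ℝ ^ 2 := rfl
    rw [h2]
    simp only [mul_zero, add_zero]
    ring
  have e2 : ∀ s : ℝ, GG Aᶜ (p + s • w) v = GG Aᶜ p v := by
    intro s
    unfold GG
    rw [map_add, map_smul, hwA', smul_zero, add_zero]
  obtain ⟨d, hd, hder⟩ := hasDerivAt_glue (sub_pos.mpr h)
  have h1 := hasDerivAt_line ((contDiff_inF A r).differentiable (by norm_num)) (v, p) (0, w) 0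
  rw [zero_smul, add_zero] at h1
  have h2 : HasDerivAt (fun s : ℝ => GG A (p + s • w) v - r ^ 2) (2 * GG A p v * ‖pr A v‖ ^ 2) 0 := by
    apply hasDerivAt_quadratic (c₀ := GG A p v - r ^ 2) (c₂ := ‖w‖ ^ 2 * ‖pr A v‖ ^ 2)
    intro s
    rw [e1]
    ring
  have h3 : HasDerivAt (fun s : ℝ => expNegInvGlue (GG A (p + s • w) v - r ^ 2))
      (d * (2 * GG A p v * ‖pr A v‖ ^ 2)) 0 := by
    have h4 : GG A (p + (0 : ℝ) • w) v - r ^ 2 = GG A p v - r ^ 2 := by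
      rw [zero_smul, add_zero]
    exact HasDerivAt.comp (0 : ℝ) (h₂ := expNegInvGlue) (by rw [h4]; exact hder) h2
  have h4 : (fun s : ℝ => inF A r ((v, p) + s • (0, w))) = fun s : ℝ =>
      expNegInvGlue (GG A (p + s • w) v - r ^ 2) + expNegInvGlue (GG Aᶜ p v - r ^ 2) := by
    funext s
    have h5 : ((v, p) + s • ((0 : EuclideanSpace ℝ κ), w)) = (v, p + s • w) := by
      rw [Prod.smul_mk, Prod.mk_add_mk, smul_zero, add_zero]
    rw [h5]
    unfold inF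
    simp only
    rw [e2]
  rw [h4] at h1
  have h5 := h1.unique (h3.add_const _)
  rw [h5]
  have : 0 < d * (2 * GG A p v * ‖pr A v‖ ^ 2) := by positivity
  exact this.ne'

lemma inF_regular {A : Finset κ} {r : ℝ} {v p : EuclideanSpace ℝ κ} (h : 0 < inF A r (v, p)) :
    ∃ w : EuclideanSpace ℝ κ, ⟪v, w⟫_ℝ = 0 ∧ fderiv ℝ (inF A r) (v, p) (0, w) ≠ 0 := by
  rcases lt_or_ge (r ^ 2) (GG A p v) with h1 | h1
  · exact regular_aux h1
  · rcases lt_or_ge (r ^ 2) (GG Aᶜ p v) with h2 | h2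
    · have h3 := regular_aux h2
      rw [inF_compl] at h3
      exact h3
    · exfalso
      unfold inF at h
      simp only at h
      rw [expNegInvGlue.zero_of_nonpos (by linarith), expNegInvGlue.zero_of_nonpos (by linarith)]
        at h
      linarith

/-! ### Every boundary point is hit -/

lemma exists_orth (B : Finset κ) (hB : 2 ≤ B.card) (z : EuclideanSpace ℝ κ) :
    ∃ u : EuclideanSpace ℝ κ, pr B u = u ∧ ‖u‖ = 1 ∧ ⟪u, z⟫_ℝ = 0 := by
  obtain ⟨i, hi, j, hj, hij⟩ := Finset.one_lt_card.mp (by omega : 1 < B.card)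
  have key : ∀ a b : ℝ, pr B (EuclideanSpace.single i a + EuclideanSpace.single j b) =
      EuclideanSpace.single i a + EuclideanSpace.single j b := by
    intro a b
    ext k
    rw [pr_apply]
    by_cases hk : k ∈ B
    · rw [if_pos hk]
    · have h1 : k ≠ i := fun h => hk (h ▸ hi)
      have h2 : k ≠ j := fun h => hk (h ▸ hj)
      simp [hk, h1, h2]
  have hinn : ∀ a b : ℝ, ⟪EuclideanSpace.single i a + EuclideanSpace.single j b, z⟫_ℝ =
      a * z i + b * z j := by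
    intro a b
    rw [inner_add_left, EuclideanSpace.inner_single_left, EuclideanSpace.inner_single_left]
    simp
  by_cases h : z i = 0
  · refine ⟨EuclideanSpace.single i 1 + EuclideanSpace.single j 0, key 1 0, ?_, ?_⟩
    · have h0 : EuclideanSpace.single j (0 : ℝ) = 0 := by
        ext k
        simp
      rw [h0, add_zero, PiLp.norm_single, norm_one]
    · rw [hinn, h]
      ring
  · set y : EuclideanSpace ℝ κ := EuclideanSpace.single i (z j) + EuclideanSpace.single j (-z i)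
      with hy
    have hy0 : y ≠ 0 := by
      intro h0
      have h1 := congrArg (fun x : EuclideanSpace ℝ κ => x j) h0
      simp [hy, Ne.symm hij] at h1
      exact h h1
    have hn : 0 < ‖y‖ := norm_pos_iff.mpr hy0
    refine ⟨‖y‖⁻¹ • y, ?_, ?_, ?_⟩
    · rw [map_smul, hy, key]
    · rw [norm_smul, norm_inv, norm_norm, inv_mul_cancel₀ hn.ne']
    · rw [inner_smul_left, hy, hinn]
      simp only [conj_trivial]
      ring

lemma hit_aux {A : Finset κ} {r : ℝ} {b₁ b₂ f : EuclideanSpace ℝ κ → ℝ}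
    (h : Split A r b₁ b₂ f) (hr : r ^ 2 ≤ 1 / 16) (hr0 : 0 < r) (hA' : 2 ≤ Aᶜ.card)
    {g : ℝ} (hg : 0 < g) (hg1 : g < 1 / 4) {y : EuclideanSpace ℝ κ} (hy : f y = 0)
    (hy2 : 1 / 2 ≤ ‖pr Aᶜ y‖ ^ 2) :
    ∃ ℓ ∈ phaseSpace {x | f x ≤ 0}, inF A r ℓ = expNegInvGlue (g - r ^ 2) ∧
      ∃ t : ℝ, y = ℓ.2 + t • ℓ.1 := by
  obtain ⟨ν, hν, c, hc, hcν⟩ := h.defining.exists_normal hy
  obtain ⟨u, hu, hun, huy⟩ := exists_orth Aᶜ hA' (pr Aᶜ y)
  have hry : r ≤ ‖pr Aᶜ y‖ := by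
    have : r ^ 2 ≤ ‖pr Aᶜ y‖ ^ 2 := by linarith
    exact (pow_le_pow_iff_left₀ hr0.le (norm_nonneg _) two_ne_zero).mp this
  have hpν : pr Aᶜ ν = (2 / c) • pr Aᶜ y := h.symm.pr_normal hc hcν hry
  have huν : ⟪u, ν⟫_ℝ = 0 := by
    rw [← hu, inner_pr, hpν, inner_smul_right, huy, mul_zero]
  have hpu : pr A u = 0 := by rw [← hu, pr_pr_compl]
  obtain ⟨s, hs0, hs1, hsg⟩ : ∃ s : ℝ, 0 ≤ s ∧ s ^ 2 < 1 ∧ s ^ 2 * ‖pr Aᶜ y‖ ^ 2 = g := by
    refine ⟨Real.sqrt (g / ‖pr Aᶜ y‖ ^ 2), Real.sqrt_nonneg _, ?_, ?_⟩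
    · rw [Real.sq_sqrt (by positivity), div_lt_one (by linarith)]
      linarith
    · rw [Real.sq_sqrt (by positivity), div_mul_cancel₀ _ (by linarith)]
  set C : ℝ := Real.sqrt (1 - s ^ 2) with hC
  have hC2 : C ^ 2 = 1 - s ^ 2 := Real.sq_sqrt (by linarith)
  have hC0 : 0 < C := Real.sqrt_pos.mpr (by linarith)
  set v : EuclideanSpace ℝ κ := s • u - C • ν with hv
  have hvn : ‖v‖ = 1 := by
    have h1 : ‖v‖ ^ 2 = 1 := by
      rw [hv, norm_sub_sq_real, inner_smul_left, inner_smul_right, huν, norm_smul, norm_smul, hun,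
        hν.1, Real.norm_eq_abs, Real.norm_eq_abs, mul_one, mul_one, sq_abs, sq_abs, hC2]
      ring
    exact (pow_left_inj₀ (norm_nonneg _) zero_le_one two_ne_zero).mp (by rw [h1, one_pow])
  have hG2 : GG Aᶜ y v = g := by
    have e1 : GG Aᶜ y v = ‖pr Aᶜ y‖ ^ 2 * ‖s • u - (C * (2 / c)) • pr Aᶜ y‖ ^ 2 -
        ⟪pr Aᶜ y, s • u - (C * (2 / c)) • pr Aᶜ y⟫_ℝ ^ 2 := by
      unfold GG
      rw [hv, map_sub, map_smul, map_smul, hu, hpν, smul_smul]
    have huy' : ⟪pr Aᶜ y, u⟫_ℝ = 0 := by rw [real_inner_comm, huy]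
    rw [e1, norm_sub_sq_real, inner_sub_right, inner_smul_right, inner_smul_right,
      inner_smul_left, inner_smul_right, huy, huy', real_inner_self_eq_norm_sq,
      norm_smul, norm_smul, hun, Real.norm_eq_abs, Real.norm_eq_abs, mul_one, sq_abs, mul_pow,
      sq_abs]
    simp only [mul_zero]
    linear_combination hsg
  have hG1 : expNegInvGlue (GG A y v - r ^ 2) = 0 := by
    rcases le_or_gt r ‖pr A y‖ with h1 | h1
    · have h2 : GG A y v = 0 := by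
        rw [hv, GG_radial (h.pr_normal hc hcν h1)]
        unfold GG
        rw [map_smul, hpu]
        simp
      rw [h2]
      apply expNegInvGlue.zero_of_nonpos
      have := sq_nonneg r
      linarith
    · exact glue_zero h1.le hvn
  refine ⟨(v, y + (-⟪y, v⟫_ℝ) • v), ⟨hvn, ?_, ?_⟩, ?_, ⟪y, v⟫_ℝ, ?_⟩
  · rw [inner_add_right, inner_smul_right, real_inner_self_eq_norm_sq, hvn, real_inner_comm]
    ring
  · have h1 : fderiv ℝ f y v < 0 := by
      rw [hcν, hv, inner_sub_right, inner_smul_right, inner_smul_right, real_inner_comm, huν,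
        real_inner_self_eq_norm_sq, hν.1]
      have := mul_pos hc hC0
      linarith
    obtain ⟨δ, hδ, hneg⟩ := h.defining.exists_neg hy h1
    refine ⟨⟪y, v⟫_ℝ + δ, ?_⟩
    rw [h.defining.mem_interior_iff]
    simp only
    have : y + (-⟪y, v⟫_ℝ) • v + (⟪y, v⟫_ℝ + δ) • v = y + δ • v := by module
    rw [this]
    exact hneg
  · rw [inF_translate]
    unfold inF
    simp only
    rw [hG1, hG2, zero_add]
  · simp only
    module

lemma hit {A : Finset κ} {r : ℝ} {b₁ b₂ f : EuclideanSpace ℝ κ → ℝ}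
    (h : Split A r b₁ b₂ f) (hr : r ^ 2 ≤ 1 / 16) (hr0 : 0 < r) (hA : 2 ≤ A.card)
    (hA' : 2 ≤ Aᶜ.card) {g : ℝ} (hg : 0 < g) (hg1 : g < 1 / 4) {y : EuclideanSpace ℝ κ}
    (hy : f y = 0) :
    ∃ ℓ ∈ phaseSpace {x | f x ≤ 0}, inF A r ℓ = expNegInvGlue (g - r ^ 2) ∧
      ∃ t : ℝ, y = ℓ.2 + t • ℓ.1 := by
  have h1 := h.le y
  have h2 := norm_sq_pr A y
  rcases le_or_gt (1 / 2) (‖pr Aᶜ y‖ ^ 2) with h3 | h3
  · exact hit_aux h hr hr0 hA' hg hg1 hy h3
  · have h4 := hit_aux h.symm hr hr0 (by rwa [compl_compl]) hg hg1 hy (by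
      rw [compl_compl]
      linarith)
    rw [inF_compl] at h4
    exact h4

end Pool.Agent.MP_d967a3_an
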