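import Mathlib
import Pool.Agent.Lib.MP_d967a3_an.StrInner

/-!
# Connectedness of the levels of the first integral: preparations
-/

open scoped InnerProductSpace ContDiff Topology
open Set Filter

namespace Pool.Agent.MP_d967a3_an

section conn

variable {X : Type*} [TopologicalSpace X]

/-- Two points are in a connected subset of `S`. -/
def Conn (S : Set X) (p q : X) : Prop := ∃ t ⊆ S, p ∈ t ∧ q ∈ t ∧ IsPreconnected t

lemma Conn.refl {S : Set X} {p : X} (h : p ∈ S) : Conn S p p :=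
  ⟨{p}, singleton_subset_iff.mpr h, rfl, rfl, isPreconnected_singleton⟩

lemma Conn.symm {S : Set X} {p q : X} (h : Conn S p q) : Conn S q p := by
  obtain ⟨t, h1, h2, h3, h4⟩ := h
  exact ⟨t, h1, h3, h2, h4⟩

lemma Conn.trans {S : Set X} {p q s : X} (h : Conn S p q) (h' : Conn S q s) : Conn S p s := by
  obtain ⟨t, h1, h2, h3, h4⟩ := h
  obtain ⟨t', h1', h2', h3', h4'⟩ := h'
  exact ⟨t ∪ t', union_subset h1 h1', Or.inl h2, Or.inr h3', h4.union q h3 h2' h4'⟩

lemma Conn.mem_left {S : Set X} {p q : X} (h : Conn S p q) : p ∈ S := by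
  obtain ⟨t, h1, h2, -, -⟩ := h
  exact h1 h2

lemma Conn.of_image {Y : Type*} [TopologicalSpace Y] {S : Set X} {P : Set Y}
    (hP : IsPreconnected P) {γ : Y → X} (hγ : ContinuousOn γ P) (h : ∀ y ∈ P, γ y ∈ S) {a b : Y}
    (ha : a ∈ P) (hb : b ∈ P) : Conn S (γ a) (γ b) :=
  ⟨γ '' P, image_subset_iff.mpr h, mem_image_of_mem γ ha, mem_image_of_mem γ hb, hP.image γ hγ⟩

lemma Conn.of_path {S : Set X} {γ : ℝ → X} {a b : ℝ} (hab : a ≤ b)
    (hγ : ContinuousOn γ (Icc a b)) (h : ∀ t ∈ Icc a b, γ t ∈ S) : Conn S (γ a) (γ b) :=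
  Conn.of_image isPreconnected_Icc hγ h (left_mem_Icc.mpr hab) (right_mem_Icc.mpr hab)

end conn

/-! ### The inverse of the flat function -/

/-- The inverse of `expNegInvGlue`. -/
noncomputable def glueInv (t : ℝ) : ℝ := -(Real.log t)⁻¹

lemma glueInv_zero : glueInv 0 = 0 := by
  simp [glueInv]

lemma glueInv_glue {t : ℝ} (ht : 0 < t) : glueInv (expNegInvGlue t) = t := by
  unfold glueInv expNegInvGlue
  rw [if_neg (not_le.mpr ht), Real.log_exp, inv_neg, neg_neg, inv_inv]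

lemma glue_glueInv {t : ℝ} (h0 : 0 ≤ t) (h1 : t < 1) : expNegInvGlue (glueInv t) = t := by
  rcases h0.eq_or_lt with h | h
  · rw [← h, glueInv_zero, expNegInvGlue.zero_of_nonpos le_rfl]
  · have h2 := Real.log_neg h h1
    have h3 : 0 < glueInv t := by
      unfold glueInv
      have := inv_lt_zero.mpr h2
      linarith
    unfold expNegInvGlue
    rw [if_neg (not_le.mpr h3)]
    unfold glueInv
    rw [inv_neg, neg_neg, inv_inv, Real.exp_log h]

lemma glueInv_nonneg {t : ℝ} (h0 : 0 ≤ t) (h1 : t < 1) : 0 ≤ glueInv t := by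
  unfold glueInv
  have h2 : Real.log t ≤ 0 := Real.log_nonpos h0 h1.le
  have := inv_nonpos.mpr h2
  linarith

lemma continuousOn_glueInv {c : ℝ} (hc : c < 1) : ContinuousOn glueInv (Icc 0 c) := by
  intro t ht
  rcases ht.1.eq_or_lt with h | h
  · rw [← h]
    have h1 : Tendsto glueInv (𝓝[>] 0) (𝓝 0) := by
      have h2 := (tendsto_inv_atBot_zero (𝕜 := ℝ)).comp Real.tendsto_log_nhdsGT_zero
      have h3 := h2.neg
      rw [neg_zero] at h3
      exact h3
    have h2 : ContinuousWithinAt glueInv (Ioi 0) 0 := by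
      unfold ContinuousWithinAt
      rw [glueInv_zero]
      exact h1
    have h3 : ContinuousWithinAt glueInv (insert 0 (Ioi 0)) 0 :=
      continuousWithinAt_insert_self.mpr h2
    apply h3.mono
    intro s hs
    rcases hs.1.eq_or_lt with h4 | h4
    · exact Or.inl h4.symm
    · exact Or.inr h4
  · have h1 : Real.log t ≠ 0 := (Real.log_neg h (by linarith [ht.2])).ne
    exact ((Real.continuousAt_log h.ne').inv₀ h1).neg.continuousWithinAt

/-- The curve of the values of the two momenta. -/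
def curve (r g : ℝ) : Set (ℝ × ℝ) :=
  {s | 0 ≤ s.1 ∧ 0 ≤ s.2 ∧
    expNegInvGlue (s.1 - r ^ 2) + expNegInvGlue (s.2 - r ^ 2) = expNegInvGlue (g - r ^ 2)}

lemma curve_le {r g : ℝ} (hg : r ^ 2 < g) {s : ℝ × ℝ} (hs : s ∈ curve r g) :
    s.1 ≤ g ∧ s.2 ≤ g := by
  obtain ⟨-, -, h3⟩ := hs
  have h1 := expNegInvGlue.nonneg (s.1 - r ^ 2)
  have h2 := expNegInvGlue.nonneg (s.2 - r ^ 2)
  constructor
  · by_contra hcon
    push Not at hcon
    have := expNegInvGlue_lt (s := g - r ^ 2) (t := s.1 - r ^ 2) (by linarith) (by linarith)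
    linarith
  · by_contra hcon
    push Not at hcon
    have := expNegInvGlue_lt (s := g - r ^ 2) (t := s.2 - r ^ 2) (by linarith) (by linarith)
    linarith

lemma glue_eq_iff {r g s : ℝ} (hg : r ^ 2 < g)
    (h : expNegInvGlue (s - r ^ 2) = expNegInvGlue (g - r ^ 2)) : s = g := by
  have := expNegInvGlue_inj h (by linarith)
  linarith

theorem isPreconnected_curve {r g : ℝ} (hg : r ^ 2 < g) : IsPreconnected (curve r g) := by
  set c := expNegInvGlue (g - r ^ 2) with hc
  have hr : 0 ≤ r ^ 2 := sq_nonneg r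
  have hc0 : 0 < c := expNegInvGlue.pos_of_pos (by linarith)
  have hc1 : c < 1 := by
    rw [hc]
    unfold expNegInvGlue
    rw [if_neg (by linarith)]
    apply Real.exp_lt_one_iff.mpr
    have : 0 < (g - r ^ 2)⁻¹ := inv_pos.mpr (by linarith)
    linarith
  set γ : ℝ → ℝ × ℝ := fun τ => (r ^ 2 + glueInv τ, r ^ 2 + glueInv (c - τ)) with hγ
  have hcov : curve r g = γ '' Icc 0 c ∪ ((fun s => (g, s)) '' Icc 0 (r ^ 2)) ∪
      ((fun s => (s, g)) '' Icc 0 (r ^ 2)) := by
    apply Subset.antisymm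
    · rintro ⟨s₁, s₂⟩ ⟨h1, h2, h3⟩
      simp only at h1 h2 h3
      rcases le_or_gt s₁ (r ^ 2) with h4 | h4
      · rw [expNegInvGlue.zero_of_nonpos (by linarith), zero_add] at h3
        have h5 := glue_eq_iff hg h3
        exact Or.inr ⟨s₁, ⟨h1, h4⟩, by rw [h5]⟩
      · rcases le_or_gt s₂ (r ^ 2) with h5 | h5
        · rw [expNegInvGlue.zero_of_nonpos (x := s₂ - r ^ 2) (by linarith), add_zero] at h3
          have h6 := glue_eq_iff hg h3
          exact Or.inl (Or.inr ⟨s₂, ⟨h2, h5⟩, by rw [h6]⟩)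
        · refine Or.inl (Or.inl ⟨expNegInvGlue (s₁ - r ^ 2), ⟨expNegInvGlue.nonneg _, ?_⟩, ?_⟩)
          · have := expNegInvGlue.nonneg (s₂ - r ^ 2)
            linarith
          · have h6 : c - expNegInvGlue (s₁ - r ^ 2) = expNegInvGlue (s₂ - r ^ 2) := by
              rw [hc]
              linarith
            simp only [hγ]
            rw [h6, glueInv_glue (by linarith), glueInv_glue (by linarith)]
            simp
    · rintro s ((⟨τ, hτ, rfl⟩ | ⟨τ, hτ, rfl⟩) | ⟨τ, hτ, rfl⟩)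
      · have h1 := glueInv_nonneg hτ.1 (by linarith [hτ.2])
        have h2 := glueInv_nonneg (t := c - τ) (by linarith [hτ.2]) (by linarith [hτ.1])
        refine ⟨by simp only [hγ]; linarith, by simp only [hγ]; linarith, ?_⟩
        simp only [hγ, add_sub_cancel_left]
        rw [glue_glueInv hτ.1 (by linarith [hτ.2]),
          glue_glueInv (by linarith [hτ.2]) (by linarith [hτ.1])]
        ring
      · refine ⟨by simp only; linarith, hτ.1, ?_⟩
        simp only
        rw [expNegInvGlue.zero_of_nonpos (x := τ - r ^ 2) (by linarith [hτ.2]), add_zero]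
      · refine ⟨hτ.1, by simp only; linarith, ?_⟩
        simp only
        rw [expNegInvGlue.zero_of_nonpos (x := τ - r ^ 2) (by linarith [hτ.2]), zero_add]
  have hγc : ContinuousOn γ (Icc 0 c) := by
    have h1 : ContinuousOn (fun τ => glueInv (c - τ)) (Icc 0 c) := by
      apply (continuousOn_glueInv hc1).comp (by fun_prop)
      intro τ hτ
      exact ⟨by linarith [hτ.2], by linarith [hτ.1]⟩
    exact (continuousOn_const.add (continuousOn_glueInv hc1)).prodMk (continuousOn_const.add h1)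
  have hBc : glueInv c = g - r ^ 2 := glueInv_glue (by linarith)
  rw [hcov]
  apply IsPreconnected.union (r ^ 2, g)
  · refine Or.inl ⟨0, ⟨le_rfl, hc0.le⟩, ?_⟩
    simp only [hγ]
    rw [glueInv_zero, sub_zero, hBc]
    simp
  · exact ⟨r ^ 2, ⟨hr, le_rfl⟩, rfl⟩
  · apply IsPreconnected.union (g, r ^ 2)
    · refine ⟨c, ⟨hc0.le, le_rfl⟩, ?_⟩
      simp only [hγ]
      rw [sub_self, glueInv_zero, hBc]
      simp
    · exact ⟨r ^ 2, ⟨hr, le_rfl⟩, rfl⟩
    · exact isPreconnected_Icc.image _ hγc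
    · exact isPreconnected_Icc.image _ (by fun_prop)
  · exact isPreconnected_Icc.image _ (by fun_prop)

variable {κ : Type*} [Fintype κ] [DecidableEq κ]

/-- Paths in the unit sphere of a coordinate subspace. -/
lemma sphere_path {B : Finset κ} (hB : 2 ≤ B.card) {e e₀ : EuclideanSpace ℝ κ}
    (he : pr B e = e) (hen : ‖e‖ = 1) (he₀ : pr B e₀ = e₀) (hen₀ : ‖e₀‖ = 1) :
    ∃ (γ : ℝ → EuclideanSpace ℝ κ) (φ : ℝ), Continuous γ ∧ 0 ≤ φ ∧ γ 0 = e ∧ γ φ = e₀ ∧
      ∀ s, pr B (γ s) = γ s ∧ ‖γ s‖ = 1 := by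
  have hle : |⟪e₀, e⟫_ℝ| ≤ 1 := by
    have := abs_real_inner_le_norm e₀ e
    rwa [hen, hen₀, mul_one] at this
  have hle' := abs_le.mp hle
  obtain ⟨w, hw, hwn, hwe, hdec⟩ : ∃ w : EuclideanSpace ℝ κ, pr B w = w ∧ ‖w‖ = 1 ∧
      ⟪w, e⟫_ℝ = 0 ∧ e₀ = ⟪e₀, e⟫_ℝ • e + Real.sqrt (1 - ⟪e₀, e⟫_ℝ ^ 2) • w := by
    set w' := e₀ - ⟪e₀, e⟫_ℝ • e with hw'
    have hw'n : ‖w'‖ ^ 2 = 1 - ⟪e₀, e⟫_ℝ ^ 2 := by
      rw [hw', norm_sub_sq_real, inner_smul_right, norm_smul, hen, hen₀, Real.norm_eq_abs,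
        mul_one, sq_abs]
      ring
    have hw's : Real.sqrt (1 - ⟪e₀, e⟫_ℝ ^ 2) = ‖w'‖ := by
      rw [← hw'n, Real.sqrt_sq (norm_nonneg _)]
    have hw'e : ⟪w', e⟫_ℝ = 0 := by
      rw [hw', inner_sub_left, inner_smul_left, real_inner_self_eq_norm_sq, hen]
      simp
    rcases eq_or_ne w' 0 with h0 | h0
    · obtain ⟨u, hu, hun, hue⟩ := exists_orth B hB e
      refine ⟨u, hu, hun, hue, ?_⟩
      rw [hw's, h0, norm_zero, zero_smul, add_zero]
      exact sub_eq_zero.mp h0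
    · have hn : 0 < ‖w'‖ := norm_pos_iff.mpr h0
      refine ⟨‖w'‖⁻¹ • w', ?_, ?_, ?_, ?_⟩
      · rw [map_smul, hw', map_sub, map_smul, he, he₀]
      · rw [norm_smul, norm_inv, norm_norm, inv_mul_cancel₀ hn.ne']
      · rw [inner_smul_left, hw'e, mul_zero]
      · rw [hw's, smul_smul, mul_inv_cancel₀ hn.ne', one_smul, hw']
        abel
  refine ⟨fun s => Real.cos s • e + Real.sin s • w, Real.arccos ⟪e₀, e⟫_ℝ, ?_,
    Real.arccos_nonneg _, ?_, ?_, ?_⟩
  · fun_prop
  · simp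
  · simp only
    rw [Real.cos_arccos hle'.1 hle'.2, Real.sin_arccos]
    exact hdec.symm
  · intro s
    refine ⟨?_, ?_⟩
    · simp only
      rw [map_add, map_smul, map_smul, he, hw]
    · have h1 : ‖Real.cos s • e + Real.sin s • w‖ ^ 2 = 1 := by
        rw [norm_add_sq_real, inner_smul_left, inner_smul_right, real_inner_comm, hwe, norm_smul,
          norm_smul, hen, hwn, Real.norm_eq_abs, Real.norm_eq_abs, mul_one, mul_one, sq_abs,
          sq_abs]
        have := Real.sin_sq_add_cos_sq s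
        simp only [mul_zero, add_zero]
        linarith
      exact (pow_left_inj₀ (norm_nonneg _) zero_le_one two_ne_zero).mp (by rw [h1, one_pow])

end Pool.Agent.MP_d967a3_an
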