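import Mathlib
import Pool.Agent.Lib.MP_d967a3_an.StrConn

/-!
# Connectedness of the levels of the first integral
-/

open scoped InnerProductSpace ContDiff Topology
open Set Filter

namespace Pool.Agent.MP_d967a3_an

variable {κ : Type*} [Fintype κ] [DecidableEq κ]

/-- The level of the integral, as a set of pairs of a direction and a point inside. -/
def lev (A : Finset κ) (r : ℝ) (f : EuclideanSpace ℝ κ → ℝ) (g : ℝ) :
    Set (EuclideanSpace ℝ κ × EuclideanSpace ℝ κ) :=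
  {p | ‖p.1‖ = 1 ∧ f p.2 < 0 ∧ inF A r p = expNegInvGlue (g - r ^ 2)}

lemma lev_compl (A : Finset κ) (r : ℝ) (f : EuclideanSpace ℝ κ → ℝ) (g : ℝ) :
    lev Aᶜ r f g = lev A r f g := by
  unfold lev
  rw [inF_compl]

lemma GG_scale {A : Finset κ} {x v x' v' : EuclideanSpace ℝ κ} {s t : ℝ}
    (hx : pr A x' = s • pr A x) (hv : pr A v' = t • pr A v) (hst : s * t = 1) :
    GG A x' v' = GG A x v := by
  unfold GG
  rw [hx, hv, norm_smul, norm_smul, inner_smul_left, inner_smul_right, mul_pow, mul_pow,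
    Real.norm_eq_abs, Real.norm_eq_abs, sq_abs, sq_abs]
  simp only [conj_trivial]
  have h1 : s ^ 2 * t ^ 2 = 1 := by rw [← mul_pow, hst, one_pow]
  linear_combination (‖pr A x‖ ^ 2 * ‖pr A v‖ ^ 2 - ⟪pr A x, pr A v⟫_ℝ ^ 2) * h1

lemma GG_zero_right {A : Finset κ} {x v : EuclideanSpace ℝ κ} (hv : pr A v = 0) :
    GG A x v = 0 := by
  unfold GG
  rw [hv]
  simp

lemma GG_zero_left {A : Finset κ} {x v : EuclideanSpace ℝ κ} (hx : pr A x = 0) :
    GG A x v = 0 := by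
  unfold GG
  rw [hx]
  simp

lemma GG_perp {A : Finset κ} {x v : EuclideanSpace ℝ κ} (h : ⟪pr A x, pr A v⟫_ℝ = 0) :
    GG A x v = ‖pr A x‖ ^ 2 * ‖pr A v‖ ^ 2 := by
  unfold GG
  rw [h]
  ring

lemma mem_lev_of {A : Finset κ} {r g : ℝ} {f : EuclideanSpace ℝ κ → ℝ}
    {v x v' x' : EuclideanSpace ℝ κ} (h : (v, x) ∈ lev A r f g) (hv : ‖v'‖ = 1) (hf : f x' < 0)
    (h1 : expNegInvGlue (GG A x' v' - r ^ 2) = expNegInvGlue (GG A x v - r ^ 2))
    (h2 : expNegInvGlue (GG Aᶜ x' v' - r ^ 2) = expNegInvGlue (GG Aᶜ x v - r ^ 2)) :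
    (v', x') ∈ lev A r f g := by
  refine ⟨hv, hf, ?_⟩
  rw [← h.2.2]
  unfold inF
  simp only
  rw [h1, h2]

lemma GG_le_of_lev {A : Finset κ} {r g : ℝ} (hg : r ^ 2 < g) {f : EuclideanSpace ℝ κ → ℝ}
    {v x : EuclideanSpace ℝ κ} (h : (v, x) ∈ lev A r f g) : GG A x v ≤ g ∧ GG Aᶜ x v ≤ g :=
  curve_le (s := (GG A x v, GG Aᶜ x v)) hg ⟨GG_nonneg _ _ _, GG_nonneg _ _ _, h.2.2⟩

lemma GG_eq_of_glue_zero {A : Finset κ} {r g : ℝ} (hg : r ^ 2 < g)
    {f : EuclideanSpace ℝ κ → ℝ} {v x : EuclideanSpace ℝ κ} (h : (v, x) ∈ lev A r f g)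
    (h0 : expNegInvGlue (GG A x v - r ^ 2) = 0) : GG Aᶜ x v = g := by
  have h1 := h.2.2
  unfold inF at h1
  simp only at h1
  rw [h0, zero_add] at h1
  exact glue_eq_iff hg h1

/-- Make the second component of the point orthogonal to the second component of the direction. -/
lemma slide {A : Finset κ} {r g : ℝ} {f : EuclideanSpace ℝ κ → ℝ} {v x : EuclideanSpace ℝ κ}
    (h : (v, x) ∈ lev A r f g)
    (H : ∀ x', pr A x' = pr A x → ‖pr Aᶜ x'‖ ≤ ‖pr Aᶜ x‖ → f x' < 0) :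
    ∃ x', Conn (lev A r f g) (v, x) (v, x') ∧ pr A x' = pr A x ∧ ‖pr Aᶜ x'‖ ≤ ‖pr Aᶜ x‖ ∧
      ⟪pr Aᶜ x', pr Aᶜ v⟫_ℝ = 0 ∧ GG Aᶜ x' v = GG Aᶜ x v := by
  set k : ℝ := ⟪pr Aᶜ x, pr Aᶜ v⟫_ℝ / ‖pr Aᶜ v‖ ^ 2 with hk
  have hk2 : k * ‖pr Aᶜ v‖ ^ 2 = ⟪pr Aᶜ x, pr Aᶜ v⟫_ℝ := by
    rcases eq_or_ne (pr Aᶜ v) 0 with h0 | h0
    · rw [h0]
      simp
    · rw [hk]
      have : ‖pr Aᶜ v‖ ^ 2 ≠ 0 := pow_ne_zero 2 (norm_ne_zero_iff.mpr h0)
      exact div_mul_cancel₀ _ this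
  set X : ℝ → EuclideanSpace ℝ κ := fun s => x - (s * k) • pr Aᶜ v with hX
  have e1 : ∀ s, pr A (X s) = pr A x := by
    intro s
    simp only [hX]
    rw [map_sub, map_smul, pr_pr_compl, smul_zero, sub_zero]
  have e2 : ∀ s, pr Aᶜ (X s) = pr Aᶜ x - (s * k) • pr Aᶜ v := by
    intro s
    simp only [hX]
    rw [map_sub, map_smul, pr_pr]
  have e3 : ∀ s ∈ Icc (0 : ℝ) 1, ‖pr Aᶜ (X s)‖ ≤ ‖pr Aᶜ x‖ := by
    intro s hs
    have h1 : ‖pr Aᶜ (X s)‖ ^ 2 = ‖pr Aᶜ x‖ ^ 2 - s * (2 - s) * (k ^ 2 * ‖pr Aᶜ v‖ ^ 2) := by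
      rw [e2, norm_sub_sq_real, inner_smul_right, norm_smul, mul_pow, Real.norm_eq_abs, sq_abs,
        ← hk2]
      ring
    have h2 : 0 ≤ s * (2 - s) * (k ^ 2 * ‖pr Aᶜ v‖ ^ 2) :=
      mul_nonneg (mul_nonneg hs.1 (by linarith [hs.2])) (by positivity)
    exact (pow_le_pow_iff_left₀ (norm_nonneg _) (norm_nonneg _) two_ne_zero).mp (by linarith)
  have e4 : ∀ s, GG Aᶜ (X s) v = GG Aᶜ x v := by
    intro s
    have h1 : GG Aᶜ (X s) v = GG Aᶜ (x + (-(s * k)) • v) v := by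
      unfold GG
      rw [e2, map_add, map_smul, neg_smul, ← sub_eq_add_neg]
    rw [h1, GG_translate]
  have e5 : ∀ s, GG A (X s) v = GG A x v := by
    intro s
    unfold GG
    rw [e1]
  have e6 : X 0 = x := by simp [hX]
  refine ⟨X 1, ?_, e1 1, e3 1 ⟨zero_le_one, le_rfl⟩, ?_, e4 1⟩
  · have h1 : Conn (lev A r f g) ((fun s => (v, X s)) 0) ((fun s => (v, X s)) 1) := by
      apply Conn.of_path (γ := fun s => (v, X s)) zero_le_one
      · exact (continuous_const.prodMk (by fun_prop)).continuousOn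
      · intro s hs
        apply mem_lev_of h h.1 (H _ (e1 s) (e3 s hs))
        · rw [e5]
        · rw [e4]
    simp only [e6] at h1
    exact h1
  · rw [e2, inner_sub_left, inner_smul_left, real_inner_self_eq_norm_sq, one_mul]
    simp only [conj_trivial]
    linarith

/-- Turn the direction towards the second subspace, with a short first component of the point. -/
lemma turn {A : Finset κ} {r g : ℝ} (hg : r ^ 2 < g) (hg1 : g < 1 / 4) (hr : r ^ 2 ≤ 1 / 16)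
    {f : EuclideanSpace ℝ κ → ℝ} {v x : EuclideanSpace ℝ κ}
    (h : (v, x) ∈ lev A r f g)
    (H : ∀ x', pr A x' = pr A x → ‖pr Aᶜ x'‖ ≤ ‖pr Aᶜ x‖ → f x' < 0) (hx : ‖pr A x‖ ≤ r)
    (hp : ⟪pr Aᶜ x, pr Aᶜ v⟫_ℝ = 0) (hG : GG Aᶜ x v = g) :
    ∃ v' x', Conn (lev A r f g) (v, x) (v', x') ∧ ‖x'‖ < 1 := by
  have hr2 : ‖pr A x‖ ^ 2 ≤ r ^ 2 := pow_le_pow_left₀ (norm_nonneg _) hx 2
  have hG2 : ‖pr Aᶜ x‖ ^ 2 * ‖pr Aᶜ v‖ ^ 2 = g := by rw [← GG_perp hp, hG]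
  have hg0 : 0 < g := (sq_nonneg r).trans_lt hg
  have hρ0 : 0 < ‖pr Aᶜ v‖ := by
    rcases (norm_nonneg (pr Aᶜ v)).eq_or_lt with h1 | h1
    · rw [← h1] at hG2
      norm_num at hG2
      linarith
    · exact h1
  have hvn := norm_sq_pr A v
  rw [h.1] at hvn
  rcases le_or_gt (1 / 2) (‖pr Aᶜ v‖ ^ 2) with h2 | h2
  · refine ⟨v, x, Conn.refl h, ?_⟩
    have h3 : ‖x‖ ^ 2 < 1 := by
      rw [norm_sq_pr A x]
      nlinarith [sq_nonneg ‖pr Aᶜ x‖]
    by_contra hcon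
    push Not at hcon
    have := one_le_pow₀ hcon (n := 2)
    linarith
  · set ρ := ‖pr Aᶜ v‖ with hρ
    set a := ‖pr A v‖ with ha
    have ha0 : 0 < a := by
      rcases (norm_nonneg (pr A v)).eq_or_lt with h1 | h1
      · rw [ha, ← h1] at hvn
        norm_num at hvn
        linarith
      · exact h1
    set σ : ℝ := Real.sqrt (1 / 2) with hσ
    have hσ2 : σ ^ 2 = 1 / 2 := Real.sq_sqrt (by norm_num)
    have hσ0 : 0 < σ := Real.sqrt_pos.mpr (by norm_num)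
    have hρσ : ρ ≤ σ := by
      apply Real.le_sqrt_of_sq_le
      exact h2.le
    set V : ℝ → EuclideanSpace ℝ κ := fun τ =>
      (Real.sqrt (1 - τ ^ 2) / a) • pr A v + (τ / ρ) • pr Aᶜ v with hV
    set X : ℝ → EuclideanSpace ℝ κ := fun τ => pr A x + (ρ / τ) • pr Aᶜ x with hX
    have v1 : ∀ τ, pr A (V τ) = (Real.sqrt (1 - τ ^ 2) / a) • pr A v := by
      intro τ
      simp only [hV]
      rw [map_add, map_smul, map_smul, pr_pr, pr_pr_compl, smul_zero, add_zero]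
    have v2 : ∀ τ, pr Aᶜ (V τ) = (τ / ρ) • pr Aᶜ v := by
      intro τ
      simp only [hV]
      rw [map_add, map_smul, map_smul, pr_pr, pr_compl_pr, smul_zero, zero_add]
    have x1 : ∀ τ, pr A (X τ) = pr A x := by
      intro τ
      simp only [hX]
      rw [map_add, map_smul, pr_pr, pr_pr_compl, smul_zero, add_zero]
    have x2 : ∀ τ, pr Aᶜ (X τ) = (ρ / τ) • pr Aᶜ x := by
      intro τ
      simp only [hX]
      rw [map_add, map_smul, pr_compl_pr, pr_pr, zero_add]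
    have hVn : ∀ τ ∈ Icc ρ σ, ‖V τ‖ = 1 := by
      intro τ hτ
      have h3 : τ ^ 2 ≤ 1 / 2 := by
        rw [← hσ2]
        exact pow_le_pow_left₀ (hρ0.le.trans hτ.1) hτ.2 2
      have h4 : ‖V τ‖ ^ 2 = 1 := by
        rw [norm_sq_pr A, v1, v2, norm_smul, norm_smul, mul_pow, mul_pow, Real.norm_eq_abs,
          Real.norm_eq_abs, sq_abs, sq_abs, ← ha, ← hρ, div_pow, div_pow,
          Real.sq_sqrt (by linarith)]
        field_simp
        ring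
      exact (pow_left_inj₀ (norm_nonneg _) zero_le_one two_ne_zero).mp (by rw [h4, one_pow])
    have hXle : ∀ τ ∈ Icc ρ σ, ‖pr Aᶜ (X τ)‖ ≤ ‖pr Aᶜ x‖ := by
      intro τ hτ
      have hτ0 : 0 < τ := hρ0.trans_le hτ.1
      rw [x2, norm_smul, Real.norm_eq_abs, abs_of_pos (by positivity)]
      have h3 : ρ / τ ≤ 1 := by
        rw [div_le_one hτ0]
        exact hτ.1
      have := norm_nonneg (pr Aᶜ x)
      nlinarith
    have hstart : V ρ = v ∧ X ρ = x := by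
      constructor
      · have h3 : Real.sqrt (1 - ρ ^ 2) = a := by
          have : 1 - ρ ^ 2 = a ^ 2 := by linarith
          rw [this, Real.sqrt_sq ha0.le]
        simp only [hV]
        rw [h3, div_self ha0.ne', div_self hρ0.ne', one_smul, one_smul, pr_add_pr]
      · simp only [hX]
        rw [div_self hρ0.ne', one_smul, pr_add_pr]
    refine ⟨V σ, X σ, ?_, ?_⟩
    · have h3 : Conn (lev A r f g) ((fun τ => (V τ, X τ)) ρ) ((fun τ => (V τ, X τ)) σ) := by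
        apply Conn.of_path (γ := fun τ => (V τ, X τ)) hρσ
        · apply ContinuousOn.prodMk
          · exact Continuous.continuousOn (by fun_prop)
          · have h4 : ContinuousOn (fun τ : ℝ => ρ / τ) (Icc ρ σ) :=
              continuousOn_const.div continuousOn_id fun τ hτ => (hρ0.trans_le hτ.1).ne'
            exact continuousOn_const.add (h4.smul continuousOn_const)
        · intro τ hτ
          have hτ0 : 0 < τ := hρ0.trans_le hτ.1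
          apply mem_lev_of h (hVn τ hτ) (H _ (x1 τ) (hXle τ hτ))
          · rw [glue_zero (by rw [x1]; exact hx) (hVn τ hτ), glue_zero hx h.1]
          · rw [GG_scale (x2 τ) (v2 τ) (by field_simp)]
      simp only [hstart.1, hstart.2] at h3
      exact h3
    · have h3 : ‖X σ‖ ^ 2 < 1 := by
        rw [norm_sq_pr A, x1, x2, norm_smul, mul_pow, Real.norm_eq_abs, sq_abs, div_pow, hσ2]
        have h4 : ρ ^ 2 / (1 / 2) * ‖pr Aᶜ x‖ ^ 2 = 2 * g := by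
          rw [← hG2]
          ring
        rw [h4]
        linarith
      by_contra hcon
      push Not at hcon
      have := one_le_pow₀ hcon (n := 2)
      linarith

/-- Reach the unit ball. -/
lemma to_ball_aux {A : Finset κ} {r g : ℝ} (hg : r ^ 2 < g) (hg1 : g < 1 / 4)
    (hr : r ^ 2 ≤ 1 / 16) {b₁ b₂ f : EuclideanSpace ℝ κ → ℝ} (hf : Split A r b₁ b₂ f)
    {v x : EuclideanSpace ℝ κ} (h : (v, x) ∈ lev A r f g) (h1 : ‖pr A x‖ ≤ r)
    (h2 : r ≤ ‖pr Aᶜ x‖) : ∃ v' x', Conn (lev A r f g) (v, x) (v', x') ∧ ‖x'‖ < 1 := by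
  have hfx : f x < 0 := h.2.1
  have H : ∀ x', pr A x' = pr A x → ‖pr Aᶜ x'‖ ≤ ‖pr Aᶜ x‖ → f x' < 0 := by
    intro x' h3 h4
    have h5 : ‖pr Aᶜ x'‖ ^ 2 ≤ ‖pr Aᶜ x‖ ^ 2 := pow_le_pow_left₀ (norm_nonneg _) h4 2
    rw [hf.eq, norm_sq_pr A, hf.zero₂ _ h2] at hfx
    rw [hf.eq, norm_sq_pr A, h3]
    have := hf.nonneg₂ (pr Aᶜ x')
    linarith
  have hG := GG_eq_of_glue_zero hg h (glue_zero h1 h.1)
  obtain ⟨x', c1, c2, c3, c4, c5⟩ := slide h H
  have h3 : (v, x') ∈ lev A r f g := c1.symm.mem_left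
  obtain ⟨v'', x'', d1, d2⟩ := turn hg hg1 hr h3 (fun y hy1 hy2 => H y (hy1.trans c2)
    (hy2.trans c3)) (by rw [c2]; exact h1) c4 (by rw [c5, hG])
  exact ⟨v'', x'', c1.trans d1, d2⟩

lemma to_ball {A : Finset κ} {r g : ℝ} (hg : r ^ 2 < g) (hg1 : g < 1 / 4)
    (hr : r ^ 2 ≤ 1 / 16) {b₁ b₂ f : EuclideanSpace ℝ κ → ℝ} (hf : Split A r b₁ b₂ f)
    {v x : EuclideanSpace ℝ κ} (h : (v, x) ∈ lev A r f g) :
    ∃ v' x', Conn (lev A r f g) (v, x) (v', x') ∧ ‖x'‖ < 1 := by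
  rcases lt_or_ge ‖x‖ 1 with h1 | h1
  · exact ⟨v, x, Conn.refl h, h1⟩
  have hn := norm_sq_pr A x
  have h1' : 1 ≤ ‖x‖ ^ 2 := one_le_pow₀ h1
  have hfx : f x < 0 := h.2.1
  rcases le_or_gt r ‖pr A x‖ with h2 | h2
  · rcases le_or_gt r ‖pr Aᶜ x‖ with h3 | h3
    · exfalso
      rw [hf.eq, hf.zero₁ _ h2, hf.zero₂ _ h3] at hfx
      linarith
    · have h4 := to_ball_aux hg hg1 hr hf.symm (v := v) (x := x) (by rw [lev_compl]; exact h)
        h3.le (by rw [compl_compl]; exact h2)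
      rw [lev_compl] at h4
      exact h4
  · apply to_ball_aux hg hg1 hr hf h h2.le
    by_contra hcon
    push Not at hcon
    have h3 : ‖pr A x‖ ^ 2 ≤ r ^ 2 := pow_le_pow_left₀ (norm_nonneg _) h2.le 2
    have h4 : ‖pr Aᶜ x‖ ^ 2 ≤ r ^ 2 := pow_le_pow_left₀ (norm_nonneg _) hcon.le 2
    linarith

lemma lt_one_of_sq {t : ℝ} (h : t ^ 2 < 1) : t < 1 := by
  by_contra hcon
  push Not at hcon
  have := one_le_pow₀ hcon (n := 2)
  linarith

/-- In the unit ball: make both components orthogonal. -/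
lemma to_perp {A : Finset κ} {r g : ℝ} {b₁ b₂ f : EuclideanSpace ℝ κ → ℝ}
    (hf : Split A r b₁ b₂ f) {v x : EuclideanSpace ℝ κ} (h : (v, x) ∈ lev A r f g)
    (hx : ‖x‖ < 1) : ∃ x', Conn (lev A r f g) (v, x) (v, x') ∧ ‖x'‖ < 1 ∧
      ⟪pr A x', pr A v⟫_ℝ = 0 ∧ ⟪pr Aᶜ x', pr Aᶜ v⟫_ℝ = 0 := by
  have hball : ∀ y : EuclideanSpace ℝ κ, ‖y‖ < 1 → f y < 0 := by
    intro y hy
    have h1 := hf.le y
    have h2 : ‖y‖ ^ 2 < 1 := by
      have := norm_nonneg y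
      nlinarith
    linarith
  have key : ∀ (B : Finset κ) (y : EuclideanSpace ℝ κ), ‖y‖ < 1 → ∀ x', pr B x' = pr B y →
      ‖pr Bᶜ x'‖ ≤ ‖pr Bᶜ y‖ → ‖x'‖ < 1 := by
    intro B y hy x' h1 h2
    apply lt_one_of_sq
    have h3 : ‖pr Bᶜ x'‖ ^ 2 ≤ ‖pr Bᶜ y‖ ^ 2 := pow_le_pow_left₀ (norm_nonneg _) h2 2
    have h4 : ‖y‖ ^ 2 < 1 := by
      have := norm_nonneg y
      nlinarith
    rw [norm_sq_pr B, h1]
    rw [norm_sq_pr B] at h4
    linarith
  obtain ⟨x', c1, c2, c3, c4, -⟩ := slide h fun y h1 h2 => hball _ (key A x hx y h1 h2)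
  have hx' := key A x hx x' c2 c3
  have h' : (v, x') ∈ lev Aᶜ r f g := by
    rw [lev_compl]
    exact c1.symm.mem_left
  obtain ⟨x'', d1, d2, d3, d4, -⟩ := slide h' fun y h1 h2 => hball _ (key Aᶜ x' hx' y h1 h2)
  have hx'' := key Aᶜ x' hx' x'' d2 d3
  rw [compl_compl] at d4
  rw [lev_compl] at d1
  exact ⟨x'', c1.trans d1, hx'', d4, by rw [d2]; exact c4⟩

end Pool.Agent.MP_d967a3_an
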