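import Mathlib
import Pool.Agent.Lib.MP_d967a3_an.StrPath

/-!
# Connectedness of the levels of the first integral: the last steps
-/

open scoped InnerProductSpace ContDiff Topology
open Set Filter

namespace Pool.Agent.MP_d967a3_an

variable {κ : Type*} [Fintype κ] [DecidableEq κ]

lemma Split.neg_of_lt {A : Finset κ} {r : ℝ} {b₁ b₂ f : EuclideanSpace ℝ κ → ℝ}
    (hf : Split A r b₁ b₂ f) {y : EuclideanSpace ℝ κ} (hy : ‖y‖ ^ 2 < 1) : f y < 0 := by
  have h1 := hf.le y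
  linarith

omit [DecidableEq κ] in
lemma norm_eq_one_of_sq {y : EuclideanSpace ℝ κ} (h : ‖y‖ ^ 2 = 1) : ‖y‖ = 1 :=
  (pow_left_inj₀ (norm_nonneg _) zero_le_one two_ne_zero).mp (by rw [h, one_pow])

/-- The case of a direction in the second subspace. -/
lemma half_deg {A : Finset κ} {r g : ℝ} (hg : r ^ 2 < g) (hg1 : g < 1 / 4)
    {b₁ b₂ f : EuclideanSpace ℝ κ → ℝ} (hf : Split A r b₁ b₂ f) (hA : 2 ≤ A.card)
    {v x : EuclideanSpace ℝ κ} (h : (v, x) ∈ lev A r f g)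
    (hx : ‖x‖ < 1) (hp : ⟪pr Aᶜ x, pr Aᶜ v⟫_ℝ = 0) (hv : pr A v = 0) :
    ∃ v' x', Conn (lev A r f g) (v, x) (v', x') ∧ ‖pr A v'‖ ^ 2 = 1 / 2 ∧
      ‖pr Aᶜ v'‖ ^ 2 = 1 / 2 ∧ ⟪pr A x', pr A v'⟫_ℝ = 0 ∧ ⟪pr Aᶜ x', pr Aᶜ v'⟫_ℝ = 0 := by
  have hvv : pr Aᶜ v = v := by
    have h1 := pr_add_pr A v
    rw [hv, zero_add] at h1
    exact h1
  have hx2 : ‖x‖ ^ 2 < 1 := by
    have := norm_nonneg x
    nlinarith
  -- first step
  set X : ℝ → EuclideanSpace ℝ κ := fun s => (1 - s) • pr A x + pr Aᶜ x with hX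
  have x1 : ∀ s, pr A (X s) = (1 - s) • pr A x := by
    intro s
    simp only [hX]
    rw [map_add, map_smul, pr_pr, pr_pr_compl, add_zero]
  have x2 : ∀ s, pr Aᶜ (X s) = pr Aᶜ x := by
    intro s
    simp only [hX]
    rw [map_add, map_smul, pr_pr, pr_compl_pr, smul_zero, zero_add]
  have hmem : ∀ s ∈ Icc (0 : ℝ) 1, (v, X s) ∈ lev A r f g := by
    intro s hs
    apply mem_lev_of h h.1
    · apply hf.neg_of_lt
      rw [norm_sq_pr A, x1, x2, norm_smul, mul_pow, Real.norm_eq_abs, sq_abs]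
      rw [norm_sq_pr A] at hx2
      have h1 : (1 - s) ^ 2 ≤ 1 := pow_le_one₀ (by linarith [hs.2]) (by linarith [hs.1])
      have h2 : (1 - s) ^ 2 * ‖pr A x‖ ^ 2 ≤ 1 * ‖pr A x‖ ^ 2 :=
        mul_le_mul_of_nonneg_right h1 (sq_nonneg _)
      linarith
    · rw [GG_zero_right hv, GG_zero_right hv]
    · unfold GG
      rw [x2]
  have c1 : Conn (lev A r f g) (v, X 0) (v, X 1) :=
    Conn.of_path (γ := fun s => (v, X s)) zero_le_one
      (continuous_const.prodMk (by fun_prop)).continuousOn hmem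
  have e0 : X 0 = x := by
    simp only [hX]
    rw [sub_zero, one_smul, pr_add_pr]
  have e1 : X 1 = pr Aᶜ x := by
    simp only [hX]
    rw [sub_self, zero_smul, zero_add]
  rw [e0, e1] at c1
  have h' : (v, pr Aᶜ x) ∈ lev A r f g := c1.symm.mem_left
  -- the length of the second component
  have hG : GG Aᶜ (pr Aᶜ x) v = g := by
    apply GG_eq_of_glue_zero hg h'
    rw [GG_zero_right hv]
    apply expNegInvGlue.zero_of_nonpos
    have := sq_nonneg r
    linarith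
  have hz : ‖pr Aᶜ x‖ ^ 2 = g := by
    rw [GG_perp (by rw [pr_pr]; exact hp), pr_pr, hvv, h.1] at hG
    linarith
  -- second step
  obtain ⟨e, he, hen, -⟩ := exists_orth A hA 0
  have he' : pr Aᶜ e = 0 := by rw [← he, pr_compl_pr]
  set V : ℝ → EuclideanSpace ℝ κ := fun t => Real.sqrt t • e + Real.sqrt (1 - t) • v with hV
  set Y : ℝ → EuclideanSpace ℝ κ := fun t => (Real.sqrt (1 - t))⁻¹ • pr Aᶜ x with hY
  have v1 : ∀ t, pr A (V t) = Real.sqrt t • e := by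
    intro t
    simp only [hV]
    rw [map_add, map_smul, map_smul, he, hv, smul_zero, add_zero]
  have v2 : ∀ t, pr Aᶜ (V t) = Real.sqrt (1 - t) • v := by
    intro t
    simp only [hV]
    rw [map_add, map_smul, map_smul, he', hvv, smul_zero, zero_add]
  have y1 : ∀ t, pr A (Y t) = 0 := by
    intro t
    simp only [hY]
    rw [map_smul, pr_pr_compl, smul_zero]
  have y2 : ∀ t, pr Aᶜ (Y t) = (Real.sqrt (1 - t))⁻¹ • pr Aᶜ x := by
    intro t
    simp only [hY]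
    rw [map_smul, pr_pr]
  have n1 : ∀ t ∈ Icc (0 : ℝ) (1 / 2), ‖pr A (V t)‖ ^ 2 = t ∧ ‖pr Aᶜ (V t)‖ ^ 2 = 1 - t := by
    intro t ht
    rw [v1, v2, norm_smul, norm_smul, hen, h.1, Real.norm_eq_abs, Real.norm_eq_abs, mul_one,
      mul_one, sq_abs, sq_abs, Real.sq_sqrt ht.1, Real.sq_sqrt (by linarith [ht.2])]
    exact ⟨rfl, rfl⟩
  have hmem2 : ∀ t ∈ Icc (0 : ℝ) (1 / 2), (V t, Y t) ∈ lev A r f g := by
    intro t ht
    have ht1 : 0 < 1 - t := by linarith [ht.2]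
    have hs0 : 0 < Real.sqrt (1 - t) := Real.sqrt_pos.mpr ht1
    apply mem_lev_of h'
    · apply norm_eq_one_of_sq
      rw [norm_sq_pr A, (n1 t ht).1, (n1 t ht).2]
      ring
    · apply hf.neg_of_lt
      rw [norm_sq_pr A, y1, y2, norm_smul, mul_pow, hz, norm_zero, Real.norm_eq_abs, sq_abs,
        inv_pow, Real.sq_sqrt ht1.le]
      have h1 : (1 - t)⁻¹ ≤ 2 := by
        rw [inv_le_comm₀ ht1 (by norm_num)]
        linarith [ht.2]
      have hg0 : 0 ≤ g := (sq_nonneg r).trans hg.le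
      nlinarith
    · rw [GG_zero_left (y1 t), GG_zero_right hv]
    · rw [GG_scale (s := (Real.sqrt (1 - t))⁻¹) (t := Real.sqrt (1 - t)) (x := pr Aᶜ x) (v := v)
        (by rw [pr_pr]; exact y2 t) (by rw [hvv]; exact v2 t) (inv_mul_cancel₀ hs0.ne')]
  have c2 : Conn (lev A r f g) (V 0, Y 0) (V (1 / 2), Y (1 / 2)) := by
    apply Conn.of_path (γ := fun t => (V t, Y t)) (by norm_num) _ hmem2
    apply ContinuousOn.prodMk
    · exact Continuous.continuousOn (by fun_prop)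
    · have h1 : ContinuousOn (fun t : ℝ => (Real.sqrt (1 - t))⁻¹) (Icc 0 (1 / 2)) := by
        apply ContinuousOn.inv₀
        · exact Continuous.continuousOn (by fun_prop)
        · intro t ht
          exact (Real.sqrt_pos.mpr (by linarith [ht.2])).ne'
      exact h1.smul continuousOn_const
  have e2 : V 0 = v := by
    simp only [hV]
    rw [Real.sqrt_zero, zero_smul, sub_zero, Real.sqrt_one, one_smul, zero_add]
  have e3 : Y 0 = pr Aᶜ x := by
    simp only [hY]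
    rw [sub_zero, Real.sqrt_one, inv_one, one_smul]
  rw [e2, e3] at c2
  have h12 : (1 / 2 : ℝ) ∈ Icc (0 : ℝ) (1 / 2) := ⟨by norm_num, le_rfl⟩
  refine ⟨V (1 / 2), Y (1 / 2), c1.trans c2, (n1 _ h12).1, ?_, ?_, ?_⟩
  · rw [(n1 _ h12).2]
    norm_num
  · rw [y1, inner_zero_left]
  · rw [y2, v2, inner_smul_left, inner_smul_right, ← hvv, hp]
    simp

/-- Both components of the direction get the same length. -/
lemma to_half {A : Finset κ} {r g : ℝ} (hg : r ^ 2 < g) (hg1 : g < 1 / 4)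
    {b₁ b₂ f : EuclideanSpace ℝ κ → ℝ} (hf : Split A r b₁ b₂ f) (hA : 2 ≤ A.card)
    (hA' : 2 ≤ Aᶜ.card) {v x : EuclideanSpace ℝ κ} (h : (v, x) ∈ lev A r f g)
    (hx : ‖x‖ < 1) (hp : ⟪pr A x, pr A v⟫_ℝ = 0) (hp' : ⟪pr Aᶜ x, pr Aᶜ v⟫_ℝ = 0) :
    ∃ v' x', Conn (lev A r f g) (v, x) (v', x') ∧ ‖pr A v'‖ ^ 2 = 1 / 2 ∧
      ‖pr Aᶜ v'‖ ^ 2 = 1 / 2 ∧ ⟪pr A x', pr A v'⟫_ℝ = 0 ∧ ⟪pr Aᶜ x', pr Aᶜ v'⟫_ℝ = 0 := by
  have hx2 : ‖x‖ ^ 2 < 1 := by
    have := norm_nonneg x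
    nlinarith
  by_cases hv : pr A v = 0
  · exact half_deg hg hg1 hf hA h hx hp' hv
  by_cases hv' : pr Aᶜ v = 0
  · have h' : (v, x) ∈ lev Aᶜ r f g := by rw [lev_compl]; exact h
    obtain ⟨v', x', c, h1, h2, h3, h4⟩ := half_deg hg hg1 hf.symm hA' h' hx
      (by rw [compl_compl]; exact hp) hv'
    rw [compl_compl] at h2 h4
    rw [lev_compl] at c
    exact ⟨v', x', c, h2, h1, h4, h3⟩
  have ha0 : 0 < ‖pr A v‖ := norm_pos_iff.mpr hv
  have hb0 : 0 < ‖pr Aᶜ v‖ := norm_pos_iff.mpr hv'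
  have hvn := norm_sq_pr A v
  rw [h.1] at hvn
  obtain ⟨hG1, hG2⟩ := GG_le_of_lev hg h
  rw [GG_perp hp] at hG1
  rw [GG_perp hp'] at hG2
  set a := ‖pr A v‖ with ha
  set b := ‖pr Aᶜ v‖ with hb
  set U : ℝ → ℝ := fun t => (1 - t) * a ^ 2 + t / 2 with hU
  set W : ℝ → ℝ := fun t => (1 - t) * b ^ 2 + t / 2 with hW
  have hU0 : ∀ t ∈ Icc (0 : ℝ) 1, 0 < U t := by
    intro t ht
    simp only [hU]
    rcases ht.1.eq_or_lt with h0 | h0
    · rw [← h0]
      have := pow_pos ha0 2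
      linarith
    · have : 0 ≤ (1 - t) * a ^ 2 := mul_nonneg (by linarith [ht.2]) (sq_nonneg _)
      linarith
  have hW0 : ∀ t ∈ Icc (0 : ℝ) 1, 0 < W t := by
    intro t ht
    simp only [hW]
    rcases ht.1.eq_or_lt with h0 | h0
    · rw [← h0]
      have := pow_pos hb0 2
      linarith
    · have : 0 ≤ (1 - t) * b ^ 2 := mul_nonneg (by linarith [ht.2]) (sq_nonneg _)
      linarith
  set V : ℝ → EuclideanSpace ℝ κ := fun t =>
    (Real.sqrt (U t) / a) • pr A v + (Real.sqrt (W t) / b) • pr Aᶜ v with hV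
  set X : ℝ → EuclideanSpace ℝ κ := fun t =>
    (a / Real.sqrt (U t)) • pr A x + (b / Real.sqrt (W t)) • pr Aᶜ x with hX
  have v1 : ∀ t, pr A (V t) = (Real.sqrt (U t) / a) • pr A v := by
    intro t
    simp only [hV]
    rw [map_add, map_smul, map_smul, pr_pr, pr_pr_compl, smul_zero, add_zero]
  have v2 : ∀ t, pr Aᶜ (V t) = (Real.sqrt (W t) / b) • pr Aᶜ v := by
    intro t
    simp only [hV]
    rw [map_add, map_smul, map_smul, pr_pr, pr_compl_pr, smul_zero, zero_add]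
  have x1 : ∀ t, pr A (X t) = (a / Real.sqrt (U t)) • pr A x := by
    intro t
    simp only [hX]
    rw [map_add, map_smul, map_smul, pr_pr, pr_pr_compl, smul_zero, add_zero]
  have x2 : ∀ t, pr Aᶜ (X t) = (b / Real.sqrt (W t)) • pr Aᶜ x := by
    intro t
    simp only [hX]
    rw [map_add, map_smul, map_smul, pr_pr, pr_compl_pr, smul_zero, zero_add]
  have n1 : ∀ t ∈ Icc (0 : ℝ) 1, ‖pr A (V t)‖ ^ 2 = U t := by
    intro t ht
    rw [v1, norm_smul, mul_pow, Real.norm_eq_abs, sq_abs, div_pow, Real.sq_sqrt (hU0 t ht).le,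
      ← ha]
    field_simp
  have n2 : ∀ t ∈ Icc (0 : ℝ) 1, ‖pr Aᶜ (V t)‖ ^ 2 = W t := by
    intro t ht
    rw [v2, norm_smul, mul_pow, Real.norm_eq_abs, sq_abs, div_pow, Real.sq_sqrt (hW0 t ht).le,
      ← hb]
    field_simp
  -- convexity
  have hconv : ∀ {p s t : ℝ}, 0 < p → 0 ≤ t → t ≤ 1 → 0 ≤ s → 0 < (1 - t) * p + t / 2 →
      p * s / ((1 - t) * p + t / 2) ≤ (1 - t) * s + 2 * t * (p * s) := by
    intro p s t hp0 ht0 ht1 hs hpos
    rw [div_le_iff₀ hpos]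
    have : ((1 - t) * s + 2 * t * (p * s)) * ((1 - t) * p + t / 2) - p * s =
        s * (t * (1 - t)) * (1 / 2) * (2 * p - 1) ^ 2 := by ring
    have h2 : 0 ≤ s * (t * (1 - t)) * (1 / 2) * (2 * p - 1) ^ 2 := by
      have : 0 ≤ t * (1 - t) := mul_nonneg ht0 (by linarith)
      positivity
    linarith
  have hmem : ∀ t ∈ Icc (0 : ℝ) 1, (V t, X t) ∈ lev A r f g := by
    intro t ht
    have hsU : 0 < Real.sqrt (U t) := Real.sqrt_pos.mpr (hU0 t ht)
    have hsW : 0 < Real.sqrt (W t) := Real.sqrt_pos.mpr (hW0 t ht)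
    apply mem_lev_of h
    · apply norm_eq_one_of_sq
      rw [norm_sq_pr A, n1 t ht, n2 t ht]
      simp only [hU, hW]
      linear_combination -(1 - t) * hvn
    · apply hf.neg_of_lt
      have h1 : ‖pr A (X t)‖ ^ 2 = a ^ 2 * ‖pr A x‖ ^ 2 / U t := by
        rw [x1, norm_smul, mul_pow, Real.norm_eq_abs, sq_abs, div_pow, Real.sq_sqrt (hU0 t ht).le]
        ring
      have h2 : ‖pr Aᶜ (X t)‖ ^ 2 = b ^ 2 * ‖pr Aᶜ x‖ ^ 2 / W t := by
        rw [x2, norm_smul, mul_pow, Real.norm_eq_abs, sq_abs, div_pow, Real.sq_sqrt (hW0 t ht).le]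
        ring
      rw [norm_sq_pr A, h1, h2]
      have h3 := hconv (pow_pos ha0 2) ht.1 ht.2 (sq_nonneg ‖pr A x‖) (hU0 t ht)
      have h4 := hconv (pow_pos hb0 2) ht.1 ht.2 (sq_nonneg ‖pr Aᶜ x‖) (hW0 t ht)
      rw [norm_sq_pr A] at hx2
      have h5 : (1 - t) * ‖pr A x‖ ^ 2 + (1 - t) * ‖pr Aᶜ x‖ ^ 2 +
          (2 * t * (a ^ 2 * ‖pr A x‖ ^ 2) + 2 * t * (b ^ 2 * ‖pr Aᶜ x‖ ^ 2)) < 1 := by
        have h6 : 2 * t * (a ^ 2 * ‖pr A x‖ ^ 2) ≤ 2 * t * g :=
          mul_le_mul_of_nonneg_left (by linarith) (by linarith [ht.1])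
        have h7 : 2 * t * (b ^ 2 * ‖pr Aᶜ x‖ ^ 2) ≤ 2 * t * g :=
          mul_le_mul_of_nonneg_left (by linarith) (by linarith [ht.1])
        rcases ht.2.eq_or_lt with h8 | h8
        · rw [h8] at h6 h7 ⊢
          linarith
        · have h9 : (1 - t) * (‖pr A x‖ ^ 2 + ‖pr Aᶜ x‖ ^ 2) < (1 - t) * 1 :=
            mul_lt_mul_of_pos_left hx2 (by linarith)
          have h10 : 2 * t * g + 2 * t * g ≤ t := by nlinarith [ht.1]
          linarith
      simp only [hU, hW]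
      linarith
    · rw [GG_scale (x1 t) (v1 t) (by field_simp)]
    · rw [GG_scale (x2 t) (v2 t) (by field_simp)]
  have c : Conn (lev A r f g) (V 0, X 0) (V 1, X 1) := by
    apply Conn.of_path (γ := fun t => (V t, X t)) zero_le_one _ hmem
    have hUc : Continuous U := by fun_prop
    have hWc : Continuous W := by fun_prop
    apply ContinuousOn.prodMk
    · exact Continuous.continuousOn (by fun_prop)
    · have h1 : ContinuousOn (fun t : ℝ => a / Real.sqrt (U t)) (Icc 0 1) :=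
        continuousOn_const.div hUc.sqrt.continuousOn
          fun t ht => (Real.sqrt_pos.mpr (hU0 t ht)).ne'
      have h2 : ContinuousOn (fun t : ℝ => b / Real.sqrt (W t)) (Icc 0 1) :=
        continuousOn_const.div hWc.sqrt.continuousOn
          fun t ht => (Real.sqrt_pos.mpr (hW0 t ht)).ne'
      exact (h1.smul continuousOn_const).add (h2.smul continuousOn_const)
  have e0 : Real.sqrt (U 0) = a ∧ Real.sqrt (W 0) = b := by
    simp only [hU, hW]
    constructor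
    · rw [sub_zero, one_mul, zero_div, add_zero, Real.sqrt_sq ha0.le]
    · rw [sub_zero, one_mul, zero_div, add_zero, Real.sqrt_sq hb0.le]
  have e1 : V 0 = v := by
    simp only [hV]
    rw [e0.1, e0.2, div_self ha0.ne', div_self hb0.ne', one_smul, one_smul, pr_add_pr]
  have e2 : X 0 = x := by
    simp only [hX]
    rw [e0.1, e0.2, div_self ha0.ne', div_self hb0.ne', one_smul, one_smul, pr_add_pr]
  rw [e1, e2] at c
  have h1 : (1 : ℝ) ∈ Icc (0 : ℝ) 1 := ⟨zero_le_one, le_rfl⟩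
  refine ⟨V 1, X 1, c, ?_, ?_, ?_, ?_⟩
  · rw [n1 1 h1]
    simp [hU]
  · rw [n2 1 h1]
    simp [hW]
  · rw [x1, v1, inner_smul_left, inner_smul_right, hp]
    simp
  · rw [x2, v2, inner_smul_left, inner_smul_right, hp']
    simp

/-! ### The symmetric part -/

/-- The point of the symmetric part. -/
noncomputable def pt (e e' y z : EuclideanSpace ℝ κ) :
    EuclideanSpace ℝ κ × EuclideanSpace ℝ κ := ((Real.sqrt (1 / 2)) • (e + e'), y + z)

lemma pt_mem {A : Finset κ} {r g : ℝ} (hg : r ^ 2 < g) (hg1 : g < 1 / 4)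
    {b₁ b₂ f : EuclideanSpace ℝ κ → ℝ} (hf : Split A r b₁ b₂ f) {e e' y z : EuclideanSpace ℝ κ}
    (he : pr A e = e) (he' : pr Aᶜ e' = e') (hen : ‖e‖ = 1) (hen' : ‖e'‖ = 1) (hy : pr A y = y)
    (hz : pr Aᶜ z = z) (hye : ⟪y, e⟫_ℝ = 0) (hze : ⟪z, e'⟫_ℝ = 0)
    (hc : (‖y‖ ^ 2 / 2, ‖z‖ ^ 2 / 2) ∈ curve r g) : pt e e' y z ∈ lev A r f g := by
  have a1 : pr A e' = 0 := by rw [← he', pr_pr_compl]
  have a2 : pr Aᶜ e = 0 := by rw [← he, pr_compl_pr]
  have a3 : pr A z = 0 := by rw [← hz, pr_pr_compl]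
  have a4 : pr Aᶜ y = 0 := by rw [← hy, pr_compl_pr]
  have hs : Real.sqrt (1 / 2) ^ 2 = 1 / 2 := Real.sq_sqrt (by norm_num)
  have b1 : pr A (Real.sqrt (1 / 2) • (e + e')) = Real.sqrt (1 / 2) • e := by
    rw [map_smul, map_add, he, a1, add_zero]
  have b2 : pr Aᶜ (Real.sqrt (1 / 2) • (e + e')) = Real.sqrt (1 / 2) • e' := by
    rw [map_smul, map_add, he', a2, zero_add]
  have b3 : pr A (y + z) = y := by rw [map_add, hy, a3, add_zero]
  have b4 : pr Aᶜ (y + z) = z := by rw [map_add, hz, a4, zero_add]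
  obtain ⟨h1, h2⟩ := curve_le hg hc
  simp only at h1 h2
  refine ⟨?_, ?_, ?_⟩
  · apply norm_eq_one_of_sq
    change ‖Real.sqrt (1 / 2) • (e + e')‖ ^ 2 = 1
    rw [norm_sq_pr A, b1, b2, norm_smul, norm_smul, hen, hen', Real.norm_eq_abs, mul_one, sq_abs,
      hs]
    norm_num
  · change f (y + z) < 0
    apply hf.neg_of_lt
    rw [norm_sq_pr A, b3, b4]
    linarith
  · have c1 : GG A (y + z) (Real.sqrt (1 / 2) • (e + e')) = ‖y‖ ^ 2 / 2 := by
      rw [GG_perp (by rw [b1, b3, inner_smul_right, hye, mul_zero]), b1, b3, norm_smul, hen,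
        Real.norm_eq_abs, mul_one, sq_abs, hs]
      ring
    have c2 : GG Aᶜ (y + z) (Real.sqrt (1 / 2) • (e + e')) = ‖z‖ ^ 2 / 2 := by
      rw [GG_perp (by rw [b2, b4, inner_smul_right, hze, mul_zero]), b2, b4, norm_smul, hen',
        Real.norm_eq_abs, mul_one, sq_abs, hs]
      ring
    unfold inF
    simp only [pt]
    rw [c1, c2]
    exact hc.2.2

lemma exists_dir {B : Finset κ} (hB : 2 ≤ B.card) {y e : EuclideanSpace ℝ κ} (hy : pr B y = y)
    (hye : ⟪y, e⟫_ℝ = 0) : ∃ u : EuclideanSpace ℝ κ, pr B u = u ∧ ‖u‖ = 1 ∧ ⟪u, e⟫_ℝ = 0 ∧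
      y = ‖y‖ • u := by
  rcases eq_or_ne y 0 with h0 | h0
  · obtain ⟨u, hu, hun, hue⟩ := exists_orth B hB e
    exact ⟨u, hu, hun, hue, by rw [h0, norm_zero, zero_smul]⟩
  · have hn : 0 < ‖y‖ := norm_pos_iff.mpr h0
    refine ⟨‖y‖⁻¹ • y, ?_, ?_, ?_, ?_⟩
    · rw [map_smul, hy]
    · rw [norm_smul, norm_inv, norm_norm, inv_mul_cancel₀ hn.ne']
    · rw [inner_smul_left, hye, mul_zero]
    · rw [smul_smul, mul_inv_cancel₀ hn.ne', one_smul]

/-- Move along the curve of the momenta. -/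
lemma arc {A : Finset κ} {r g : ℝ} (hg : r ^ 2 < g) (hg1 : g < 1 / 4)
    {b₁ b₂ f : EuclideanSpace ℝ κ → ℝ} (hf : Split A r b₁ b₂ f) {e e' u u' : EuclideanSpace ℝ κ}
    (he : pr A e = e) (he' : pr Aᶜ e' = e') (hen : ‖e‖ = 1) (hen' : ‖e'‖ = 1) (hu : pr A u = u)
    (hu' : pr Aᶜ u' = u') (hue : ⟪u, e⟫_ℝ = 0) (hue' : ⟪u', e'⟫_ℝ = 0) (hun : ‖u‖ = 1)
    (hun' : ‖u'‖ = 1) {s t : ℝ × ℝ} (hs : s ∈ curve r g) (ht : t ∈ curve r g) :
    Conn (lev A r f g)
      (pt e e' (Real.sqrt (2 * s.1) • u) (Real.sqrt (2 * s.2) • u'))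
      (pt e e' (Real.sqrt (2 * t.1) • u) (Real.sqrt (2 * t.2) • u')) := by
  apply Conn.of_image (γ := fun s : ℝ × ℝ =>
    pt e e' (Real.sqrt (2 * s.1) • u) (Real.sqrt (2 * s.2) • u')) (isPreconnected_curve hg) _ _
    hs ht
  · unfold pt
    exact Continuous.continuousOn (by fun_prop)
  · intro s hs
    apply pt_mem hg hg1 hf he he' hen hen'
    · rw [map_smul, hu]
    · rw [map_smul, hu']
    · rw [inner_smul_left, hue, mul_zero]
    · rw [inner_smul_left, hue', mul_zero]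
    · obtain ⟨h1, h2, -⟩ := id hs
      rw [norm_smul, norm_smul, hun, hun', Real.norm_eq_abs, Real.norm_eq_abs, mul_one, mul_one,
        sq_abs, sq_abs, Real.sq_sqrt (by linarith), Real.sq_sqrt (by linarith)]
      have e1 : (2 * s.1 / 2, 2 * s.2 / 2) = s := by
        ext <;> simp
      rw [e1]
      exact hs

lemma zero_mem_curve {r g : ℝ} (hg : r ^ 2 < g) : ((0 : ℝ), g) ∈ curve r g := by
  have hr := sq_nonneg r
  refine ⟨le_rfl, by simp only; linarith, ?_⟩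
  simp only
  rw [expNegInvGlue.zero_of_nonpos (by linarith), zero_add]

lemma zero_mem_curve' {r g : ℝ} (hg : r ^ 2 < g) : (g, (0 : ℝ)) ∈ curve r g := by
  have hr := sq_nonneg r
  refine ⟨by simp only; linarith, le_rfl, ?_⟩
  simp only
  rw [expNegInvGlue.zero_of_nonpos (x := 0 - r ^ 2) (by linarith), add_zero]

/-- Turn the first component of the direction, the first component of the point being zero. -/
lemma rotate {A : Finset κ} {r g : ℝ} (hg : r ^ 2 < g) (hg1 : g < 1 / 4)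
    {b₁ b₂ f : EuclideanSpace ℝ κ → ℝ} (hf : Split A r b₁ b₂ f) (hA : 2 ≤ A.card)
    {e e₀ e' z : EuclideanSpace ℝ κ}
    (he : pr A e = e) (he₀ : pr A e₀ = e₀) (he' : pr Aᶜ e' = e') (hen : ‖e‖ = 1)
    (hen₀ : ‖e₀‖ = 1) (hen' : ‖e'‖ = 1) (hz : pr Aᶜ z = z) (hze : ⟪z, e'⟫_ℝ = 0)
    (hzn : ‖z‖ ^ 2 / 2 = g) :
    Conn (lev A r f g) (pt e e' 0 z) (pt e₀ e' 0 z) := by
  obtain ⟨γ, φ, hγ, hφ, h0, h1, h2⟩ := sphere_path hA he hen he₀ hen₀
  have h3 : Conn (lev A r f g) (pt (γ 0) e' 0 z) (pt (γ φ) e' 0 z) := by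
    apply Conn.of_path (γ := fun s => pt (γ s) e' 0 z) hφ
    · unfold pt
      exact Continuous.continuousOn (by fun_prop)
    · intro s _
      apply pt_mem hg hg1 hf (h2 s).1 he' (h2 s).2 hen' (map_zero _) hz (inner_zero_left _) hze
      rw [norm_zero, hzn, zero_pow two_ne_zero, zero_div]
      exact zero_mem_curve hg
  rw [h0, h1] at h3
  exact h3

omit [Fintype κ] [DecidableEq κ] in
lemma pt_comm (e e' y z : EuclideanSpace ℝ κ) : pt e e' y z = pt e' e z y := by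
  unfold pt
  rw [add_comm e e', add_comm y z]

theorem isPreconnected_lev {A : Finset κ} {r g : ℝ} (hg : r ^ 2 < g) (hg1 : g < 1 / 4)
    (hr : r ^ 2 ≤ 1 / 16) {b₁ b₂ f : EuclideanSpace ℝ κ → ℝ} (hf : Split A r b₁ b₂ f)
    (hA : 2 ≤ A.card) (hA' : 2 ≤ Aᶜ.card) : IsPreconnected (lev A r f g) := by
  have hg0 : 0 ≤ g := (sq_nonneg r).trans hg.le
  obtain ⟨e₀, he₀, hen₀, -⟩ := exists_orth A hA 0
  obtain ⟨e₁, he₁, hen₁, -⟩ := exists_orth Aᶜ hA' 0
  obtain ⟨u₀, hu₀, hun₀, hue₀⟩ := exists_orth A hA e₀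
  obtain ⟨u₁, hu₁, hun₁, hue₁⟩ := exists_orth Aᶜ hA' e₁
  have key : ∀ p ∈ lev A r f g, Conn (lev A r f g)
      (pt e₀ e₁ (Real.sqrt (2 * 0) • u₀) (Real.sqrt (2 * g) • u₁)) p := by
    rintro ⟨v, x⟩ h
    obtain ⟨v₁, x₁, c1, d1⟩ := to_ball hg hg1 hr hf h
    obtain ⟨x₂, c2, d2, d3, d4⟩ := to_perp hf c1.symm.mem_left d1
    obtain ⟨v₃, x₃, c3, d5, d6, d7, d8⟩ := to_half hg hg1 hf hA hA' c2.symm.mem_left d2 d3 d4
    have h3 := c3.symm.mem_left
    -- the coordinates of the point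
    have hs : Real.sqrt (1 / 2) ^ 2 = 1 / 2 := Real.sq_sqrt (by norm_num)
    have hs2 : Real.sqrt 2 ^ 2 = 2 := Real.sq_sqrt (by norm_num)
    have hss : Real.sqrt (1 / 2) * Real.sqrt 2 = 1 := by
      rw [← Real.sqrt_mul (by norm_num)]
      norm_num
    obtain ⟨e, he⟩ : ∃ e, e = Real.sqrt 2 • pr A v₃ := ⟨_, rfl⟩
    obtain ⟨e', he'⟩ : ∃ e', e' = Real.sqrt 2 • pr Aᶜ v₃ := ⟨_, rfl⟩
    have hpe : pr A e = e := by rw [he, map_smul, pr_pr]
    have hpe' : pr Aᶜ e' = e' := by rw [he', map_smul, pr_pr]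
    have hen : ‖e‖ = 1 := by
      apply norm_eq_one_of_sq
      rw [he, norm_smul, mul_pow, d5, Real.norm_eq_abs, sq_abs, hs2]
      norm_num
    have hen' : ‖e'‖ = 1 := by
      apply norm_eq_one_of_sq
      rw [he', norm_smul, mul_pow, d6, Real.norm_eq_abs, sq_abs, hs2]
      norm_num
    have hpt : (v₃, x₃) = pt e e' (pr A x₃) (pr Aᶜ x₃) := by
      unfold pt
      rw [he, he', ← smul_add, smul_smul, hss, one_smul, pr_add_pr, pr_add_pr]
    have hye : ⟪pr A x₃, e⟫_ℝ = 0 := by rw [he, inner_smul_right, d7, mul_zero]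
    have hze : ⟪pr Aᶜ x₃, e'⟫_ℝ = 0 := by rw [he', inner_smul_right, d8, mul_zero]
    obtain ⟨u, hu, hun, hue, hyu⟩ := exists_dir hA (pr_pr A x₃) hye
    obtain ⟨u', hu', hun', hue', hzu⟩ := exists_dir hA' (pr_pr Aᶜ x₃) hze
    have hcur : (‖pr A x₃‖ ^ 2 / 2, ‖pr Aᶜ x₃‖ ^ 2 / 2) ∈ curve r g := by
      refine ⟨by simp only; positivity, by simp only; positivity, ?_⟩
      have h4 := h3.2.2
      unfold inF at h4
      simp only at h4 ⊢
      rw [GG_perp d7, GG_perp d8, d5, d6] at h4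
      rw [← h4]
      congr 2 <;> ring
    have hsq : ∀ y : EuclideanSpace ℝ κ, Real.sqrt (2 * (‖y‖ ^ 2 / 2)) = ‖y‖ := by
      intro y
      rw [mul_div_cancel₀ _ two_ne_zero, Real.sqrt_sq (norm_nonneg _)]
    have hg2 : ∀ w : EuclideanSpace ℝ κ, ‖w‖ = 1 → ‖Real.sqrt (2 * g) • w‖ ^ 2 / 2 = g := by
      intro w hw
      rw [norm_smul, hw, Real.norm_eq_abs, mul_one, sq_abs, Real.sq_sqrt (by linarith)]
      ring
    have hz0 : ∀ w : EuclideanSpace ℝ κ, Real.sqrt (2 * 0) • w = 0 := by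
      intro w
      rw [mul_zero, Real.sqrt_zero, zero_smul]
    -- to the point with first component zero
    have a1 := arc hg hg1 hf hpe hpe' hen hen' hu hu' hue hue' hun hun' hcur (zero_mem_curve hg)
    simp only at a1
    rw [hsq, hsq, ← hyu, ← hzu, ← hpt, hz0] at a1
    -- turn the first component of the direction
    have a2 := rotate hg hg1 hf hA hpe he₀ hpe' hen hen₀ hen'
      (z := Real.sqrt (2 * g) • u') (by rw [map_smul, hu'])
      (by rw [inner_smul_left, hue', mul_zero]) (hg2 u' hun')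
    -- to the point with second component zero
    have a3 := arc hg hg1 hf he₀ hpe' hen₀ hen' hu₀ hu' hue₀ hue' hun₀ hun' (zero_mem_curve hg)
      (zero_mem_curve' hg)
    simp only at a3
    rw [hz0, hz0] at a3
    -- turn the second component of the direction
    have a4 := rotate (A := Aᶜ) hg hg1 hf.symm hA' hpe' he₁ (by rw [compl_compl]; exact he₀)
      hen' hen₁ hen₀ (z := Real.sqrt (2 * g) • u₀) (by rw [compl_compl, map_smul, hu₀])
      (by rw [inner_smul_left, hue₀, mul_zero]) (hg2 u₀ hun₀)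
    rw [lev_compl, pt_comm, pt_comm e₁] at a4
    -- to the base point
    have a5 := arc hg hg1 hf he₀ he₁ hen₀ hen₁ hu₀ hu₁ hue₀ hue₁ hun₀ hun₁ (zero_mem_curve' hg)
      (zero_mem_curve hg)
    simp only at a5
    rw [hz0, hz0] at a5
    rw [hz0]
    exact (c1.trans (c2.trans (c3.trans (a1.trans (a2.trans (a3.trans (a4.trans a5))))))).symm
  apply isPreconnected_of_forall
    (pt e₀ e₁ (Real.sqrt (2 * 0) • u₀) (Real.sqrt (2 * g) • u₁))
  intro p hp
  obtain ⟨t, h1, h2, h3, h4⟩ := key p hp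
  exact ⟨t, h1, h2, h3, h4⟩

end Pool.Agent.MP_d967a3_an
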