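import Mathlib
import Pool.Agent.Lib.MP_d967a3_an.InnerStmt
import Pool.Agent.Lib.MP_d967a3_an.OuterStmt

/-!
# Definitions for the strong forms
-/

open scoped InnerProductSpace ContDiff

namespace Pool.Agent.MP_d967a3_an

/-- The identity is the only invertible affine map which maps `K` onto itself. -/
def NoAffineSymmetry {E : Type*} [NormedAddCommGroup E] [InnerProductSpace ℝ E] (K : Set E) :
    Prop :=
  ∀ g : E ≃ᵃ[ℝ] E, g '' K = K → ∀ x, g x = x

/-- `F` is a smooth function of lines which is preserved by the billiard map `T` on the whole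
phase space. -/
structure IsLineIntegral {E : Type*} [NormedAddCommGroup E] [InnerProductSpace ℝ E] (Ω : Set E)
    (T : E × E → E × E) (F : E × E → ℝ) : Prop where
  smooth : ContDiff ℝ ∞ F
  invariant : ∀ ℓ ∈ phaseSpace Ω, F (T ℓ) = F ℓ

/-- `S` is a connected hypersurface of the phase space, invariant under the billiard map `T`, and
every boundary point of `Ω` is on a line of `S`. -/
structure IsInvariantSeeing {E : Type*} [NormedAddCommGroup E] [InnerProductSpace ℝ E]
    (Ω : Set E) (T : E × E → E × E) (S : Set (E × E)) : Prop where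
  hypersurface : IsLineHypersurface Ω S
  connected : IsConnected S
  invariant : T '' S = S
  sees : ∀ x ∈ frontier Ω, ∃ ℓ ∈ S, ∃ t : ℝ, x = ℓ.2 + t • ℓ.1

/-- `F` is a smooth function, preserved by the outer billiard map `T` on the whole complement of
`K`, where it is homogeneous of degree two and comparable to the square of the norm, and `F < 2` on
`K`. -/
structure IsOuterIntegral {m : ℕ} (K : Set (EuclideanSpace ℝ (Fin m ⊕ Fin m)))
    (T : EuclideanSpace ℝ (Fin m ⊕ Fin m) → EuclideanSpace ℝ (Fin m ⊕ Fin m))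
    (F : EuclideanSpace ℝ (Fin m ⊕ Fin m) → ℝ) : Prop where
  smooth : ContDiff ℝ ∞ F
  invariant : ∀ x, x ∉ K → F (T x) = F x
  lower : ∀ x, x ∉ K → ‖x‖ ^ 2 / 3 ≤ F x
  upper : ∀ x, x ∉ K → F x ≤ ‖x‖ ^ 2
  homogeneous : ∀ x, x ∉ K → ∀ s : ℝ, 1 ≤ s → F (s • x) = s ^ 2 * F x
  lt_two : ∀ x ∈ K, F x < 2

/-- `y` is the tangent point of `x`: `x = y - t J ν` with the outer unit normal `ν` at `y` and
`t > 0`. -/
def IsTangentPoint {m : ℕ} (K : Set (EuclideanSpace ℝ (Fin m ⊕ Fin m)))
    (x y : EuclideanSpace ℝ (Fin m ⊕ Fin m)) : Prop :=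
  ∃ (ν : EuclideanSpace ℝ (Fin m ⊕ Fin m)) (t : ℝ), IsOuterNormal K y ν ∧ 0 < t ∧ x = y - t • J ν

/-- `S` is a compact connected hypersurface of the complement of `K`, invariant under the outer
billiard map `T`, and every boundary point of `K` is the tangent point of a point of `S`. -/
structure IsOuterInvariantSeeing {m : ℕ} (K : Set (EuclideanSpace ℝ (Fin m ⊕ Fin m)))
    (T : EuclideanSpace ℝ (Fin m ⊕ Fin m) → EuclideanSpace ℝ (Fin m ⊕ Fin m))
    (S : Set (EuclideanSpace ℝ (Fin m ⊕ Fin m))) : Prop where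
  hypersurface : IsOuterHypersurface K S
  compact : IsCompact S
  connected : IsConnected S
  invariant : T '' S = S
  sees : ∀ y ∈ frontier K, ∃ x ∈ S, IsTangentPoint K x y

end Pool.Agent.MP_d967a3_an
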