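import Mathlib
import Pool.Agent.Lib.MP_d967a3_an.StrHalf

/-!
# A table without affine symmetries whose billiard map has a first integral
-/

open scoped InnerProductSpace ContDiff Topology
open Set Filter

namespace Pool.Agent.MP_d967a3_an

section general

variable {E : Type*} [NormedAddCommGroup E] [InnerProductSpace ℝ E] [CompleteSpace E]
  {f : E → ℝ}

lemma Defining.exists_map (hf : Defining f) : ∃ T : E × E → E × E,
    IsBilliardMap {x | f x ≤ 0} T := by
  classical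
  refine ⟨fun ℓ => if h : ℓ ∈ phaseSpace {x | f x ≤ 0} then
    Classical.choose (hf.exists_reflection h) else ℓ, fun ℓ hℓ => ?_⟩
  have h1 := Classical.choose_spec (hf.exists_reflection hℓ)
  simp only [dif_pos hℓ]
  exact h1

/-- The level sets of an even first integral are invariant. -/
lemma Defining.image_level (hf : Defining f) {T : E × E → E × E}
    (hT : IsBilliardMap {x | f x ≤ 0} T) {F : E × E → ℝ}
    (hrev : ∀ ℓ : E × E, F (-ℓ.1, ℓ.2) = F ℓ)
    (hinv : ∀ ℓ ∈ phaseSpace {x | f x ≤ 0}, ∀ ℓ', IsReflection {x | f x ≤ 0} ℓ ℓ' → F ℓ' = F ℓ)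
    (c : ℝ) :
    T '' (phaseSpace {x | f x ≤ 0} ∩ {ℓ | F ℓ = c}) =
      phaseSpace {x | f x ≤ 0} ∩ {ℓ | F ℓ = c} := by
  apply Subset.antisymm
  · rintro _ ⟨ℓ, ⟨hℓ, hF⟩, rfl⟩
    obtain ⟨h1, h2⟩ := hT ℓ hℓ
    refine ⟨h1, ?_⟩
    change F (T ℓ) = c
    rw [hinv ℓ hℓ (T ℓ) h2]
    exact hF
  · rintro ℓ ⟨hℓ, hF⟩
    have hF' : F ℓ = c := hF
    have hr := Defining.reverse_mem hℓ
    obtain ⟨m, hm, href⟩ := hf.exists_reflection hr
    have h1 := hf.reverse_reflection hℓ href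
    have h2 := Defining.reverse_mem hm
    have h3 : F m = c := by
      rw [hinv _ hr m href, hrev, hF']
    refine ⟨(-m.1, m.2), ⟨h2, ?_⟩, ?_⟩
    · change F (-m.1, m.2) = c
      rw [hrev, h3]
    · exact hf.reflection_unique (hT _ h2).2 h1

end general

variable {κ : Type*} [Fintype κ] [DecidableEq κ]

/-- The level of the integral in the phase space is connected. -/
theorem isPreconnected_level {A : Finset κ} {r g : ℝ} (hg : r ^ 2 < g) (hg1 : g < 1 / 4)
    (hr : r ^ 2 ≤ 1 / 16) {b₁ b₂ f : EuclideanSpace ℝ κ → ℝ} (hf : Split A r b₁ b₂ f)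
    (hA : 2 ≤ A.card) (hA' : 2 ≤ Aᶜ.card) :
    IsPreconnected (phaseSpace {x | f x ≤ 0} ∩ {ℓ | inF A r ℓ = expNegInvGlue (g - r ^ 2)}) := by
  have h1 := isPreconnected_lev hg hg1 hr hf hA hA'
  have h2 : phaseSpace {x | f x ≤ 0} ∩ {ℓ | inF A r ℓ = expNegInvGlue (g - r ^ 2)} =
      (fun p : EuclideanSpace ℝ κ × EuclideanSpace ℝ κ => (p.1, p.2 + (-⟪p.2, p.1⟫_ℝ) • p.1)) ''
        lev A r f g := by
    apply Subset.antisymm
    · rintro ⟨v, p⟩ ⟨⟨hv, hvp, t, ht⟩, hF⟩
      rw [hf.defining.mem_interior_iff] at ht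
      simp only at hv hvp ht
      have hF' : inF A r (v, p) = expNegInvGlue (g - r ^ 2) := hF
      refine ⟨(v, p + t • v), ⟨hv, ht, ?_⟩, ?_⟩
      · rw [inF_translate, hF']
      · have h3 : ⟪p + t • v, v⟫_ℝ = t := by
          rw [inner_add_left, inner_smul_left, real_inner_self_eq_norm_sq, hv, real_inner_comm,
            hvp]
          simp
        simp only
        rw [h3]
        ext1
        · rfl
        · simp only
          module
    · rintro _ ⟨⟨v, x⟩, ⟨hv, hx, hF⟩, rfl⟩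
      simp only at hv hx
      refine ⟨⟨hv, ?_, ⟪x, v⟫_ℝ, ?_⟩, ?_⟩
      · simp only
        rw [inner_add_right, inner_smul_right, real_inner_self_eq_norm_sq, hv, real_inner_comm]
        ring
      · rw [hf.defining.mem_interior_iff]
        simp only
        have : x + (-⟪x, v⟫_ℝ) • v + ⟪x, v⟫_ℝ • v = x := by module
        rw [this]
        exact hx
      · change inF A r (v, x + (-⟪x, v⟫_ℝ) • v) = expNegInvGlue (g - r ^ 2)
        rw [inF_translate]
        exact hF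
  rw [h2]
  apply h1.image
  exact Continuous.continuousOn (by fun_prop)

/-- A table in dimension at least four without affine symmetries whose billiard map has a first
integral with connected regular levels which see the whole boundary. -/
theorem inner_strong {n : ℕ} (hn : 4 ≤ n) :
    ∃ Ω : Set (EuclideanSpace ℝ (Fin n)), IsSmoothBody Ω ∧ ¬ IsEllipsoid Ω ∧
      (∀ g : EuclideanSpace ℝ (Fin n) ≃ᵃ[ℝ] EuclideanSpace ℝ (Fin n), g '' Ω = Ω →
        ∀ x, g x = x) ∧
      ∃ T : EuclideanSpace ℝ (Fin n) × EuclideanSpace ℝ (Fin n) →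
          EuclideanSpace ℝ (Fin n) × EuclideanSpace ℝ (Fin n),
        IsBilliardMap Ω T ∧
        ∃ F : EuclideanSpace ℝ (Fin n) × EuclideanSpace ℝ (Fin n) → ℝ, ContDiff ℝ ∞ F ∧
          (∀ ℓ ∈ phaseSpace Ω, F (T ℓ) = F ℓ) ∧
          ∃ c₀ : ℝ, 0 < c₀ ∧ ∀ c : ℝ, 0 < c → c < c₀ →
            IsLineHypersurface Ω (phaseSpace Ω ∩ {ℓ | F ℓ = c}) ∧
            IsConnected (phaseSpace Ω ∩ {ℓ | F ℓ = c}) ∧
            T '' (phaseSpace Ω ∩ {ℓ | F ℓ = c}) = phaseSpace Ω ∩ {ℓ | F ℓ = c} ∧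
            ∀ x ∈ frontier Ω, ∃ ℓ ∈ phaseSpace Ω ∩ {ℓ | F ℓ = c}, ∃ t : ℝ, x = ℓ.2 + t • ℓ.1 := by
  set A : Finset (Fin n) := {⟨0, by omega⟩, ⟨1, by omega⟩} with hAdef
  have hAc : A.card = 2 := by
    rw [hAdef, Finset.card_pair]
    intro h
    have := congrArg Fin.val h
    simp at this
  have hAc' : 2 ≤ Aᶜ.card := by
    rw [Finset.card_compl, hAc, Fintype.card_fin]
    omega
  have hA : A.Nonempty := Finset.card_pos.mp (by omega)
  have hA' : Aᶜ.Nonempty := Finset.card_pos.mp (by omega)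
  obtain ⟨r, b₁, b₂, f, hr0, hr, hf, hsym⟩ := exists_strong A hA hA'
  have hD := hf.defining
  have hnt : Nontrivial (EuclideanSpace ℝ (Fin n)) :=
    ⟨⟨EuclideanSpace.single ⟨0, by omega⟩ 1, 0, by
      intro h
      have := congrArg (fun z : EuclideanSpace ℝ (Fin n) => z ⟨0, by omega⟩) h
      simp at this⟩⟩
  have hfr' : ∀ y, y ∈ frontier {x | f x ≤ 0} → f y = 0 := by
    intro y hy
    have h1 : y ∈ {x | f x ≤ 0} := hD.compact.isClosed.frontier_subset hy
    refine le_antisymm h1 ?_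
    by_contra hcon
    push Not at hcon
    exact hy.2 (hD.mem_interior_iff.mpr hcon)
  obtain ⟨T, hT⟩ := hD.exists_map
  refine ⟨{x | f x ≤ 0}, hD.isSmoothBody, ?_, hsym, T, hT, inF A r, contDiff_inF A r, ?_,
    expNegInvGlue (1 / 4 - r ^ 2), expNegInvGlue.pos_of_pos (by linarith), ?_⟩
  · apply not_isEllipsoid
    intro g hg x
    exact hsym g.toAffineEquiv hg x
  · intro ℓ hℓ
    exact inF_reflect hf hℓ (hT ℓ hℓ).2
  intro c hc0 hc1
  obtain ⟨g, hg, hg1, rfl⟩ : ∃ g : ℝ, r ^ 2 < g ∧ g < 1 / 4 ∧ expNegInvGlue (g - r ^ 2) = c := by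
    have hc2 : c < 1 := hc1.trans_le (expNegInvGlue_le_one _)
    have h1 := glue_glueInv hc0.le hc2
    have h2 : 0 < glueInv c := by
      rcases (glueInv_nonneg hc0.le hc2).eq_or_lt with h3 | h3
      · rw [← h3, expNegInvGlue.zero_of_nonpos le_rfl] at h1
        linarith
      · exact h3
    refine ⟨r ^ 2 + glueInv c, by linarith, ?_, by rw [add_sub_cancel_left, h1]⟩
    by_contra hcon
    push Not at hcon
    have h3 := expNegInvGlue_mono (show 1 / 4 - r ^ 2 ≤ glueInv c by linarith)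
    linarith
  have hhit : ∀ x ∈ frontier {x | f x ≤ 0},
      ∃ ℓ ∈ phaseSpace {x | f x ≤ 0} ∩ {ℓ | inF A r ℓ = expNegInvGlue (g - r ^ 2)},
        ∃ t : ℝ, x = ℓ.2 + t • ℓ.1 := by
    intro x hx
    obtain ⟨ℓ, h1, h2, h3⟩ := hit hf hr hr0 (by omega) hAc' ((sq_nonneg r).trans_lt hg) hg1
      (hfr' x hx)
    exact ⟨ℓ, ⟨h1, h2⟩, h3⟩
  have hne : (phaseSpace {x | f x ≤ 0} ∩
      {ℓ | inF A r ℓ = expNegInvGlue (g - r ^ 2)}).Nonempty := by
    obtain ⟨t, ht, -, -⟩ := hD.exists_exit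
      (v := EuclideanSpace.single (⟨0, by omega⟩ : Fin n) (1 : ℝ))
      (p := 0) (t₀ := 0) (by simp) (by
        rw [zero_smul, add_zero]
        have h1 := hf.le 0
        rw [norm_zero] at h1
        linarith)
    obtain ⟨ℓ, h1, h2, -⟩ := hit hf hr hr0 (by omega) hAc' ((sq_nonneg r).trans_lt hg) hg1 ht
    exact ⟨ℓ, h1, h2⟩
  refine ⟨⟨hne, ?_, ?_⟩, ⟨hne, isPreconnected_level hg hg1 hr hf (by omega) hAc'⟩, ?_, hhit⟩
  · exact ⟨{ℓ | inF A r ℓ = expNegInvGlue (g - r ^ 2)},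
      isClosed_eq (contDiff_inF A r).continuous continuous_const, rfl⟩
  · rintro ⟨v, p⟩ ⟨hℓ, hF⟩
    have hF' : inF A r (v, p) = expNegInvGlue (g - r ^ 2) := hF
    obtain ⟨w, hw1, hw2⟩ := inF_regular (A := A) (r := r) (v := v) (p := p) (by rw [hF']; exact hc0)
    refine ⟨univ, fun ℓ => inF A r ℓ - expNegInvGlue (g - r ^ 2), isOpen_univ, mem_univ _,
      (contDiff_inF A r).sub contDiff_const, ?_, 0, w, inner_zero_right _, ?_, ?_⟩
    · intro m hm
      constructor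
      · intro h
        exact sub_eq_zero.mpr h.2
      · intro h
        exact ⟨hm.1, sub_eq_zero.mp h⟩
    · simp only
      rw [inner_zero_left, hw1, add_zero]
    · rw [fderiv_sub_const]
      exact hw2
  · exact hD.image_level hT (inF_neg A r) (fun ℓ hℓ ℓ' href => inF_reflect hf hℓ href) _

end Pool.Agent.MP_d967a3_an
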